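import Pool.Agent.PU.Meas

/-!
PU MEAG: the ideal of meager sets of Cantor space, codes of meager sets.

PROOFS.
`cover_of_meagre`: a meager set is covered by countably many closed nowhere dense sets `C j`
(`isMeagre_iff_countable_union_isNowhereDense` and closures, or the definition of `residual`;
`mem_residual_iff`; for the empty family use `C j = ∅`).  Let `y` be on at `pair j (encode s)` iff
no element of `C j` extends `s` (i.e. `∀ z ∈ C j, (List.range s.length).map z ≠ s`).  `GoodC y`: given
`j`, `s`, the basic open set of all `z` extending `s` is nonempty and is not contained in `C j`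
(empty interior), so it has a point `z ∉ C j`, and as `C j` is closed some restriction `s'` of `z`
to `n ≥ s.length` bits has no extension in `C j`; `s <+: s'`.  If `z ∈ C j` then `y` is off at all
`pair j (rsc z n)`, so `z ∈ MM y`.
`isMeagre_singleton`: `{x}` is closed with empty interior (every basic open set has two points).
`meagIdeal_ccc`: for a positive Borel `B` there is an open `W` with `B =ᵇ W`
(`MeasurableSet.residualEq_isOpen`), nonempty since `B` is not meager, so it contains a nonempty
basic open set `O_B` from a countable basis (`TopologicalSpace.countableBasis`), with `O_B \ B`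
meager.  If `B ≠ B'` have `B ∩ B'` meager and `O_B = O_B'` then `O_B` is meager, contradicting Baire
(`(ℕ → Bool)` is a compact Hausdorff, hence Baire, space).  So `B ↦ O_B` is injective.
-/

namespace PU

open MeasureTheory Set

/-- neighbourhoods in Cantor space: agreement on an initial segment -/
theorem exists_nat_of_mem_open {U : Set (ℕ → Bool)} (hU : IsOpen U) {z : ℕ → Bool} (hz : z ∈ U) :
    ∃ n, ∀ z' : ℕ → Bool, (∀ i < n, z' i = z i) → z' ∈ U := by
  rw [isOpen_pi_iff] at hU
  obtain ⟨I, u, hu, hsub⟩ := hU z hz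
  refine ⟨I.sup id + 1, fun z' hz' => hsub fun i hi => ?_⟩
  have : i < I.sup id + 1 := Nat.lt_succ_of_le (Finset.le_sup (f := id) hi)
  rw [hz' i this]
  exact (hu i hi).2

/-- the set of reals extending a given initial segment is open -/
theorem isOpen_cyl (z : ℕ → Bool) (n : ℕ) : IsOpen {z' : ℕ → Bool | ∀ i < n, z' i = z i} := by
  have h : {z' : ℕ → Bool | ∀ i < n, z' i = z i} = ⋂ i ∈ Finset.range n, {z' | z' i = z i} := by
    ext z'; simp
  rw [h]
  refine isOpen_biInter_finset fun i _ => ?_
  have h1 : {z' : ℕ → Bool | z' i = z i} = (fun z' : ℕ → Bool => z' i) ⁻¹' {z i} := by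
    ext z'; simp
  rw [h1]
  exact (isOpen_discrete _).preimage (continuous_apply i)

theorem map_range_eq_iff (z z' : ℕ → Bool) (n : ℕ) :
    (List.range n).map z' = (List.range n).map z ↔ ∀ i < n, z' i = z i := by
  constructor
  · intro h i hi
    have := congrArg (fun l => l[i]?) h
    simpa [hi] using this
  · intro h
    refine List.map_congr_left fun i hi => h i (List.mem_range.1 hi)

theorem cover_of_meagre {Z : Set (ℕ → Bool)} (hZ : IsMeagre Z) : ∃ y, GoodC y ∧ Z ⊆ MM y := by
  classical
  rw [isMeagre_iff_countable_union_isNowhereDense] at hZ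
  obtain ⟨S, hS, hSc, hZS⟩ := hZ
  obtain ⟨C, hC⟩ : ∃ C : ℕ → Set (ℕ → Bool), (∀ j, IsNowhereDense (C j)) ∧ Z ⊆ ⋃ j, C j := by
    rcases S.eq_empty_or_nonempty with rfl | hne
    · exact ⟨fun _ => ∅, fun _ => isNowhereDense_empty, by simpa using hZS⟩
    · obtain ⟨C, hC⟩ := hSc.exists_eq_range hne
      refine ⟨C, fun j => hS _ (hC ▸ mem_range_self j), hZS.trans ?_⟩
      rw [hC, sUnion_range]
  let y : ℕ → Bool := fun k => decide (∃ s : List Bool, Encodable.encode s = k.unpair.2 ∧
    ∀ z ∈ closure (C k.unpair.1), (List.range s.length).map z ≠ s)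
  have hy : ∀ (j : ℕ) (s : List Bool), y (Nat.pair j (Encodable.encode s)) = true ↔
      ∀ z ∈ closure (C j), (List.range s.length).map z ≠ s := by
    intro j s
    simp only [y, Nat.unpair_pair, decide_eq_true_eq]
    constructor
    · rintro ⟨s', h1, h2⟩
      rw [Encodable.encode_injective h1] at h2
      exact h2
    · intro h
      exact ⟨s, rfl, h⟩
  refine ⟨y, fun j s => ?_, fun z hz => ?_⟩
  · -- extend `s` to a real outside the closure of `C j`
    let z₀ : ℕ → Bool := fun i => s.getD i false
    have hz₀ : (List.range s.length).map z₀ = s := by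
      apply List.ext_getElem
      · simp
      · intro i h5 h6
        simp [z₀, h6]
    have hO := isOpen_cyl z₀ s.length
    have hnd : ¬ {z' : ℕ → Bool | ∀ i < s.length, z' i = z₀ i} ⊆ closure (C j) := by
      intro hsub
      have h1 : z₀ ∈ interior (closure (C j)) :=
        interior_maximal hsub hO (fun i _ => rfl : ∀ i < s.length, z₀ i = z₀ i)
      rw [hC.1 j] at h1
      exact h1
    rw [not_subset] at hnd
    obtain ⟨z, hz, hzC⟩ := hnd
    obtain ⟨n, hn⟩ := exists_nat_of_mem_open isClosed_closure.isOpen_compl hzC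
    refine ⟨(List.range (max n s.length)).map z, ?_, ?_⟩
    · have h1 : (List.range s.length).map z = s := by
        rw [← hz₀]
        simp only [List.length_map, List.length_range]
        exact (map_range_eq_iff _ _ _).2 hz
      rw [← h1]
      have h2 : List.range s.length <+: List.range (max n s.length) := by
        rw [show max n s.length = s.length + (max n s.length - s.length) by omega,
          List.range_add]
        exact List.prefix_append _ _
      simpa [h1] using h2.map z
    · rw [hy]
      intro z' hz' heq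
      simp only [List.length_map, List.length_range] at heq
      rw [map_range_eq_iff] at heq
      exact hn z' (fun i hi => heq i (lt_of_lt_of_le hi (le_max_left _ _))) hz'
  · obtain ⟨j, hj⟩ := mem_iUnion.1 (hC.2 hz)
    refine ⟨j, fun n => ?_⟩
    by_contra hne
    have h1 : y (Nat.pair j (rsc z n)) = true := by simpa using hne
    unfold rsc at h1
    rw [hy] at h1
    exact h1 z (subset_closure hj) (by simp)

theorem isMeagre_singleton (x : ℕ → Bool) : IsMeagre ({x} : Set (ℕ → Bool)) := by
  apply IsNowhereDense.isMeagre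
  rw [isClosed_singleton.isNowhereDense_iff]
  ext z
  simp only [mem_empty_iff_false, iff_false]
  intro hz
  have hsub : interior ({x} : Set (ℕ → Bool)) ⊆ {x} := interior_subset
  have hzx : z = x := mem_singleton_iff.1 (hsub hz)
  subst hzx
  obtain ⟨n, hn⟩ := exists_nat_of_mem_open isOpen_interior hz
  have h1 : Function.update z n (!(z n)) ∈ interior ({z} : Set (ℕ → Bool)) :=
    hn _ fun i hi => by rw [Function.update_of_ne (ne_of_lt hi)]
  have h2 : Function.update z n (!(z n)) = z := mem_singleton_iff.1 (hsub h1)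
  have h3 := congrFun h2 n
  simp at h3

/-- a Borel nonmeager set is comeager in a nonempty open set -/
theorem exists_open_cantor {B : Set (ℕ → Bool)} (hB : MeasurableSet B) {U : Set (ℕ → Bool)}
    (hU : IsOpen U) (h : ¬ IsMeagre (B ∩ U)) :
    ∃ V : Set (ℕ → Bool), IsOpen V ∧ V.Nonempty ∧ V ⊆ U ∧ IsMeagre (V \ B) := by
  have hm : MeasurableSet (B ∩ U) := hB.inter hU.measurableSet
  obtain ⟨W, hW, hWB⟩ := hm.residualEq_isOpen
  have h1 : IsMeagre ((B ∩ U) \ W) := by
    have h2 : {z | z ∈ (B ∩ U) ↔ z ∈ W} ∈ residual (ℕ → Bool) := hWB.mem_iff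
    rw [IsMeagre]
    refine Filter.mem_of_superset h2 fun z hz => ?_
    rintro ⟨h3, h4⟩
    exact h4 (hz.1 h3)
  have h1' : IsMeagre (W \ (B ∩ U)) := by
    have h2 : {z | z ∈ (B ∩ U) ↔ z ∈ W} ∈ residual (ℕ → Bool) := hWB.mem_iff
    rw [IsMeagre]
    refine Filter.mem_of_superset h2 fun z hz => ?_
    rintro ⟨h3, h4⟩
    exact h4 (hz.2 h3)
  refine ⟨W ∩ U, hW.inter hU, ?_, inter_subset_right, ?_⟩
  · by_contra hne
    rw [not_nonempty_iff_eq_empty] at hne
    apply h
    refine IsMeagre.mono ?_ h1
    intro z hz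
    refine ⟨hz, fun hzW => ?_⟩
    have : z ∈ W ∩ U := ⟨hzW, hz.2⟩
    rw [hne] at this
    exact this
  · refine IsMeagre.mono ?_ h1'
    intro z hz
    exact ⟨hz.1.1, fun hzB => hz.2 hzB.1⟩

/-- The ideal of Borel meager sets. -/
def meagIdeal : SigmaIdeal (ℕ → Bool) where
  mem B := MeasurableSet B ∧ IsMeagre B
  meas _ h := h.1
  singleton x := ⟨measurableSet_singleton x, isMeagre_singleton x⟩
  mono _ _ hA hB hBA := ⟨hB, hA.2.mono hBA⟩
  iUnion _ hA := ⟨MeasurableSet.iUnion fun n => (hA n).1, isMeagre_iUnion fun n => (hA n).2⟩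

theorem meagIdeal_ccc : CCC meagIdeal := by
  intro F hF hd
  have hex : ∀ B : F, ∃ O : Set (ℕ → Bool),
      O ∈ TopologicalSpace.countableBasis (ℕ → Bool) ∧ O.Nonempty ∧ IsMeagre (O \ B.1) := by
    intro B
    obtain ⟨hB1, hB2⟩ := hF B.1 B.2
    have h1 : ¬ IsMeagre (B.1 ∩ univ) := by
      rw [inter_univ]
      exact fun h => hB2 ⟨hB1, h⟩
    obtain ⟨V, hV1, ⟨z, hz⟩, -, hV4⟩ := exists_open_cantor hB1 isOpen_univ h1
    obtain ⟨O, hO, hzO, hOV⟩ :=
      (TopologicalSpace.isBasis_countableBasis (ℕ → Bool)).exists_subset_of_mem_open hz hV1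
    refine ⟨O, hO, ⟨z, hzO⟩, IsMeagre.mono ?_ hV4⟩
    intro x hx
    exact ⟨hOV hx.1, hx.2⟩
  choose O hO hne hm using hex
  have hcount := TopologicalSpace.countable_countableBasis (ℕ → Bool)
  have hinj : Function.Injective (fun B : F =>
      (⟨O B, hO B⟩ : TopologicalSpace.countableBasis (ℕ → Bool))) := by
    intro B B' hBB
    by_contra hne'
    have hOO : O B = O B' := congrArg Subtype.val hBB
    have h1 : meagIdeal.mem (B.1 ∩ B'.1) :=
      hd B.2 B'.2 fun h => hne' (Subtype.ext h)
    have h2 : IsMeagre (O B) := by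
      refine IsMeagre.mono ?_ (((hm B).union (hm B')).union h1.2)
      intro x hx
      by_cases hx1 : x ∈ B.1
      · by_cases hx2 : x ∈ B'.1
        · exact Or.inr ⟨hx1, hx2⟩
        · exact Or.inl (Or.inr ⟨hOO ▸ hx, hx2⟩)
      · exact Or.inl (Or.inl ⟨hx, hx1⟩)
    exact not_isMeagre_of_isOpen
      ((TopologicalSpace.isBasis_countableBasis (ℕ → Bool)).isOpen (hO B)) (hne B) h2
  have : Countable (TopologicalSpace.countableBasis (ℕ → Bool)) := hcount
  exact hinj.countable

end PU
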