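import Pool.Agent.PU.Om

/-!
PU SEQ: the represented type of sequences of countable length.

PROOFS.
`inj`: the lengths agree by `IsWO.unique`; for `η < len` there is `n` with `RK c.1 n η` (from
`Codes`), so the two values have the common code `c.2 n`; outside use `out`.
`surj`: a code `v` of the length; for `n` with `RK v n η` (unique `η`) choose a code of `s.val η`,
otherwise any code of `default`.
`eqv`: `∃ s, rel p.1 s ∧ rel p.2 s` is equivalent to
`(∃ l, IsWO v l ∧ IsWO v' l) ∧ ∀ n n', (∃ η, RK v n η ∧ RK v' n' η) → ∃ y, rel (z n) y ∧ rel (z' n') y`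
for `p = ((v, z), (v', z'))` (given `η < l` there are `n`, `n'` with `RK v n η`, `RK v' n' η`;
let `s.val η` be the common value; for other `m` with `RK v m η` compare with `n'`).
To see that this is projective use the calculus with the Polish space `Rep.C Y` represented by
itself (local instance `Rep.ofPolish (Rep.C Y)`, and `Rep.pi`, products), `PC.isWO`, `PC.rk`,
`PCF.eval`; convert with `projective_of_pc`-style lemmas (class `Std`; `Std` holds for
`Rep.ofPolish` types, by `Homeomorph.refl`), or argue directly with `Projective.*`.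
`PCF.len`, `PCF.val`: by `PCF.comp` it is enough to treat `fun s : Seq Y => s.len` and
`fun p : Seq Y × Om => p.1.val p.2`.  `len` is tracked by `c ↦ c.1` (`PCF.of_track`).  For `val`:
`p.1.val p.2 = y ↔ (p.1.len ≤ p.2 ∧ y = default) ∨ (p.2 < p.1.len ∧ y = p.1.val p.2)`; the codes
`((v, z), a, d)` with `∃ n, rank of n in v is the ordinal coded by a, and z n, d code the same
element`; show that this set is projective and use `PCF.of_graph`/`Projective.congr`.
`PCF.restr`: `s.restr μ = t ↔ (t.len = s.len ∧ s.len ≤ μ ∨ t.len = μ ∧ μ ≤ s.len) ∧ ∀ α < t.len,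
t.val α = s.val α`, and the right side is in the calculus.
-/

namespace PU

open MeasureTheory Set

universe u v

/-- Sequences of countable length of elements of `Y`. -/
structure Seq (Y : Type u) [Inhabited Y] where
  len : Om
  val : Om → Y
  out : ∀ α, len ≤ α → val α = default

variable {Y : Type u} [Inhabited Y]

theorem Seq.ext' {s t : Seq Y} (h : s.len = t.len) (h' : ∀ α < s.len, s.val α = t.val α) :
    s = t := by
  obtain ⟨l, f, hf⟩ := s
  obtain ⟨l', f', hf'⟩ := t
  obtain rfl : l = l' := h
  have : f = f' := by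
    funext α
    rcases lt_or_ge α l with hα | hα
    · exact h' α hα
    · rw [hf α hα, hf' α hα]
  subst this
  rfl

instance : Inhabited (Seq Y) := ⟨⟨default, fun _ => default, fun _ _ => rfl⟩⟩

/-- Restriction of a sequence. -/
noncomputable def Seq.restr (s : Seq Y) (μ : Om) : Seq Y :=
  ⟨min s.len μ, open Classical in fun α => if α < min s.len μ then s.val α else default,
    fun α hα => by simp [not_lt.2 hα]⟩

/-- The sequence of length `μ` with values `f`. -/
noncomputable def Seq.mk' (f : Om → Y) (μ : Om) : Seq Y :=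
  ⟨μ, open Classical in fun α => if α < μ then f α else default,
    fun α hα => by simp [not_lt.2 hα]⟩

/-- codes of a sequence: projectivity of the equality relation -/
theorem seq_eqv_aux (C : Type) [TopologicalSpace C] [PolishSpace C] (Eq' : C → C → Prop)
    (hE : Projective {p : C × C | Eq' p.1 p.2}) :
    Projective {p : ((ℕ → Bool) × (ℕ → C)) × ((ℕ → Bool) × (ℕ → C)) |
      (∃ l : Om, IsWO p.1.1 l.1 ∧ IsWO p.2.1 l.1) ∧
      ∀ n n' : ℕ, ∀ η : Om, RK p.1.1 n η → RK p.2.1 n' η → Eq' (p.1.2 n) (p.2.2 n')} := by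
  let _ : Rep C := Rep.ofPolish C
  have : Std C := ⟨⟨Homeomorph.refl C, fun _ _ => Iff.rfl⟩⟩
  have hE' : PC (fun p : C × C => Eq' p.1 p.2) := pc_of_projective hE
  refine projective_of_pc (X := ((ℕ → Bool) × (ℕ → C)) × ((ℕ → Bool) × (ℕ → C))) ?_
  refine PC.and ?_ ?_
  · repeat' with_reducible first
      | assumption
      | apply PC.and
      | apply PC.ex
      | apply PC.isWO
      | apply PCF.fst
      | apply PCF.snd
      | apply PCF.id
  · refine PC.all (PC.all (PC.all (PC.imp ?_ (PC.imp ?_ ?_))))
    · repeat' with_reducible first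
        | assumption
        | apply PC.rk
        | apply PCF.fst
        | apply PCF.snd
        | apply PCF.id
    · repeat' with_reducible first
        | assumption
        | apply PC.rk
        | apply PCF.fst
        | apply PCF.snd
        | apply PCF.id
    · refine PC.comp (S := fun p : C × C => Eq' p.1 p.2) hE' (PCF.mk ?_ ?_)
      · repeat' with_reducible first
          | assumption
          | apply PCF.eval
          | apply PCF.fst
          | apply PCF.snd
          | apply PCF.id
      · repeat' with_reducible first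
          | assumption
          | apply PCF.eval
          | apply PCF.fst
          | apply PCF.snd
          | apply PCF.id

theorem exists_rk {v : ℕ → Bool} {l : Om} (h : IsWO v l.1) {η : Om} (hη : η < l) :
    ∃ n, RK v n η := by
  obtain ⟨e, he⟩ := h
  obtain ⟨n, hn, hen⟩ := he.2.2 η.1 hη
  exact ⟨n, e, l.1, he, hn, hen⟩

theorem RK.lt {v : ℕ → Bool} {l : Om} (h : IsWO v l.1) {n : ℕ} {η : Om} (hη : RK v n η) :
    η < l := by
  obtain ⟨e, he⟩ := h
  obtain ⟨e', l', he', hn, hen⟩ := hη
  have h1 := (he'.unique he).2 n hn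
  have h2 := he.2.1 n hn
  rw [← h1, hen] at h2
  exact h2

noncomputable instance [Rep Y] : Rep (Seq Y) where
  C := (ℕ → Bool) × (ℕ → Rep.C Y)
  top := inferInstance
  pol := inferInstance
  rel c s := IsWO c.1 s.len.1 ∧ ∀ n η, RK c.1 n η → Rep.rel (c.2 n) (s.val η)
  inj := by
    intro c s s' h h'
    have hl : s.len = s'.len := Subtype.ext (h.1.unique h'.1)
    refine Seq.ext' hl fun α hα => ?_
    obtain ⟨n, hn⟩ := exists_rk h.1 hα
    exact Rep.inj _ _ _ (h.2 n α hn) (h'.2 n α hn)
  surj := by
    intro s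
    obtain ⟨v, hv⟩ := exists_isWO s.len.2
    have h1 : ∀ n, ∃ c : Rep.C Y, ∀ η, RK v n η → Rep.rel c (s.val η) := by
      intro n
      by_cases h : ∃ η, RK v n η
      · obtain ⟨η, hη⟩ := h
        obtain ⟨c, hc⟩ := Rep.surj (s.val η)
        exact ⟨c, fun η' hη' => by rw [hη'.unique hη]; exact hc⟩
      · obtain ⟨c, -⟩ := Rep.surj (default : Y)
        exact ⟨c, fun η hη => absurd ⟨η, hη⟩ h⟩
    choose z hz using h1
    exact ⟨(v, z), hv, hz⟩
  eqv := by
    refine Projective.congr (fun p => ?_)
      (seq_eqv_aux (Rep.C Y) (fun a b => ∃ y : Y, Rep.rel a y ∧ Rep.rel b y) Rep.eqv)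
    constructor
    · rintro ⟨⟨l, h1, h2⟩, h3⟩
      have h4 : ∀ η : Om, η < l → ∃ y : Y, (∀ n, RK p.1.1 n η → Rep.rel (p.1.2 n) y) ∧
          ∀ n, RK p.2.1 n η → Rep.rel (p.2.2 n) y := by
        intro η hη
        obtain ⟨n, hn⟩ := exists_rk h1 hη
        obtain ⟨n', hn'⟩ := exists_rk h2 hη
        obtain ⟨y, hy, hy'⟩ := h3 n n' η hn hn'
        refine ⟨y, fun m hm => ?_, fun m hm => ?_⟩
        · obtain ⟨y2, h5, h6⟩ := h3 m n' η hm hn'
          rwa [Rep.inj _ _ _ hy' h6]
        · obtain ⟨y2, h5, h6⟩ := h3 n m η hn hm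
          rwa [Rep.inj _ _ _ hy h5]
      choose! g hg1 hg2 using h4
      classical
      refine ⟨⟨l, fun η => if η < l then g η else default, fun α hα => by simp [not_lt.2 hα]⟩,
        ⟨h1, fun n η hη => ?_⟩, ⟨h2, fun n η hη => ?_⟩⟩
      · have := hη.lt h1
        simpa [this] using hg1 η this n hη
      · have := hη.lt h2
        simpa [this] using hg2 η this n hη
    · rintro ⟨s, h1, h2⟩
      exact ⟨⟨s.len, h1.1, h2.1⟩, fun n n' η hn hn' => ⟨s.val η, h1.2 n η hn, h2.2 n' η hn'⟩⟩

variable {X : Type v} [Rep X] [Rep Y]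

theorem PCF.len {s : X → Seq Y} (hs : PCF s) : PCF (fun x => (s x).len) := by
  have h : PCF (fun s : Seq Y => s.len) :=
    PCF.of_track (X := Seq Y) (Y := Om) (fun c : (ℕ → Bool) × (ℕ → Rep.C Y) => c.1)
      continuous_fst fun _ _ h => h.1
  exact PCF.comp h hs

/-- the value relation of sequences, on codes -/
theorem seq_val_aux (C : Type) [TopologicalSpace C] [PolishSpace C] (Eq' : C → C → Prop)
    (hE : Projective {p : C × C | Eq' p.1 p.2}) :
    Projective {p : (((ℕ → Bool) × (ℕ → C)) × (ℕ → Bool)) × C |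
      ∃ (n : ℕ) (η : Om), RK p.1.1.1 n η ∧ IsWO p.1.2 η.1 ∧ Eq' (p.1.1.2 n) p.2} := by
  let _ : Rep C := Rep.ofPolish C
  have : Std C := ⟨⟨Homeomorph.refl C, fun _ _ => Iff.rfl⟩⟩
  have hE' : PC (fun p : C × C => Eq' p.1 p.2) := pc_of_projective hE
  refine projective_of_pc (X := (((ℕ → Bool) × (ℕ → C)) × (ℕ → Bool)) × C) ?_
  refine PC.ex (PC.ex (PC.and ?_ (PC.and ?_ ?_)))
  · repeat' with_reducible first
      | assumption
      | apply PC.rk
      | apply PCF.fst
      | apply PCF.snd
      | apply PCF.id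
  · repeat' with_reducible first
      | assumption
      | apply PC.isWO
      | apply PCF.fst
      | apply PCF.snd
      | apply PCF.id
  · refine PC.comp (S := fun p : C × C => Eq' p.1 p.2) hE' (PCF.mk ?_ ?_)
    · repeat' with_reducible first
        | assumption
        | apply PCF.eval
        | apply PCF.fst
        | apply PCF.snd
        | apply PCF.id
    · repeat' with_reducible first
        | assumption
        | apply PCF.eval
        | apply PCF.fst
        | apply PCF.snd
        | apply PCF.id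

theorem PCF.val {s : X → Seq Y} {α : X → Om} (hs : PCF s) (hα : PCF α) :
    PCF (fun x => (s x).val (α x)) := by
  have h0 : PC (fun p : (Seq Y × Om) × Y => p.1.2 < p.1.1.len ∧ p.1.1.val p.1.2 = p.2) := by
    have h1 := seq_val_aux (Rep.C Y) (fun a b => ∃ y : Y, Rep.rel a y ∧ Rep.rel b y) Rep.eqv
    have h2 : Projective {c : Rep.C ((Seq Y × Om) × Y) | ∃ p, Rep.rel c p} := Rep.dom_proj
    refine Projective.congr (X := (((ℕ → Bool) × (ℕ → Rep.C Y)) × (ℕ → Bool)) × Rep.C Y)
      (fun c => ?_) (h1.inter h2)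
    constructor
    · rintro ⟨⟨n, η, h3, h4, y, h5, h6⟩, p, h7⟩
      have e1 : p.1.2 = η := Subtype.ext ((show IsWO c.1.2 p.1.2.1 from h7.1.2).unique h4)
      have h8 : IsWO c.1.1.1 p.1.1.len.1 := h7.1.1.1
      have e2 : η < p.1.1.len := h3.lt h8
      refine ⟨p, h7, by rw [e1]; exact e2, ?_⟩
      have h9 : Rep.rel (c.1.1.2 n) (p.1.1.val η) := h7.1.1.2 n η h3
      rw [e1, Rep.inj _ _ _ h9 h5]
      exact Rep.inj _ _ _ h6 h7.2
    · rintro ⟨p, h7, h8, h9⟩
      refine ⟨?_, p, h7⟩
      have h10 : IsWO c.1.1.1 p.1.1.len.1 := h7.1.1.1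
      obtain ⟨n, hn⟩ := exists_rk h10 h8
      exact ⟨n, p.1.2, hn, h7.1.2, p.2, by rw [← h9]; exact h7.1.1.2 n _ hn, h7.2⟩
  have h : PCF (fun p : Seq Y × Om => p.1.val p.2) := by
    refine PC.congr (S := fun p : (Seq Y × Om) × Y =>
      (p.1.1.len ≤ p.1.2 ∧ default = p.2) ∨ (p.1.2 < p.1.1.len ∧ p.1.1.val p.1.2 = p.2))
      (fun p => ?_) ?_
    · change _ ↔ p.1.1.val p.1.2 = p.2
      constructor
      · rintro (⟨h1, h2⟩ | ⟨-, h2⟩)
        · rw [p.1.1.out _ h1]; exact h2
        · exact h2
      · intro h1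
        rcases lt_or_ge p.1.2 p.1.1.len with h2 | h2
        · exact Or.inr ⟨h2, h1⟩
        · refine Or.inl ⟨h2, ?_⟩
          rw [← h1, p.1.1.out _ h2]
    · refine PC.or (PC.and ?_ ?_) h0
      · exact PC.ole (PCF.len (PCF.fst (PCF.fst PCF.id))) (PCF.snd (PCF.fst PCF.id))
      · exact PC.eq (PCF.const _) (PCF.snd PCF.id)
  exact PCF.comp h (PCF.mk hs hα)

theorem PCF.restr {s : X → Seq Y} {α : X → Om} (hs : PCF s) (hα : PCF α) :
    PCF (fun x => (s x).restr (α x)) := by
  have h : PCF (fun p : Seq Y × Om => p.1.restr p.2) := by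
    refine PCF.of_graph (T := fun p t => ((t.len = p.1.len ∧ p.1.len ≤ p.2) ∨
      (t.len = p.2 ∧ p.2 ≤ p.1.len)) ∧ ∀ α, α < t.len → t.val α = p.1.val α) ?_ ?_
    · repeat' with_reducible first
        | assumption
        | apply PC.and
        | apply PC.or
        | apply PC.all
        | apply PC.imp
        | apply PC.eq
        | apply PC.ole
        | apply PC.olt
        | apply PCF.val
        | apply PCF.len
        | apply PCF.fst
        | apply PCF.snd
        | apply PCF.id
    · rintro ⟨s, μ⟩ t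
      constructor
      · rintro ⟨h1, h2⟩
        have hl : t.len = min s.len μ := by
          rcases h1 with ⟨h3, h4⟩ | ⟨h3, h4⟩
          · rw [min_eq_left h4]; exact h3
          · rw [min_eq_right h4]; exact h3
        refine (Seq.ext' hl fun α hα => ?_).symm
        rw [h2 α hα]
        have hα' : α < min s.len μ := hl ▸ hα
        change s.val α = if α < min s.len μ then s.val α else default
        rw [if_pos hα']
      · rintro rfl
        refine ⟨?_, fun α hα => ?_⟩
        · change (min s.len μ = s.len ∧ _) ∨ (min s.len μ = μ ∧ _)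
          rcases le_total s.len μ with h | h
          · exact Or.inl ⟨min_eq_left h, h⟩
          · exact Or.inr ⟨min_eq_right h, h⟩
        · have hα' : α < min s.len μ := hα
          change (if α < min s.len μ then s.val α else default) = s.val α
          rw [if_pos hα']
  exact PCF.comp h (PCF.mk hs hα)

end PU
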