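import Pool.Agent.PU.Bound
import Pool.Agent.PU.SeqR
import Pool.Agent.PU.Meag

/-!
PU SMALL: projective well-ordered sets of reals are meager if uniformization holds up to meager
sets.

PROOF of `small_of_unif`.  Let `Z = {z | ∃ l, H l z}` and
`R = {(z, v) | ∃ l a, H l z ∧ IsWO v a.1 ∧ l ≤ a}` (`l a : Om`), projective by the calculus
(`projective_of_pc`, `PC.ex`, `PC.and`, `hH` composed with projections, `PC.isWO`, `PC.ole`).
Claim: every Borel nonmeager `A` contains a Borel nonmeager `B` with `B ∩ Z = ∅`.  Apply `hU` to `R`,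
`A`: get `B ⊆ A` Borel nonmeager.  If `B` misses `p[R]`, then `B ∩ Z = ∅`: for `z ∈ Z` with `H l z`
take a code `v` of `l` (`exists_isWO`), `(z, v) ∈ R`.  Otherwise there is a measurable `f` with
`(z, f z) ∈ R` on `B`; `f '' B` is analytic (`MeasurableSet.analyticSet_image` or
`(hB.analyticSet).image...`) and consists of codes, so by `bounding` there is `α : Om` with
`a ≤ α` whenever `IsWO (f z) a.1`, `z ∈ B`; hence `B ⊆ {z | ∃ l ≤ α, H l z}`, which is countable
(`Om.countable_Iic`, `hf`), so `B` is meager (countable union of singletons,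
`isMeagre_singleton`), a contradiction.
Now suppose `Z` is not meager.  Let `𝒪` be a countable basis of the topology and
`U = ⋃ {O ∈ 𝒪 | Z ∩ O meager}`; `Z ∩ U` is meager (countable union).  If the open set
`W = (closure U)ᶜ` is empty, then `Z ⊆ (Z ∩ U) ∪ (closure U \ U)` and the second set is closed
nowhere dense (frontier of an open set), so `Z` is meager, contradiction.  So `W` is nonempty open,
hence Borel nonmeager (Baire), and the claim gives a Borel nonmeager `B ⊆ W` with `B ∩ Z = ∅`;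
`B` is comeager in some nonempty `O ∈ 𝒪` with `O ⊆ W` (Baire property,
`MeasurableSet.residualEq_isOpen`; intersect with `W`), so `Z ∩ O ⊆ O \ B` is meager, so `O ⊆ U`,
contradicting `O ⊆ W`, `O` nonempty.
-/

namespace PU

open MeasureTheory Set

universe u

variable {X : Type u} [Rep X]

theorem PC.goodC {f : X → ℕ → Bool} (hf : PCF f) : PC (fun x => GoodC (f x)) :=
  PC.comp (S := fun y => GoodC y) (pc_of_measurableSet measurableSet_goodC) hf

theorem PC.mm {f g : X → ℕ → Bool} (hf : PCF f) (hg : PCF g) : PC (fun x => f x ∈ MM (g x)) :=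
  PC.comp (S := fun p : (ℕ → Bool) × (ℕ → Bool) => p.1 ∈ MM p.2)
    (pc_of_measurableSet measurableSet_mm) (PCF.mk hf hg)

/-- Every Borel nonmeager set contains a Borel nonmeager set disjoint from the range of a partial
function from the countable ordinals to the reals that is projective in the codes. -/
theorem small_aux (hU : ProjUnif meagIdeal) (H : Om → (ℕ → Bool) → Prop)
    (hH : PC (fun p : Om × (ℕ → Bool) => H p.1 p.2)) (hf : ∀ l z z', H l z → H l z' → z = z')
    (A : Set (ℕ → Bool)) (hA : MeasurableSet A) (hAm : ¬ IsMeagre A) :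
    ∃ B ⊆ A, MeasurableSet B ∧ ¬ IsMeagre B ∧ ∀ z ∈ B, ∀ l, ¬ H l z := by
  let R : Set ((ℕ → Bool) × (ℕ → Bool)) :=
    {p | ∃ l a : Om, H l p.1 ∧ IsWO p.2 a.1 ∧ l ≤ a}
  have hR : Projective R := by
    have h : PC (fun p : (ℕ → Bool) × (ℕ → Bool) => ∃ l a : Om, H l p.1 ∧ IsWO p.2 a.1 ∧ l ≤ a) := by
      refine PC.ex (PC.ex (PC.and ?_ (PC.and ?_ ?_)))
      · refine PC.comp (S := fun p : Om × (ℕ → Bool) => H p.1 p.2) hH (PCF.mk ?_ ?_)
        · exact PCF.snd (PCF.fst PCF.id)
        · exact PCF.fst (PCF.fst (PCF.fst PCF.id))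
      · exact PC.isWO (PCF.snd (PCF.fst (PCF.fst PCF.id))) (PCF.snd PCF.id)
      · exact PC.ole (PCF.snd (PCF.fst PCF.id)) (PCF.snd PCF.id)
    exact projective_of_pc h
  obtain ⟨B, hBA, hB, hBm, hor⟩ := hU R hR A hA fun h => hAm h.2
  have hBm' : ¬ IsMeagre B := fun h => hBm ⟨hB, h⟩
  refine ⟨B, hBA, hB, hBm', ?_⟩
  rcases hor with hor | ⟨f, hfm, hfR⟩
  · intro z hz l hl
    obtain ⟨v, hv⟩ := exists_isWO l.2
    exact hor z hz v ⟨l, l, hl, hv, le_rfl⟩
  · exfalso
    have han : AnalyticSet (f '' B) := hB.analyticSet_image hfm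
    obtain ⟨α, hα⟩ := bounding han (by
      rintro v ⟨z, hz, rfl⟩
      obtain ⟨l, a, -, h2, -⟩ := hfR z hz
      exact ⟨a.1, h2⟩)
    apply hBm'
    have hcount : B.Countable := by
      have h1 : ∀ l : Om, {z | H l z}.Countable := fun l => by
        have h2 : {z | H l z}.Subsingleton := fun z hz z' hz' => hf l z z' hz hz'
        exact h2.countable
      have h3 : (⋃ l ∈ {l : Om | l ≤ α}, {z | H l z}).Countable :=
        (Om.countable_Iic α).biUnion fun l _ => h1 l
      refine h3.mono ?_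
      intro z hz
      obtain ⟨l, a, h4, h5, h6⟩ := hfR z hz
      refine mem_biUnion (show l ∈ {l : Om | l ≤ α} from ?_) h4
      exact h6.trans (hα (f z) ⟨z, hz, rfl⟩ a.1 h5)
    have h7 : IsMeagre (⋃ z ∈ B, {z}) := isMeagre_biUnion hcount fun z _ => isMeagre_singleton z
    rwa [biUnion_of_singleton] at h7

/-- If projective uniformization holds up to meager sets, the range of a partial function from the
countable ordinals to the reals that is projective in the codes is meager. -/
theorem small_of_unif (hU : ProjUnif meagIdeal) (H : Om → (ℕ → Bool) → Prop)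
    (hH : PC (fun p : Om × (ℕ → Bool) => H p.1 p.2)) (hf : ∀ l z z', H l z → H l z' → z = z') :
    IsMeagre {z | ∃ l, H l z} := by
  by_contra hZ
  set Z : Set (ℕ → Bool) := {z | ∃ l, H l z} with hZdef
  let 𝒪 := TopologicalSpace.countableBasis (ℕ → Bool)
  have hbasis := TopologicalSpace.isBasis_countableBasis (ℕ → Bool)
  have h𝒪 : 𝒪.Countable := TopologicalSpace.countable_countableBasis (ℕ → Bool)
  let G : Set (Set (ℕ → Bool)) := {O | O ∈ 𝒪 ∧ IsMeagre (Z ∩ O)}
  have hGc : G.Countable := h𝒪.mono fun O hO => hO.1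
  let U : Set (ℕ → Bool) := ⋃ O ∈ G, O
  have hUo : IsOpen U := isOpen_biUnion fun O hO => hbasis.isOpen hO.1
  have hZU : IsMeagre (Z ∩ U) := by
    have h1 : IsMeagre (⋃ O ∈ G, Z ∩ O) := isMeagre_biUnion hGc fun O hO => hO.2
    refine IsMeagre.mono ?_ h1
    rintro z ⟨hz, hzU⟩
    obtain ⟨O, hO, hzO⟩ := mem_iUnion₂.1 hzU
    exact mem_iUnion₂.2 ⟨O, hO, hz, hzO⟩
  have hW : ((closure U)ᶜ).Nonempty := by
    by_contra hne
    rw [not_nonempty_iff_eq_empty] at hne
    apply hZ
    have h1 : IsMeagre (frontier U) := by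
      apply IsNowhereDense.isMeagre
      rw [isClosed_frontier.isNowhereDense_iff, ← frontier_compl]
      exact interior_frontier (isClosed_compl_iff.2 hUo)
    refine IsMeagre.mono ?_ (hZU.union h1)
    intro z hz
    by_cases hzU : z ∈ U
    · exact Or.inl ⟨hz, hzU⟩
    · refine Or.inr ?_
      have hzc : z ∈ closure U := by
        by_contra hcon
        have : z ∈ (closure U)ᶜ := hcon
        rw [hne] at this
        exact this
      rw [frontier, hUo.interior_eq]
      exact ⟨hzc, hzU⟩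
  have hWo : IsOpen (closure U)ᶜ := isClosed_closure.isOpen_compl
  obtain ⟨B, hBW, hB, hBm, hBZ⟩ := small_aux hU H hH hf (closure U)ᶜ hWo.measurableSet
    (not_isMeagre_of_isOpen hWo hW)
  have h2 : ¬ IsMeagre (B ∩ (closure U)ᶜ) := by
    rw [inter_eq_left.2 hBW]
    exact hBm
  obtain ⟨V, hVo, ⟨z, hz⟩, hVW, hVB⟩ := exists_open_cantor hB hWo h2
  obtain ⟨O, hO, hzO, hOV⟩ := hbasis.exists_subset_of_mem_open hz hVo
  have hOG : O ∈ G := by
    refine ⟨hO, IsMeagre.mono ?_ hVB⟩
    rintro z' ⟨⟨l, hl⟩, hz'O⟩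
    exact ⟨hOV hz'O, fun hz'B => hBZ z' hz'B l hl⟩
  have h3 : z ∈ U := mem_iUnion₂.2 ⟨O, hOG, hzO⟩
  exact hVW hz (subset_closure h3)

end PU
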