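import Pool.Agent.PU.TruA

/-!
PU TRUB: the decoding recursion recovers the coded sequence.

PROOFS.
`exists_codeOf`, `codeOf_unique`: `CodeOf u f v` prescribes all values `v (pair m n)`, and `Nat.pair`
is a bijection.
`keys_countable`: if `¬ Unb (Seq.mk' w a)` then `Gr` does not depend on `f`, so `Keys` has at most
one element.  Otherwise `Keys ⊆ ⋃_{f, W a f} {v | CodeOf _ f v}`, a countable union of subsingletons
(`hW.ctb`).
`keys_congr`: `Unb`, `Base`, `Gr`, `Adm`, `CodeOf` depend on the values of the sequence only through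
`bitc` and `qqc` (and the default value outside).
`next_unique`: from the two clauses: take `f` admissible and `v` with `CodeOf u f v`.
`sx_unique`: let `u`, `u'` be the two sequences, of length `a`.  By strong induction on `μ < a`
show `u.val μ = u'.val μ`: `u.restr μ = u'.restr μ` by `Seq.ext'`, and `next_unique`.  So
`u = u'` and again `next_unique`.
`sx_of_keys`: take `u = Seq.mk' w a`.  For `μ < a`, `u.restr μ = Seq.mk' w μ` (`Seq.ext'`) and
`u.val μ = w μ`.  So it is enough to show `Next W x (Seq.mk' w b) (w b)` for all `b ≤ a`.  There is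
an admissible `f`: if `¬ Unb (Seq.mk' w b)` any `f` (e.g. `default`); if `Unb (Seq.mk' w b)` then, by
`hw.bit`, the hypotheses of `hW.ne` hold for `b`.  And if `Adm W (Seq.mk' w b) f` and
`CodeOf (Seq.mk' w b) f v` then `v ∈ Keys W w b`, so `theta x v = w b` by hypothesis.
-/

namespace PU

open MeasureTheory Set

variable {W : Om → Seq Om → Prop} {E : Set Om} {l : Om → Om} {w : Om → ℕ → Bool}

theorem exists_codeOf (u : Seq (ℕ → Bool)) (f : Seq Om) : ∃ v, CodeOf u f v := by
  classical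
  refine ⟨fun k => decide (∃ η η', Gr u f k.unpair.1 η ∧ Gr u f k.unpair.2 η' ∧ η ≤ η'), ?_⟩
  intro m n
  simp [cd]

theorem codeOf_unique {u : Seq (ℕ → Bool)} {f : Seq Om} {v v' : ℕ → Bool} (h : CodeOf u f v)
    (h' : CodeOf u f v') : v = v' := by
  funext k
  have h1 := (h k.unpair.1 k.unpair.2).trans (h' k.unpair.1 k.unpair.2).symm
  unfold cd at h1
  rw [Nat.pair_unpair] at h1
  exact Bool.eq_iff_iff.2 h1

theorem keys_countable (hW : WitData W E) (a : Om) : (Keys W w a).Countable := by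
  by_cases hunb : Unb (Seq.mk' w a)
  · have h1 : (⋃ f ∈ {f | W a f}, {v | CodeOf (Seq.mk' w a) f v}).Countable := by
      refine (hW.ctb a).biUnion fun f _ => ?_
      have h2 : {v | CodeOf (Seq.mk' w a) f v}.Subsingleton := fun v hv v' hv' =>
        codeOf_unique hv hv'
      exact h2.countable
    refine h1.mono ?_
    rintro v ⟨f, hf, hv⟩
    exact mem_biUnion (show f ∈ {f | W a f} from hf.resolve_left (not_not.2 hunb)) hv
  · have h2 : (Keys W w a).Subsingleton := by
      rintro v ⟨f, -, hv⟩ v' ⟨f', -, hv'⟩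
      have h3 : ∀ n η, Gr (Seq.mk' w a) f n η ↔ Gr (Seq.mk' w a) f' n η := by
        intro n η
        unfold Gr
        simp [hunb]
      refine codeOf_unique (f := f') (fun m n => ?_) hv'
      rw [hv m n]
      simp only [h3]
    exact h2.countable

theorem mk'_congr_bit {w' : Om → ℕ → Bool} (h : ∀ ν, bitc (w ν) = bitc (w' ν)) (a ν : Om) :
    bitc ((Seq.mk' w a).val ν) = bitc ((Seq.mk' w' a).val ν) := by
  by_cases hν : ν < a
  · rw [Seq.mk'_val w hν, Seq.mk'_val w' hν, h]
  · rw [(Seq.mk' w a).out ν (not_lt.1 hν), (Seq.mk' w' a).out ν (not_lt.1 hν)]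

theorem mk'_congr_qq {w' : Om → ℕ → Bool} (h : ∀ ν, qqc (w ν) = qqc (w' ν)) (a ν : Om) :
    qqc ((Seq.mk' w a).val ν) = qqc ((Seq.mk' w' a).val ν) := by
  by_cases hν : ν < a
  · rw [Seq.mk'_val w hν, Seq.mk'_val w' hν, h]
  · rw [(Seq.mk' w a).out ν (not_lt.1 hν), (Seq.mk' w' a).out ν (not_lt.1 hν)]

theorem keys_congr {w' : Om → ℕ → Bool} (h : ∀ ν, bitc (w ν) = bitc (w' ν))
    (h' : ∀ ν, qqc (w ν) = qqc (w' ν)) (a : Om) : Keys W w a = Keys W w' a := by
  have h1 := mk'_congr_bit h a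
  have h2 := mk'_congr_qq h' a
  have hlen : (Seq.mk' w a).len = (Seq.mk' w' a).len := rfl
  have hU : Unb (Seq.mk' w a) ↔ Unb (Seq.mk' w' a) := by
    unfold Unb
    simp only [h1, hlen]
  have hB : ∀ σ, Base (Seq.mk' w a) σ ↔ Base (Seq.mk' w' a) σ := by
    intro σ
    unfold Base
    simp only [h1, hlen]
  have hG : ∀ f n η, Gr (Seq.mk' w a) f n η ↔ Gr (Seq.mk' w' a) f n η := by
    intro f n η
    unfold Gr
    simp only [hU, hB, h2, hlen]
  have hC : ∀ f v, CodeOf (Seq.mk' w a) f v ↔ CodeOf (Seq.mk' w' a) f v := by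
    intro f v
    unfold CodeOf
    simp only [hG]
  have hA : ∀ f, Adm W (Seq.mk' w a) f ↔ Adm W (Seq.mk' w' a) f := by
    intro f
    unfold Adm
    simp only [hU, hlen]
  unfold Keys
  simp only [hA, hC]

theorem next_unique {x : ℕ → Bool} {u : Seq (ℕ → Bool)} {y y' : ℕ → Bool} (h : Next W x u y)
    (h' : Next W x u y') : y = y' := by
  obtain ⟨⟨f, hf⟩, h1⟩ := h
  obtain ⟨v, hv⟩ := exists_codeOf u f
  rw [h1 f v hf hv, h'.2 f v hf hv]

theorem Seq.restr_len {Y : Type*} [Inhabited Y] (s : Seq Y) {μ : Om} (h : μ ≤ s.len) :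
    (s.restr μ).len = μ := min_eq_right h

theorem Seq.restr_val {Y : Type*} [Inhabited Y] (s : Seq Y) {μ α : Om} (h : μ ≤ s.len)
    (hα : α < μ) : (s.restr μ).val α = s.val α := by
  have h1 : α < min s.len μ := by rw [min_eq_right h]; exact hα
  exact if_pos h1

theorem sx_unique {x : ℕ → Bool} {a : Om} {y y' : ℕ → Bool} (h : Sx W x a y) (h' : Sx W x a y') :
    y = y' := by
  obtain ⟨u, hl, hd, hn⟩ := h
  obtain ⟨u', hl', hd', hn'⟩ := h'
  have key : ∀ μ : Om, μ < a → u.val μ = u'.val μ := by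
    intro μ
    induction μ using WellFoundedLT.induction with
    | ind μ ih =>
      intro hμ
      have h1 := hd μ (hl ▸ hμ)
      have h2 := hd' μ (hl' ▸ hμ)
      have hμ1 : μ ≤ u.len := by rw [hl]; exact hμ.le
      have hμ2 : μ ≤ u'.len := by rw [hl']; exact hμ.le
      have h3 : u.restr μ = u'.restr μ := by
        refine Seq.ext' ?_ fun α hα => ?_
        · rw [u.restr_len hμ1, u'.restr_len hμ2]
        · rw [u.restr_len hμ1] at hα
          rw [u.restr_val hμ1 hα, u'.restr_val hμ2 hα]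
          exact ih α hα (hα.trans hμ)
      rw [h3] at h1
      exact next_unique h1 h2
  have huu : u = u' := Seq.ext' (hl.trans hl'.symm) fun α hα => key α (hl ▸ hα)
  rw [huu] at hn
  exact next_unique hn hn'

theorem sx_of_keys (hw : TrueData E l w) (hW : WitData W E) {x : ℕ → Bool} {a : Om}
    (h : ∀ b, b ≤ a → ∀ v ∈ Keys W w b, theta x v = w b) : Sx W x a (w a) := by
  have hnext : ∀ b, b ≤ a → Next W x (Seq.mk' w b) (w b) := by
    intro b hb
    refine ⟨?_, fun f v hf hv => (h b hb v ⟨f, hf, hv⟩).symm⟩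
    by_cases hunb : Unb (Seq.mk' w b)
    · obtain ⟨h1, h2⟩ := hunb
      obtain ⟨f, hf⟩ := hW.ne b h1 fun c hc => by
        obtain ⟨ν, h3, h4, h5⟩ := h2 c hc
        refine ⟨ν, ?_, h3, h4⟩
        rw [Seq.mk'_val w (show ν < b from h4)] at h5
        exact (hw.bit ν).1 h5
      exact ⟨f, Or.inr hf⟩
    · exact ⟨default, Or.inl hunb⟩
  refine ⟨Seq.mk' w a, rfl, fun μ hμ => ?_, hnext a le_rfl⟩
  have hμ' : μ < a := hμ
  have h1 : (Seq.mk' w a).restr μ = Seq.mk' w μ := by
    refine Seq.ext' ?_ fun α hα => ?_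
    · rw [(Seq.mk' w a).restr_len hμ.le]
      rfl
    · rw [(Seq.mk' w a).restr_len hμ.le] at hα
      rw [(Seq.mk' w a).restr_val hμ.le hα, Seq.mk'_val w (hα.trans hμ'), Seq.mk'_val w hα]
  rw [h1, Seq.mk'_val w hμ']
  exact hnext μ hμ'.le

end PU
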