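import Pool.Agent.PU.Cond
import Pool.Agent.PU.Small
import Pool.Agent.PU.TruB

/-!
PU ABS: the abstract form of the theorem.

PROOF.  Suppose `ProjUnif I` for every `I` with `CCC I`.  For `ν : Om` let `l ν` be the least
`ε ∈ E` with `ν < ε` (`hE`), and let `q ν` be a code of `l ν` (`exists_isWO`).  For
`c : Om × ℕ → Bool` let `wv c ν : ℕ → Bool` be: at `0`, `decide (ν ∈ E)`; at `2 m + 1`, `c (ν, m)`; at
`2 m + 2`, `q ν m`.  So `TrueData E l (wv c)` for every `c` (`next`: the least element of `E` above `ν`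
is `l ν`), and `rrc (wv c ν) = fun m => c (ν, m)`.
Define `κ v n`, for `v` coding some ordinal `ν` (unique, in `Om` by `IsWO.lt_omega1`):
`n = 0 ↦ inl (decide (ν ∈ E))`, `n = 2 m + 1 ↦ inr (ν, m)`, `n = 2 m + 2 ↦ inl (q ν m)`; and
`inl false` if `v` codes no ordinal.  Then `bitv c (κ v n) = wv c ν n` if `IsWO v ν.1`.
The sets `Keys W (wv c) a` do not depend on `c` (`keys_congr`), call them `K a`; they are countable
and consist of codes of `a`.
(1) For every `a : Om` the set of `p : Pt κ` with `¬ Sx W p.x a (wv p.c a)` is meager: by `sx_of_keys`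
it is contained in the union over `b ≤ a` (countably many), `v ∈ K b` (countably many) and `n : ℕ`
of `{p | theta p.x v n ≠ bitv p.c (κ v n)}`, each meager by `isMeagre_theta_ne`
(`isMeagre_biUnion`, `isMeagre_iUnion`).
(2) Let `R = {(x, y) | GoodC y ∧ ∀ a y', Sx W x a y' → rrc y' ∈ MM y}`; it is projective
(`projective_of_pc`, `PC.goodC`, `PC.mm`, `PC.sx hW`, `PCF.rrc`).  For every `x` there is `y` with
`(x, y) ∈ R`: apply `small_of_unif` (with `meagIdeal_ccc`) to `H a z = ∃ y', Sx W x a y' ∧ rrc y' = z`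
(functional by `sx_unique`; `x` is a constant, `PCF.const`), then `cover_of_meagre`.
(3) Apply projective uniformization up to `adIdeal κ` (`adIdeal_ccc κ g hg` with `g` from
`exists_bit_inj`) to `R` and `A = univ` (`not_mem_adIdeal_univ`): there is a Borel `B` not in the
ideal; the first alternative would give `B = ∅`, which is in the ideal; so there is a measurable
`f` with `(x, f x) ∈ R` for `x ∈ B`.
(4) By `generic_not_small` there is `a` such that `{p | p.x ∈ B ∧ p.c (a, ·) ∉ MM (f p.x)}` is not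
meager.  But for `p` outside the meager set of (1), `Sx W p.x a (wv p.c a)`, so if `p.x ∈ B` then
`p.c (a, ·) = rrc (wv p.c a) ∈ MM (f p.x)`: this set is contained in the set of (1), a
contradiction.
-/

namespace PU

open MeasureTheory Set

theorem abstract_main {W : Om → Seq Om → Prop} (hW : PC (fun p : Om × Seq Om => W p.1 p.2))
    {E : Set Om} (hE : ∀ a, ∃ ε ∈ E, a < ε) (hWE : WitData W E) :
    ∃ I : SigmaIdeal (ℕ → Bool), CCC I ∧ ¬ ProjUnif I := by
  classical
  by_contra hcon
  have hall : ∀ I : SigmaIdeal (ℕ → Bool), CCC I → ProjUnif I := by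
    intro I hI
    by_contra h
    exact hcon ⟨I, hI, h⟩
  -- the next element of the club
  have hl : ∀ ν : Om, ∃ ε, (ε ∈ E ∧ ν < ε) ∧ ∀ ε', ε' ∈ E → ν < ε' → ε ≤ ε' := by
    intro ν
    obtain ⟨ε₀, h1, h2⟩ := hE ν
    have hne : {ε : Om | ε ∈ E ∧ ν < ε}.Nonempty := ⟨ε₀, h1, h2⟩
    refine ⟨WellFounded.min wellFounded_lt {ε : Om | ε ∈ E ∧ ν < ε} hne,
      WellFounded.min_mem wellFounded_lt _ hne, fun ε' h3 h4 => ?_⟩
    exact not_lt.1 (WellFounded.not_lt_min wellFounded_lt _ (show ε' ∈ {ε : Om | ε ∈ E ∧ ν < ε} from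
      ⟨h3, h4⟩))
  choose l hl1 hlmin using hl
  choose q hq using fun ν => exists_isWO (l ν).2
  let wv : (Om × ℕ → Bool) → Om → ℕ → Bool := fun c ν n =>
    if n = 0 then decide (ν ∈ E) else if n % 2 = 1 then c (ν, n / 2) else q ν (n / 2 - 1)
  have hwv0 : ∀ c ν, bitc (wv c ν) = decide (ν ∈ E) := fun c ν => by simp [bitc, wv]
  have hwv1 : ∀ c ν, rrc (wv c ν) = fun m => c (ν, m) := fun c ν => by
    funext m
    have h1 : (2 * m + 1) % 2 = 1 := by omega
    have h2 : (2 * m + 1) / 2 = m := by omega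
    simp [rrc, wv, h2]
  have hwv2 : ∀ c ν, qqc (wv c ν) = q ν := fun c ν => by
    funext m
    simp [qqc, wv]
  have htrue : ∀ c, TrueData E l (wv c) := fun c =>
    { bit := fun ν => by rw [hwv0]; simp
      code := fun ν => by rw [hwv2]; exact hq ν
      lt := fun ν => (hl1 ν).2
      next := fun ν a h => h _ (hl1 ν).1 (hl1 ν).2 }
  let κ : (ℕ → Bool) → ℕ → Bool ⊕ (Om × ℕ) := fun v n =>
    if h : ∃ ν : Om, IsWO v ν.1 then
      if n = 0 then Sum.inl (decide (h.choose ∈ E)) else
        if n % 2 = 1 then Sum.inr (h.choose, n / 2) else Sum.inl (q h.choose (n / 2 - 1))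
    else Sum.inl false
  have hκ : ∀ (v : ℕ → Bool) (ν : Om), IsWO v ν.1 → ∀ (c : Om × ℕ → Bool) (n : ℕ),
      bitv c (κ v n) = wv c ν n := by
    intro v ν hv c n
    have h : ∃ ν : Om, IsWO v ν.1 := ⟨ν, hv⟩
    have hch : h.choose = ν := Subtype.ext (h.choose_spec.unique hv)
    simp only [κ, dif_pos h, hch, wv]
    split_ifs <;> rfl
  let K : Om → Set (ℕ → Bool) := fun a => Keys W (wv fun _ => false) a
  have hK : ∀ c a, Keys W (wv c) a = K a := fun c a =>
    keys_congr (w' := wv fun _ => false) (fun ν => (hwv0 c ν).trans (hwv0 (fun _ => false) ν).symm)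
      (fun ν => (hwv2 c ν).trans (hwv2 (fun _ => false) ν).symm) a
  have hKwo : ∀ a, ∀ v ∈ K a, IsWO v a.1 := fun a v hv =>
    isWO_of_mem_keys (htrue fun _ => false) hWE hv
  -- (1) decoding is correct at generic points
  have h1 : ∀ a : Om, IsMeagre {p : Pt κ | ¬ Sx W p.x a (wv p.c a)} := by
    intro a
    have hm : IsMeagre (⋃ b ∈ {b : Om | b ≤ a}, ⋃ v ∈ K b, ⋃ n : ℕ,
        {p : Pt κ | theta p.x v n ≠ bitv p.c (κ v n)}) := by
      refine isMeagre_biUnion (Om.countable_Iic a) fun b _ => ?_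
      refine isMeagre_biUnion (keys_countable hWE b) fun v _ => ?_
      exact isMeagre_iUnion fun n => isMeagre_theta_ne v n
    refine hm.mono fun p hp => ?_
    by_contra hnot
    apply hp
    refine sx_of_keys (htrue p.c) hWE fun b hb v hv => ?_
    rw [hK] at hv
    funext n
    by_contra hne
    apply hnot
    refine mem_biUnion (show b ∈ {b : Om | b ≤ a} from hb) ?_
    refine mem_biUnion hv (mem_iUnion.2 ⟨n, ?_⟩)
    change theta p.x v n ≠ bitv p.c (κ v n)
    rw [hκ v b (hKwo b v hv)]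
    exact hne
  -- (2) the relation to be uniformized
  let R : Set ((ℕ → Bool) × (ℕ → Bool)) :=
    {z | GoodC z.2 ∧ ∀ (a : Om) (y' : ℕ → Bool), Sx W z.1 a y' → rrc y' ∈ MM z.2}
  have hR : Projective R := by
    have h : PC (fun z : (ℕ → Bool) × (ℕ → Bool) =>
        GoodC z.2 ∧ ∀ (a : Om) (y' : ℕ → Bool), Sx W z.1 a y' → rrc y' ∈ MM z.2) := by
      repeat' with_reducible first
        | assumption
        | apply PC.and
        | apply PC.all
        | apply PC.imp
        | apply PC.goodC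
        | apply PC.mm
        | apply PC.sx
        | apply PCF.rrc
        | apply PCF.fst
        | apply PCF.snd
        | apply PCF.id
    exact projective_of_pc h
  have h2 : ∀ x, ∃ y, (x, y) ∈ R := by
    intro x
    have hs := small_of_unif (hall _ meagIdeal_ccc) (fun a z => ∃ y', Sx W x a y' ∧ rrc y' = z)
      (by
        repeat' with_reducible first
          | assumption
          | apply PC.and
          | apply PC.ex
          | apply PC.eq
          | apply PC.sx
          | apply PCF.rrc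
          | apply PCF.fst
          | apply PCF.snd
          | apply PCF.id
          | apply PCF.const)
      (by
        rintro a z z' ⟨y, hy, rfl⟩ ⟨y', hy', rfl⟩
        rw [sx_unique hy hy'])
    obtain ⟨y, hy, hcov⟩ := cover_of_meagre hs
    exact ⟨y, hy, fun a y' hy' => hcov ⟨a, y', hy', rfl⟩⟩
  -- (3) uniformize
  obtain ⟨g, hg⟩ := exists_bit_inj
  obtain ⟨B, -, hB, hBpos, hor⟩ := hall (adIdeal κ) (adIdeal_ccc κ g hg) R hR Set.univ
    MeasurableSet.univ (not_mem_adIdeal_univ κ)
  have hBpos' : ¬ IsMeagre {p : Pt κ | p.x ∈ B} := fun h => hBpos ⟨hB, h⟩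
  rcases hor with hor | ⟨f, hf, hfR⟩
  · apply hBpos'
    have : {p : Pt κ | p.x ∈ B} = ∅ := by
      ext p
      simp only [mem_ofPred_eq, mem_empty_iff_false, iff_false]
      intro hp
      obtain ⟨y, hy⟩ := h2 p.x
      exact hor _ hp y hy
    rw [this]
    exact IsMeagre.empty
  -- (4) contradiction with genericity
  · obtain ⟨a, ha⟩ := generic_not_small κ B hB hBpos' f hf fun x hx => (hfR x hx).1
    apply ha
    refine (h1 a).mono ?_
    rintro p ⟨hpB, hp⟩ hS
    apply hp
    have := (hfR p.x hpB).2 a _ hS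
    rwa [hwv1] at this

end PU
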