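import Pool.Agent.PU.Om

/-!
PU BOUND: boundedness for analytic sets of codes (Sigma^1_1-bounding).

PROOF.  If `A` is empty take `α = default`.  Otherwise `A = range g` with `g : (ℕ → ℕ) → (ℕ → Bool)`
continuous (definition of `AnalyticSet`).  Consider the countable set `T` of pairs `(s, d)` of
lists of natural numbers of the same length `k` such that some `a : ℕ → ℕ` extends `s` (i.e.
`(List.range k).map a = s`) and, with `v = g a` and writing `m ≻ n` for `cd v n m ∧ ¬ cd v m n`,
`d 0 ≻ d 1 ≻ ... ≻ d (k-1)` and all `d i` are in the domain (`cd v (d i) (d i)`).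
Order `T` by strict extension: `(s', d') < (s, d)` if `s'`, `d'` extend `s`, `d` by one entry.
This relation is well-founded: an infinite branch gives `a, D : ℕ → ℕ` such that for all `k` there is
`a_k` agreeing with `a` below `k` and `D 0 ≻ ... ≻ D (k-1)` in `g a_k`; as `a_k → a` and `g` is
continuous, for each `i` the finitely many bits deciding `D i ≻ D (i+1)` agree in `g a_k` and `g a`
for large `k`, so `D i ≻ D (i+1)` in `g a` for all `i`, contradicting that `g a` codes an ordinal
(`Codes`: the ranks would strictly decrease).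
Let `rk` be the rank function of this well-founded relation on the countable type `T` (ranks are
ordinals in `Ordinal.{0}`), and let `α₀` be a countable ordinal above all ranks (`Om.bdd`; a rank
of an element of a countable well-founded relation is `< ω₁`: e.g. the set of ranks is an initial
segment of the ordinals (`IsWellFounded.mem_range_rank_of_le` or similar) and is countable).
Claim: if `v = g a` codes `l` via `e` then `l ≤ α₀`, because for a descending sequence `d` of
length `k` with last entry `n`, `e n ≤ rk (a|k, d)` (induction on `e n`: if `β < e n` there is `m` in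
the domain with `e m = β`, so `n ≻ m` and `(a|(k+1), d ++ [m])` is in `T`, below `(a|k, d)`, and
`β = e m ≤ rk (a|(k+1), d ++ [m]) < rk (a|k, d)`).  Hence every `β < l` is `e n` for some `n`, and
`β = e n ≤ rk (a|1, [n]) < α₀`.
-/

namespace PU

open MeasureTheory Set Filter Topology

namespace BoundAux

/-- dependent choice for sequences -/
theorem exists_branch {X : Type} (P : ℕ → (ℕ → X) → Prop)
    (hcongr : ∀ k p q, (∀ i < k, p i = q i) → P k p → P k q) (h0 : ∃ p, P 0 p)
    (hstep : ∀ k p, P k p → ∃ x, P (k + 1) (Function.update p k x)) : ∃ q, ∀ k, P k q := by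
  classical
  choose nx hnx using hstep
  obtain ⟨p0, hp0⟩ := h0
  let F : ∀ k : ℕ, {p : ℕ → X // P k p} := fun k =>
    Nat.rec (motive := fun k => {p : ℕ → X // P k p}) ⟨p0, hp0⟩
      (fun k p => ⟨Function.update p.1 k (nx k p.1 p.2), hnx k p.1 p.2⟩) k
  have hF : ∀ k, (F (k + 1)).1 = Function.update (F k).1 k (nx k (F k).1 (F k).2) := fun k => rfl
  refine ⟨fun i => (F (i + 1)).1 i, fun k => hcongr k _ _ ?_ (F k).2⟩
  induction k with
  | zero => intro i hi; omega
  | succ k ih =>
    intro i hi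
    by_cases hik : i = k
    · rw [hik]
    · rw [hF k, Function.update_of_ne hik]
      exact ih i (by omega)

/-- the ordinal that is still to be decreased -/
noncomputable def top (k : ℕ) (e : ℕ → Ordinal.{0}) (l : Ordinal.{0}) (p : ℕ → ℕ × ℕ) :
    Ordinal.{0} := if k = 0 then l else e (p (k - 1)).2

/-- stage `k` of the construction -/
def Stg (g : (ℕ → ℕ) → (ℕ → Bool)) (k : ℕ) (p : ℕ → ℕ × ℕ) : Prop :=
  ∀ α : Om, ∃ (a : ℕ → ℕ) (e : ℕ → Ordinal.{0}) (l : Ordinal.{0}), (∀ i < k, a i = (p i).1) ∧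
    Codes (g a) e l ∧ (∀ i < k, cd (g a) (p i).2 (p i).2) ∧
    (∀ i, i + 1 < k → e (p (i + 1)).2 < e (p i).2) ∧ α.1 < top k e l p

theorem Stg.congr {g : (ℕ → ℕ) → (ℕ → Bool)} (k : ℕ) (p q : ℕ → ℕ × ℕ)
    (h : ∀ i < k, p i = q i) (hp : Stg g k p) : Stg g k q := by
  intro α
  obtain ⟨a, e, l, h1, h2, h3, h4, h5⟩ := hp α
  refine ⟨a, e, l, fun i hi => ?_, h2, fun i hi => ?_, fun i hi => ?_, ?_⟩
  · rw [h1 i hi, h i hi]
  · rw [← h i hi]; exact h3 i hi
  · rw [← h i (by omega), ← h (i + 1) hi]; exact h4 i hi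
  · unfold top at h5 ⊢
    split_ifs at h5 ⊢ with hk
    · exact h5
    · rw [← h (k - 1) (by omega)]; exact h5

theorem Stg.step {g : (ℕ → ℕ) → (ℕ → Bool)} (k : ℕ) (p : ℕ → ℕ × ℕ) (hp : Stg g k p) :
    ∃ x, Stg g (k + 1) (Function.update p k x) := by
  by_contra hcon
  push Not at hcon
  unfold Stg at hcon
  push Not at hcon
  choose β hβ using hcon
  obtain ⟨α, hα⟩ := Om.bdd (Set.countable_range β)
  obtain ⟨a, e, l, h1, h2, h3, h4, h5⟩ := hp α
  have htop : top k e l p ≤ l := by
    unfold top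
    split_ifs with hk
    · exact le_rfl
    · exact (h2.2.1 _ (h3 (k - 1) (by omega))).le
  obtain ⟨m, hm, hem⟩ := h2.2.2 α.1 (h5.trans_le htop)
  have hlt := hα (β (a k, m)) ⟨_, rfl⟩
  have hlt' : (β (a k, m)).1 < α.1 := hlt
  have hu : ∀ i, i < k → Function.update p k (a k, m) i = p i := fun i hi =>
    Function.update_of_ne (by omega) _ _
  have huk : Function.update p k (a k, m) k = (a k, m) := Function.update_self _ _ _
  refine absurd ?_ (not_lt.2 (hβ (a k, m) a e l ?_ h2 ?_ ?_))
  · unfold top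
    rw [if_neg (by omega), Nat.add_sub_cancel, huk]
    show (β (a k, m)).1 < e m
    rw [hem]
    exact hlt'
  · intro i hi
    rcases Nat.lt_succ_iff_lt_or_eq.1 hi with h | h
    · rw [hu i h]; exact h1 i h
    · rw [h, huk]
  · intro i hi
    rcases Nat.lt_succ_iff_lt_or_eq.1 hi with h | h
    · rw [hu i h]; exact h3 i h
    · rw [h, huk]; exact hm
  · intro i hi
    rcases Nat.lt_succ_iff_lt_or_eq.1 hi with h | h
    · rw [hu i (by omega), hu (i + 1) h]; exact h4 i h
    · subst h
      rw [hu i (by omega), huk]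
      show e m < e (p i).2
      unfold top at h5
      rw [if_neg (by omega), Nat.add_sub_cancel] at h5
      rw [hem]
      exact h5

theorem no_branch {g : (ℕ → ℕ) → (ℕ → Bool)} (hg : Continuous g)
    (hcode : ∀ a, ∃ l, IsWO (g a) l) (q : ℕ → ℕ × ℕ) (h : ∀ k, Stg g k q) : False := by
  choose b e l h1 h2 h3 h4 h5 using fun k => h k default
  set c : ℕ → ℕ := fun i => (q i).1 with hc
  have hlim : Tendsto b atTop (𝓝 c) := by
    rw [tendsto_pi_nhds]
    intro i
    refine tendsto_const_nhds.congr' ?_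
    filter_upwards [eventually_ge_atTop (i + 1)] with k hk
    exact (h1 k i (by omega)).symm
  have hbit : ∀ n, ∀ᶠ k in atTop, g (b k) n = g c n := by
    intro n
    have h6 : Tendsto (fun k => g (b k) n) atTop (𝓝 (g c n)) :=
      (((continuous_apply n).comp hg).tendsto c).comp hlim
    rw [nhds_discrete, tendsto_pure] at h6
    exact h6
  obtain ⟨l', e', hcd⟩ := hcode c
  have hdec : ∀ i, e' (q (i + 1)).2 < e' (q i).2 := by
    intro i
    obtain ⟨k, hk1, hk2, hk3, hk4⟩ := ((hbit (Nat.pair (q i).2 (q i).2)).and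
      ((hbit (Nat.pair (q (i + 1)).2 (q (i + 1)).2)).and
      ((hbit (Nat.pair (q i).2 (q (i + 1)).2)).and (eventually_ge_atTop (i + 2))))).exists
    have a1 : cd (g c) (q i).2 (q i).2 := by
      unfold cd; rw [← hk1]; exact h3 k i (by omega)
    have a2 : cd (g c) (q (i + 1)).2 (q (i + 1)).2 := by
      unfold cd; rw [← hk2]; exact h3 k (i + 1) (by omega)
    have a3 : ¬ cd (g c) (q i).2 (q (i + 1)).2 := by
      unfold cd; rw [← hk3]
      intro h6
      have h7 := (((h2 k).1 _ _).1 h6).2.2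
      exact absurd (h4 k i (by omega)) (not_lt.2 h7)
    by_contra h6
    exact a3 ((hcd.1 _ _).2 ⟨a1, a2, not_lt.1 h6⟩)
  obtain ⟨x, ⟨i, hi⟩, hmin⟩ := WellFounded.has_min (wellFounded_lt (α := Ordinal.{0}))
    (Set.range fun i => e' (q i).2) ⟨_, 0, rfl⟩
  refine hmin (e' (q (i + 1)).2) ⟨i + 1, rfl⟩ ?_
  rw [← hi]
  exact hdec i

end BoundAux

open BoundAux

theorem bounding {A : Set (ℕ → Bool)} (hA : AnalyticSet A) (h : ∀ v ∈ A, ∃ l, IsWO v l) :
    ∃ α : Om, ∀ v ∈ A, ∀ l : Ordinal.{0}, IsWO v l → l ≤ α.1 := by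
  by_contra hcon
  push Not at hcon
  rw [AnalyticSet] at hA
  rcases hA with hA | ⟨g, hg, hr⟩
  · obtain ⟨v, hv, _⟩ := hcon default
    rw [hA] at hv
    exact hv
  · have hcode : ∀ a, ∃ l, IsWO (g a) l := fun a => h (g a) (hr ▸ ⟨a, rfl⟩)
    obtain ⟨q, hq⟩ := exists_branch (Stg g) Stg.congr ⟨fun _ => (0, 0), by
      intro α
      obtain ⟨v, hv, l, ⟨e, he⟩, hl⟩ := hcon α
      rw [← hr] at hv
      obtain ⟨a, rfl⟩ := hv
      refine ⟨a, e, l, fun i hi => absurd hi (Nat.not_lt_zero i), he,
        fun i hi => absurd hi (Nat.not_lt_zero i), fun i hi => absurd hi (Nat.not_lt_zero _), ?_⟩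
      unfold top
      rw [if_pos rfl]
      exact hl⟩ Stg.step
    exact no_branch hg hcode q hq

end PU
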