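import Pool.Agent.PU.Rep

/-!
PU CODE: coding of countable ordinals by elements of Cantor space.
(`isWO_iff` is in the module CODEB.)

PROOFS.
`Codes.unique`: prove by strong induction on `e n` that `e n = e' n` for `cd v n n`: if
`e n < e' n` then, as `e n < e' n < l'`, some `m` in the domain has `e' m = e n < e' n`, so not
`cd v n m`, so `e m < e n`, by induction `e m = e' m = e n`, contradiction; if `e' n < e n` some `m`
has `e m = e' n < e n`, by induction `e' m = e m = e' n`, so `cd v n m`, so `e n ≤ e m`,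
contradiction.  Then `l ≤ l'` since every `α < l` is `e n = e' n < l'`, and symmetrically.

`IsWO.lt_omega1`: the map `n ↦ e n` from `{n | cd v n n}` is onto `Iio l`, so `Iio l` is countable,
so `l.card ≤ ℵ₀`, so `l < ω₁` (`Ordinal.omega 1`, `Ordinal.card_lt_aleph0...`,
`Cardinal.lt_ord`, `Ordinal.omega_eq...`).

`exists_isWO`: `l < ω₁` so `Iio l` is countable; take an injection `ι : Iio l → ℕ`, domain
`D = range ι`, `e (ι α) = α` and `v (pair m n) = decide (D m ∧ D n ∧ e m ≤ e n)`; use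
`codes_of_enum` (`Nat.unpair_pair`).

`IsWO.le_iff`: (→) choose `f m` in the domain of `v'` with `e' (f m) = e m` (possible since
`e m < l ≤ l'`).  (←) given `f`, for `α < l` choose `m` with `e m = α` and put `g α = e' (f m)`;
`g` is strictly increasing with values `< l'`, so `α ≤ g α < l'` for all `α < l` (well-founded
induction), so `l ≤ l'`.

`Codes.segc`: same `e`; `cd (segc v n) i j ↔ cd v i j ∧ ¬ cd v n i ∧ ¬ cd v n j`
(`Nat.unpair_pair`); use `codes_of_enum` with `D i ↔ cd v i i ∧ e i < e n`.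
-/

namespace PU

open MeasureTheory Set

/-- The binary relation on `ℕ` coded by `v`. -/
def cd (v : ℕ → Bool) (m n : ℕ) : Prop := v (Nat.pair m n) = true

/-- `v` codes the ordinal `l`, via the map `e` (only the values `e n` with `cd v n n` matter). -/
def Codes (v : ℕ → Bool) (e : ℕ → Ordinal.{0}) (l : Ordinal.{0}) : Prop :=
  (∀ m n, cd v m n ↔ cd v m m ∧ cd v n n ∧ e m ≤ e n) ∧ (∀ n, cd v n n → e n < l) ∧
    ∀ α < l, ∃ n, cd v n n ∧ e n = α

/-- `v` codes the ordinal `l`. -/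
def IsWO (v : ℕ → Bool) (l : Ordinal.{0}) : Prop := ∃ e, Codes v e l

theorem Codes.unique {v : ℕ → Bool} {e e' : ℕ → Ordinal.{0}} {l l' : Ordinal.{0}}
    (h : Codes v e l) (h' : Codes v e' l') : l = l' ∧ ∀ n, cd v n n → e n = e' n := by
  have key : ∀ α : Ordinal.{0}, ∀ n, cd v n n → e n = α → e' n = α := by
    intro α
    induction α using WellFoundedLT.induction with
    | ind α ih =>
      intro n hn hen
      rcases lt_trichotomy (e' n) α with hlt | heq | hgt
      · -- some `m` has `e m = e' n < e n`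
        obtain ⟨m, hm, hem⟩ := h.2.2 (e' n) (hlt.trans (hen ▸ h.2.1 n hn))
        have h1 := ih (e' n) hlt m hm hem
        have h2 : cd v n m := (h'.1 n m).2 ⟨hn, hm, h1.ge⟩
        have h3 := ((h.1 n m).1 h2).2.2
        rw [hen, hem] at h3
        exact absurd hlt (not_lt.2 h3)
      · exact heq
      · obtain ⟨m, hm, hem⟩ := h'.2.2 α (hgt.trans (h'.2.1 n hn))
        have h2 : ¬ cd v n m := fun hc => by
          have h3 := ((h'.1 n m).1 hc).2.2
          rw [hem] at h3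
          exact absurd hgt (not_lt.2 h3)
        have h4 : e m < α := by
          by_contra hcon
          exact h2 ((h.1 n m).2 ⟨hn, hm, by rw [hen]; exact not_lt.1 hcon⟩)
        have h5 := ih (e m) h4 m hm rfl
        rw [hem] at h5
        exact absurd h4 (by rw [← h5]; exact lt_irrefl _)
  have hk : ∀ n, cd v n n → e n = e' n := fun n hn => (key (e n) n hn rfl).symm
  refine ⟨le_antisymm ?_ ?_, hk⟩
  · by_contra hcon
    obtain ⟨n, hn, hen⟩ := h.2.2 l' (not_le.1 hcon)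
    have := h'.2.1 n hn
    rw [← hk n hn, hen] at this
    exact lt_irrefl _ this
  · by_contra hcon
    obtain ⟨n, hn, hen⟩ := h'.2.2 l (not_le.1 hcon)
    have := h.2.1 n hn
    rw [hk n hn, hen] at this
    exact lt_irrefl _ this

theorem IsWO.unique {v : ℕ → Bool} {l l' : Ordinal.{0}} (h : IsWO v l) (h' : IsWO v l') :
    l = l' := by
  obtain ⟨e, h⟩ := h
  obtain ⟨e', h'⟩ := h'
  exact (h.unique h').1

theorem lt_omega1_iff' {o : Ordinal.{0}} : o < Ordinal.omega 1 ↔ (Iio o).Countable := by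
  rw [Cardinal.lt_omega_iff_card_lt, ← Cardinal.le_aleph0_iff_set_countable,
    Cardinal.mk_Iio_ordinal, ← Cardinal.lift_aleph0.{1, 0}, Cardinal.lift_le]
  rw [← Cardinal.succ_aleph0, Order.lt_succ_iff]

theorem IsWO.lt_omega1 {v : ℕ → Bool} {l : Ordinal.{0}} (h : IsWO v l) :
    l < Ordinal.omega 1 := by
  obtain ⟨e, h⟩ := h
  rw [lt_omega1_iff']
  refine (countable_range e).mono fun α hα => ?_
  obtain ⟨n, -, hn⟩ := h.2.2 α hα
  exact ⟨n, hn⟩

/-- A partial enumeration of `l` gives a code. -/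
theorem codes_of_enum (D : ℕ → Prop) (e : ℕ → Ordinal.{0}) (l : Ordinal.{0}) (v : ℕ → Bool)
    (h1 : ∀ n, D n → e n < l) (h2 : ∀ α < l, ∃ n, D n ∧ e n = α)
    (hv : ∀ m n, cd v m n ↔ D m ∧ D n ∧ e m ≤ e n) : Codes v e l := by
  have hD : ∀ n, cd v n n ↔ D n := fun n => by rw [hv]; simp
  refine ⟨fun m n => by rw [hv, hD, hD], fun n hn => h1 n ((hD n).1 hn), fun α hα => ?_⟩
  obtain ⟨n, hn, he⟩ := h2 α hα
  exact ⟨n, (hD n).2 hn, he⟩

theorem exists_isWO {l : Ordinal.{0}} (h : l < Ordinal.omega 1) : ∃ v, IsWO v l := by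
  classical
  rw [lt_omega1_iff'] at h
  have : Countable (Iio l) := h
  obtain ⟨ι, hι⟩ := Countable.exists_injective_nat (Iio l)
  let D : ℕ → Prop := fun n => ∃ α : Iio l, ι α = n
  let e : ℕ → Ordinal.{0} := fun n => if h : D n then h.choose.1 else 0
  have he : ∀ α : Iio l, e (ι α) = α.1 := by
    intro α
    have hD : D (ι α) := ⟨α, rfl⟩
    have : hD.choose = α := hι hD.choose_spec
    simp only [e, dif_pos hD, this]
  refine ⟨fun k => decide (D k.unpair.1 ∧ D k.unpair.2 ∧ e k.unpair.1 ≤ e k.unpair.2), e,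
    codes_of_enum D e l _ ?_ ?_ ?_⟩
  · rintro n ⟨α, rfl⟩
    rw [he]
    exact α.2
  · intro α hα
    exact ⟨ι ⟨α, hα⟩, ⟨⟨α, hα⟩, rfl⟩, he ⟨α, hα⟩⟩
  · intro m n
    simp [cd]

theorem IsWO.le_iff {v v' : ℕ → Bool} {l l' : Ordinal.{0}} (h : IsWO v l) (h' : IsWO v' l') :
    l ≤ l' ↔ ∃ f : ℕ → ℕ, ∀ m n, cd v m m → cd v n n → (cd v m n ↔ cd v' (f m) (f n)) := by
  obtain ⟨e, h⟩ := h
  obtain ⟨e', h'⟩ := h'
  constructor
  · intro hle
    have h1 : ∀ m, ∃ k, cd v m m → cd v' k k ∧ e' k = e m := by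
      intro m
      by_cases hm : cd v m m
      · obtain ⟨k, hk⟩ := h'.2.2 (e m) ((h.2.1 m hm).trans_le hle)
        exact ⟨k, fun _ => hk⟩
      · exact ⟨0, fun h => absurd h hm⟩
    choose f hf using h1
    refine ⟨f, fun m n hm hn => ?_⟩
    rw [h.1 m n, h'.1 (f m) (f n), (hf m hm).2, (hf n hn).2]
    exact ⟨fun h => ⟨(hf m hm).1, (hf n hn).1, h.2.2⟩, fun h => ⟨hm, hn, h.2.2⟩⟩
  · rintro ⟨f, hf⟩
    have hdom : ∀ m, cd v m m → cd v' (f m) (f m) := fun m hm => (hf m m hm hm).1 hm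
    have key : ∀ α : Ordinal.{0}, ∀ m, cd v m m → e m = α → α ≤ e' (f m) := by
      intro α
      induction α using WellFoundedLT.induction with
      | ind α ih =>
        intro m hm hem
        by_contra hcon
        have hcon := not_le.1 hcon
        obtain ⟨k, hk, hek⟩ := h.2.2 (e' (f m)) (hcon.trans (hem ▸ h.2.1 m hm))
        have h1 := ih _ hcon k hk hek
        have h2 : cd v' (f m) (f k) := (h'.1 _ _).2 ⟨hdom m hm, hdom k hk, h1⟩
        have h3 := (hf m k hm hk).2 h2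
        have h4 := ((h.1 m k).1 h3).2.2
        rw [hem, hek] at h4
        exact absurd hcon (not_lt.2 h4)
    by_contra hcon
    obtain ⟨m, hm, hem⟩ := h.2.2 l' (not_le.1 hcon)
    have h1 := key l' m hm hem
    exact absurd (h'.2.1 _ (hdom m hm)) (not_lt.2 h1)

/-- The code of the initial segment of `v` below `n`. -/
def segc (v : ℕ → Bool) (n : ℕ) : ℕ → Bool := fun k =>
  v k && !(v (Nat.pair n k.unpair.1)) && !(v (Nat.pair n k.unpair.2))

theorem Codes.segc {v : ℕ → Bool} {e : ℕ → Ordinal.{0}} {l : Ordinal.{0}} (h : Codes v e l)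
    {n : ℕ} (hn : cd v n n) : IsWO (PU.segc v n) (e n) := by
  have h1 : ∀ i j, cd (PU.segc v n) i j ↔ cd v i j ∧ ¬ cd v n i ∧ ¬ cd v n j := by
    intro i j
    simp [cd, PU.segc, and_assoc]
  have h2 : ∀ i, cd v i i → (¬ cd v n i ↔ e i < e n) := by
    intro i hi
    rw [h.1 n i, ← not_le]
    exact ⟨fun h hle => h ⟨hn, hi, hle⟩, fun h hc => h hc.2.2⟩
  refine ⟨e, codes_of_enum (fun i => cd v i i ∧ e i < e n) e (e n) _ (fun i hi => hi.2) ?_ ?_⟩
  · intro α hα
    obtain ⟨i, hi, hei⟩ := h.2.2 α (hα.trans (h.2.1 n hn))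
    exact ⟨i, ⟨hi, hei ▸ hα⟩, hei⟩
  · intro i j
    rw [h1, h.1 i j]
    constructor
    · rintro ⟨⟨hi, hj, hij⟩, h3, h4⟩
      exact ⟨⟨hi, (h2 i hi).1 h3⟩, ⟨hj, (h2 j hj).1 h4⟩, hij⟩
    · rintro ⟨⟨hi, h3⟩, ⟨hj, h4⟩, hij⟩
      exact ⟨⟨hi, hj, hij⟩, (h2 i hi).2 h3, (h2 j hj).2 h4⟩

end PU
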