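import Pool.Agent.PU.Code

/-!
PU CODEB: first-order description of the codes of ordinals.

PROOF.  (→) `cd v m n ↔ cd v m m ∧ cd v n n ∧ e m ≤ e n`, so the first three properties are clear,
and an infinite strictly descending sequence `s` would give `e (s (i+1)) < e (s i)` for all `i`,
impossible in a well-order (e.g. `RelEmbedding.natGT`/`WellFounded.has_min` on the range, or
`Function.not_strictAnti_of_wellFoundedLT`).
(←) Let `S = {n // cd v n n}` and `m ≺ n` iff `cd v m n ∧ ¬ cd v n m`.  By the last condition `≺`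
is well-founded on `S` (`RelEmbedding.wellFounded_iff_isEmpty` or `wellFounded_iff_isEmpty_descending_chain`).
Let `e n` be the rank (`IsWellFounded.rank` / `WellFounded.rank`, an `Ordinal.{0}`).  Then for
`m n : S`, `m ≺ n → e m < e n`; if `cd v m n ∧ cd v n m` they have the same predecessors (by
transitivity and totality), so the same rank; hence `cd v m n ↔ e m ≤ e n` (totality).  The set of
ranks is an initial segment of the ordinals (rank `e n` is the least ordinal bigger than all `e m`,
`m ≺ n`; strong induction: if `α < e n` there is `m ≺ n` with `α ≤ e m`, and go down; see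
`IsWellFounded.mem_range_rank_of_le` or similar); let `l` be its supremum of successors, i.e.
`l = sInf {α | ∀ n, e n < α}` (the set is nonempty, `S` being small).  Extend `e` by `0` outside
the domain and apply the definition of `Codes`.
-/

namespace PU

open MeasureTheory Set

/-- First-order description of the codes of ordinals. -/
theorem isWO_iff (v : ℕ → Bool) : (∃ l, IsWO v l) ↔
    (∀ m n, cd v m n → cd v m m ∧ cd v n n) ∧ (∀ m n k, cd v m n → cd v n k → cd v m k) ∧
    (∀ m n, cd v m m → cd v n n → cd v m n ∨ cd v n m) ∧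
    ∀ s : ℕ → ℕ, ∃ i, ¬ (cd v (s (i + 1)) (s i) ∧ ¬ cd v (s i) (s (i + 1))) := by
  constructor
  · rintro ⟨l, e, h⟩
    refine ⟨fun m n hmn => ?_, fun m n k h1 h2 => ?_, fun m n hm hn => ?_, fun s => ?_⟩
    · have := (h.1 m n).1 hmn
      exact ⟨this.1, this.2.1⟩
    · have h1 := (h.1 m n).1 h1
      have h2 := (h.1 n k).1 h2
      exact (h.1 m k).2 ⟨h1.1, h2.2.1, h1.2.2.trans h2.2.2⟩
    · rcases le_total (e m) (e n) with h1 | h1
      · exact Or.inl ((h.1 m n).2 ⟨hm, hn, h1⟩)
      · exact Or.inr ((h.1 n m).2 ⟨hn, hm, h1⟩)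
    · by_contra hcon
      push Not at hcon
      have hs : StrictAnti (fun i => e (s i)) := by
        refine strictAnti_nat_of_succ_lt fun i => ?_
        obtain ⟨h1, h2⟩ := hcon i
        have h3 := (h.1 _ _).1 h1
        by_contra h4
        exact h2 ((h.1 _ _).2 ⟨h3.2.1, h3.1, not_lt.1 h4⟩)
      exact not_strictAnti_of_wellFoundedLT _ hs
  · rintro ⟨h1, h2, h3, h4⟩
    classical
    let S := {n : ℕ // cd v n n}
    let r : S → S → Prop := fun m n => cd v m.1 n.1 ∧ ¬ cd v n.1 m.1
    have hwf : WellFounded r := by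
      rw [wellFounded_iff_isEmpty_descending_chain]
      refine ⟨?_⟩
      rintro ⟨f, hf⟩
      obtain ⟨i, hi⟩ := h4 (fun i => (f i).1)
      exact hi (hf i)
    have : IsWellFounded S r := ⟨hwf⟩
    have hr : ∀ m n : S, cd v m.1 n.1 ↔ IsWellFounded.rank r m ≤ IsWellFounded.rank r n := by
      intro m n
      constructor
      · intro hmn
        by_cases hnm : cd v n.1 m.1
        · -- same predecessors
          rw [IsWellFounded.rank_eq r m, IsWellFounded.rank_eq r n]
          refine Ordinal.iSup_le fun b => ?_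
          have hb : r b.1 n := ⟨h2 _ _ _ b.2.1 hmn, fun hc => b.2.2 (h2 _ _ _ hmn hc)⟩
          exact Ordinal.le_iSup (fun b : {b // r b n} => Order.succ (IsWellFounded.rank r b.1))
            ⟨b.1, hb⟩
        · exact (IsWellFounded.rank_lt_of_rel (r := r) ⟨hmn, hnm⟩).le
      · intro hle
        rcases h3 m.1 n.1 m.2 n.2 with h | h
        · exact h
        · by_contra hmn
          exact absurd (IsWellFounded.rank_lt_of_rel (r := r) (a := n) (b := m) ⟨h, hmn⟩)
            (not_lt.2 hle)
    let e : ℕ → Ordinal.{0} := fun n => if hn : cd v n n then IsWellFounded.rank r ⟨n, hn⟩ else 0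
    have he : ∀ n (hn : cd v n n), e n = IsWellFounded.rank r ⟨n, hn⟩ := fun n hn => dif_pos hn
    let l : Ordinal.{0} := ⨆ n : S, Order.succ (e n.1)
    refine ⟨l, e, fun m n => ?_, fun n hn => ?_, fun α hα => ?_⟩
    · constructor
      · intro h
        obtain ⟨hm, hn⟩ := h1 m n h
        refine ⟨hm, hn, ?_⟩
        rw [he m hm, he n hn]
        exact (hr ⟨m, hm⟩ ⟨n, hn⟩).1 h
      · rintro ⟨hm, hn, hle⟩
        rw [he m hm, he n hn] at hle
        exact (hr ⟨m, hm⟩ ⟨n, hn⟩).2 hle
    · exact (Order.lt_succ (e n)).trans_le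
        (Ordinal.le_iSup (fun n : S => Order.succ (e n.1)) ⟨n, hn⟩)
    · obtain ⟨n, hn⟩ := Ordinal.lt_iSup_iff.1 hα
      have h5 : α ≤ IsWellFounded.rank r n := by
        rw [← he n.1 n.2]
        exact Order.lt_succ_iff.1 hn
      obtain ⟨m, hm⟩ := IsWellFounded.mem_range_rank_of_le h5
      exact ⟨m.1, m.2, (he m.1 m.2).trans hm⟩

end PU
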