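import Pool.Agent.PU.CodeB

/-!
PU OM: the represented type of countable ordinals.

PROOFS.
Countability facts: `α < ω₁` iff `Iio α` is countable (`Ordinal.omega 1` is the initial ordinal of
`ℵ₁`; see e.g. `Ordinal.card_lt...`, `Cardinal.lt_ord`, `Cardinal.countable_iff_lt_aleph_one`,
`Cardinal.mk_Iio_ordinal`).  `Om.bdd`: the supremum of countably many countable ordinals is
countable (e.g. `Ordinal.iSup_lt_of_lt_cof...`, `Ordinal.lsub_lt_ord`, or a countable union of
countable initial segments; if no strict upper bound exists in `Om`, then `Om` is the union of the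
countable sets `Iic β`, `β ∈ S`, contradicting `Om.uncountable`).
`projective_isWO`: by `isWO_iff`; work in the calculus of `Rep.lean` for the standard type
`ℕ → Bool` (`projective_of_pc`, then `repeat' with_reducible first | apply PC.and | apply PC.all |
...`, see `Dec.lean` for the pattern; quantifiers over `ℕ` and `ℕ → ℕ`, atomic formulas by
`PC.bool (PCF.eval ..)`, `PCF.nat2`).  `projective_isWO_le`: intersect with `IsWO.le_iff` (the
predicate is `(∃ l, IsWO p.1 l) ∧ (∃ l, IsWO p.2 l) ∧ ∃ f, ...`).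
`Rep.eqv`: `∃ x, IsWO p.1 x.1 ∧ IsWO p.2 x.1` iff `le` in both directions (use `IsWO.lt_omega1`,
`IsWO.unique`).
`PC.ole`: `PC (fun p : Om × Om => p.1 ≤ p.2)` is `projective_isWO_le` up to rewriting
(`Projective.congr`); then `PC.comp` with `PCF.mk`.  `PC.olt`: negation of `ole`.
`PC.isWO`: a code of `(q, α)` is `(q', v)` with `q' = q` (pointwise, `Rep.rel` for `ℕ → Bool` is
`∀ n, c n = q n`) and `IsWO v α.1`; so the set is `{(q, v) | ∃ l, IsWO q l ∧ IsWO v l}`.
`PC.rk`: `RK q n η ↔ (∃ l, IsWO q l) ∧ cd q n n ∧ IsWO (segc q n) η.1` (`Codes.segc`,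
`IsWO.unique`), and `(q, n) ↦ segc q n` is continuous (`PCF.of_continuous`).
-/

namespace PU
open MeasureTheory Set
open scoped Cardinal

universe u

theorem lt_omega1_iff {o : Ordinal.{0}} : o < Ordinal.omega 1 ↔ (Iio o).Countable := by
  rw [Cardinal.lt_omega_iff_card_lt, ← Cardinal.le_aleph0_iff_set_countable,
    Cardinal.mk_Iio_ordinal, ← Cardinal.lift_aleph0.{1, 0}, Cardinal.lift_le]
  rw [← Cardinal.succ_aleph0, Order.lt_succ_iff]

/-- Countable ordinals. -/
abbrev Om : Type 1 := {α : Ordinal.{0} // α < Ordinal.omega 1}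

instance : Inhabited Om := ⟨⟨0, Ordinal.omega_pos 1⟩⟩

theorem Om.countable_Iio (α : Om) : {β : Om | β < α}.Countable := by
  have h := lt_omega1_iff.1 α.2
  have h2 := h.preimage_of_injOn (f := fun β : Om => β.1) (Subtype.val_injective.injOn)
  exact h2.mono fun β hβ => hβ

theorem Om.countable_Iic (α : Om) : {β : Om | β ≤ α}.Countable := by
  have h : {β : Om | β ≤ α} ⊆ {β : Om | β < α} ∪ {α} := by
    intro β hβ
    rcases lt_or_eq_of_le (show β ≤ α from hβ) with h | h
    · exact Or.inl h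
    · exact Or.inr h
  exact ((Om.countable_Iio α).union (countable_singleton α)).mono h

theorem Om.uncountable : ¬ (Set.univ : Set Om).Countable := by
  intro h
  have h2 : (Iio (Ordinal.omega 1 : Ordinal.{0})).Countable := by
    have h3 := h.image (fun β : Om => β.1)
    refine h3.mono fun β hβ => ?_
    exact ⟨⟨β, hβ⟩, mem_univ _, rfl⟩
  exact lt_irrefl _ (lt_omega1_iff.2 h2)

/-- Every countable set of countable ordinals has an upper bound. -/
theorem Om.bdd {S : Set Om} (hS : S.Countable) : ∃ α : Om, ∀ β ∈ S, β < α := by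
  by_contra h
  push Not at h
  refine Om.uncountable ?_
  have h2 : (⋃ β ∈ S, {γ : Om | γ ≤ β}).Countable := hS.biUnion fun β _ => Om.countable_Iic β
  refine h2.mono fun α _ => ?_
  obtain ⟨β, hβ, hle⟩ := h α
  exact mem_biUnion hβ hle

theorem projective_isWO : Projective {v : ℕ → Bool | ∃ l, IsWO v l} := by
  have h : PC (fun v : ℕ → Bool => ∃ l, IsWO v l) := by
    refine PC.congr (fun v => (isWO_iff v).symm) ?_
    unfold cd
    repeat' with_reducible first
      | assumption
      | apply PC.and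
      | apply PC.or
      | apply PC.iff
      | apply PC.not
      | apply PC.ex
      | apply PC.all
      | apply PC.imp
      | apply PC.eq
      | apply PCF.eval
      | apply PCF.nat2
      | apply PCF.fst
      | apply PCF.snd
      | apply PCF.id
      | apply PCF.const
  exact projective_of_pc h

theorem projective_isWO_le : Projective {p : (ℕ → Bool) × (ℕ → Bool) |
    ∃ l l', IsWO p.1 l ∧ IsWO p.2 l' ∧ l ≤ l'} := by
  have h1 := projective_isWO.preimage (f := fun p : (ℕ → Bool) × (ℕ → Bool) => p.1) (by fun_prop)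
  have h2 := projective_isWO.preimage (f := fun p : (ℕ → Bool) × (ℕ → Bool) => p.2) (by fun_prop)
  have h : PC (fun p : (ℕ → Bool) × (ℕ → Bool) => ∃ f : ℕ → ℕ, ∀ m n, cd p.1 m m → cd p.1 n n →
      (cd p.1 m n ↔ cd p.2 (f m) (f n))) := by
    unfold cd
    repeat' with_reducible first
      | assumption
      | apply PC.and
      | apply PC.or
      | apply PC.iff
      | apply PC.not
      | apply PC.ex
      | apply PC.all
      | apply PC.imp
      | apply PC.eq
      | apply PCF.eval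
      | apply PCF.nat2
      | apply PCF.fst
      | apply PCF.snd
      | apply PCF.id
      | apply PCF.const
  refine Projective.congr (fun p => ?_) ((h1.inter h2).inter (projective_of_pc h))
  constructor
  · rintro ⟨⟨⟨l, hl⟩, ⟨l', hl'⟩⟩, hf⟩
    exact ⟨l, l', hl, hl', (hl.le_iff hl').2 hf⟩
  · rintro ⟨l, l', hl, hl', hle⟩
    exact ⟨⟨⟨l, hl⟩, ⟨l', hl'⟩⟩, (hl.le_iff hl').1 hle⟩

instance : Rep Om where
  C := ℕ → Bool
  top := inferInstance
  pol := inferInstance
  rel v α := IsWO v α.1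
  inj _ _ _ h h' := Subtype.ext (h.unique h')
  surj α := exists_isWO α.2
  eqv := by
    have h2 := projective_isWO_le.preimage
      (f := fun p : (ℕ → Bool) × (ℕ → Bool) => (p.2, p.1)) (by fun_prop)
    refine Projective.congr (fun p => ?_) (projective_isWO_le.inter h2)
    constructor
    · rintro ⟨⟨l, l', h1, h2, hle⟩, ⟨k, k', h3, h4, hle'⟩⟩
      have e1 : k' = l := h4.unique h1
      have e2 : k = l' := h3.unique h2
      subst e1 e2
      have e3 : k' = k := le_antisymm hle hle'
      subst e3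
      exact ⟨⟨k', h1.lt_omega1⟩, h1, h2⟩
    · rintro ⟨α, h1, h2⟩
      exact ⟨⟨α.1, α.1, h1, h2, le_rfl⟩, ⟨α.1, α.1, h2, h1, le_rfl⟩⟩

variable {X : Type u} [Rep X]

theorem PC.ole {f g : X → Om} (hf : PCF f) (hg : PCF g) : PC (fun x => f x ≤ g x) := by
  have h : PC (fun p : Om × Om => p.1 ≤ p.2) := by
    refine Projective.congr (X := (ℕ → Bool) × (ℕ → Bool)) (fun c => ?_) projective_isWO_le
    constructor
    · rintro ⟨l, l', h1, h2, hle⟩
      exact ⟨(⟨l, h1.lt_omega1⟩, ⟨l', h2.lt_omega1⟩), ⟨h1, h2⟩, hle⟩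
    · rintro ⟨p, hp, hle⟩
      exact ⟨p.1.1, p.2.1, hp.1, hp.2, hle⟩
  exact PC.comp h (PCF.mk hf hg)

theorem PC.olt {f g : X → Om} (hf : PCF f) (hg : PCF g) : PC (fun x => f x < g x) := by
  refine PC.congr (fun x => ?_) (PC.not (PC.ole hg hf))
  exact not_le

/-- `q` is a code of an ordinal and `n` has rank `η` in it. -/
def RK (q : ℕ → Bool) (n : ℕ) (η : Om) : Prop := ∃ e l, Codes q e l ∧ cd q n n ∧ e n = η.1

theorem RK.unique {q : ℕ → Bool} {n : ℕ} {η η' : Om} (h : RK q n η) (h' : RK q n η') : η = η' := by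
  obtain ⟨e, l, h1, h2, h3⟩ := h
  obtain ⟨e', l', h1', h2', h3'⟩ := h'
  exact Subtype.ext (h3 ▸ h3' ▸ (h1.unique h1').2 n h2)

/-- The relation between codes and the coded ordinals. -/
theorem PC.isWO {f : X → ℕ → Bool} {g : X → Om} (hf : PCF f) (hg : PCF g) :
    PC (fun x => IsWO (f x) (g x).1) := by
  have h : PC (fun p : (ℕ → Bool) × Om => IsWO p.1 p.2.1) := by
    have h2 := projective_isWO_le.preimage
      (f := fun p : (ℕ → Bool) × (ℕ → Bool) => (p.2, p.1)) (by fun_prop)
    refine Projective.congr (X := (ℕ → Bool) × (ℕ → Bool)) (fun c => ?_)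
      (projective_isWO_le.inter h2)
    constructor
    · rintro ⟨⟨l, l', h1, h2, hle⟩, ⟨k, k', h3, h4, hle'⟩⟩
      have e1 : k' = l := h4.unique h1
      have e2 : k = l' := h3.unique h2
      subst e1 e2
      have e3 : k' = k := le_antisymm hle hle'
      subst e3
      exact ⟨(c.1, ⟨k', h1.lt_omega1⟩), ⟨fun _ => rfl, h2⟩, h1⟩
    · rintro ⟨p, hp, h1⟩
      have e : c.1 = p.1 := funext fun n => hp.1 n
      have h2 : IsWO c.2 p.2.1 := hp.2
      have h3 : IsWO c.1 p.2.1 := by rw [e]; exact h1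
      exact ⟨⟨_, _, h3, h2, le_rfl⟩, ⟨_, _, h2, h3, le_rfl⟩⟩
  exact PC.comp h (PCF.mk hf hg)

theorem rk_iff (q : ℕ → Bool) (n : ℕ) (η : Om) :
    RK q n η ↔ ((∃ l : Om, IsWO q l.1) ∧ cd q n n) ∧ IsWO (segc q n) η.1 := by
  constructor
  · rintro ⟨e, l, h1, h2, h3⟩
    refine ⟨⟨⟨⟨l, IsWO.lt_omega1 ⟨e, h1⟩⟩, ⟨e, h1⟩⟩, h2⟩, ?_⟩
    rw [← h3]
    exact h1.segc h2
  · rintro ⟨⟨⟨l, e, h1⟩, h2⟩, h3⟩
    exact ⟨e, l, h1, h2, (h1.segc h2).unique h3⟩

theorem continuous_segc : Continuous (fun p : (ℕ → Bool) × ℕ => segc p.1 p.2) := by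
  refine continuous_prod_of_discrete_right.2 fun n => ?_
  refine continuous_pi fun k => ?_
  have h1 : Continuous (fun v : ℕ → Bool => v k) := continuous_apply k
  have h2 : Continuous (fun v : ℕ → Bool => !(v (Nat.pair n k.unpair.1))) :=
    (continuous_of_discreteTopology (f := not)).comp (continuous_apply _)
  have h3 : Continuous (fun v : ℕ → Bool => !(v (Nat.pair n k.unpair.2))) :=
    (continuous_of_discreteTopology (f := not)).comp (continuous_apply _)
  exact (continuous_of_discreteTopology (f := fun p : (Bool × Bool) × Bool =>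
    p.1.1 && p.1.2 && p.2)).comp ((h1.prodMk h2).prodMk h3)

theorem PC.bool {f : X → Bool} (hf : PCF f) : PC (fun x => f x = true) :=
  PC.eq hf (PCF.const true)

theorem PC.cd {f : X → ℕ → Bool} {m n : X → ℕ} (hf : PCF f) (hm : PCF m) (hn : PCF n) :
    PC (fun x => cd (f x) (m x) (n x)) := PC.bool (PCF.eval hf (PCF.nat2 hm hn))

theorem PC.rk {f : X → ℕ → Bool} {n : X → ℕ} {g : X → Om} (hf : PCF f) (hn : PCF n)
    (hg : PCF g) : PC (fun x => RK (f x) (n x) (g x)) := by
  refine PC.congr (fun x => (rk_iff (f x) (n x) (g x)).symm) ?_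
  refine PC.and (PC.and ?_ (PC.cd hf hn hn)) ?_
  · refine PC.ex ?_
    exact PC.isWO (hf.comp PCF.fst') PCF.snd'
  · refine PC.isWO ?_ hg
    exact PCF.comp (g := fun p : (ℕ → Bool) × ℕ => segc p.1 p.2)
      (PCF.of_continuous continuous_segc) (PCF.mk hf hn)

end PU
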