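import Pool.Agent.PU.TopC
import Pool.Agent.PU.Om

/-!
PU COND: the generic sequence is not covered by a meager set computed from the generic real.

PROOFS.
`exists_om_inj`: `#Om = ℵ₁ ≤ 2 ^ ℵ₀ = #(ℕ → Bool)` (universe lifts; `Cardinal.lift_mk_le'`;
`Cardinal.mk_Iio_ordinal`, `Cardinal.aleph_one_le_continuum`).
`exists_bit_inj`: from it, `(l, m) ↦ ` the real interleaving `γ l` and the unary code of `m`.
`ccc_meets`: (general topology) let `X` be a space in which every disjoint family of nonempty open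
sets is countable, `N : ι → Set X` nonempty open sets, `Λ : Set ι` uncountable.  Then there is a
nonempty open `U` such that every nonempty open `V ⊆ U` meets `N i` for uncountably many `i ∈ Λ`.
Suppose not: every nonempty open `U` contains a nonempty open `V` which meets only countably many
`N i`, `i ∈ Λ`.  Take (Zorn) a maximal family `𝒱` of pairwise disjoint nonempty open sets each of
which meets only countably many `N i`, `i ∈ Λ`.  It is countable.  By maximality `⋃ 𝒱` meets every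
nonempty open set (otherwise shrink a nonempty open set disjoint from it and add it).  So every
`N i`, `i ∈ Λ`, meets some `V ∈ 𝒱`; so `Λ` is a countable union of countable sets, a contradiction.
`generic_not_small`: suppose that for all `l` the set
`S_l = {p | p.x ∈ B ∧ p.c (l, ·) ∉ MM (f p.x)}` is meager.  By `exists_open_of_not_meagre` (with
`D = univ ×ˢ B`, `U = univ`) there is a nonempty open `O` with `{p ∈ O | p.x ∉ B}` meager.
Fix `l`.  For comeager many `p ∈ O` there is `j` with `∀ n, f p.x (pair j (rsc (p.c (l,·)) n)) =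
false`; so for some `j = j_l` the set `{p ∈ O | ∀ n, ...}` is not meager (`isMeagre_iUnion`, `O` not
meager), and the condition is measurable in `(p.c, p.x)`; so there is a nonempty open `N'_l ⊆ O` on
which it holds up to a meager set.  Choose `p ∈ N'_l` and a valid basic set
`N_l = Nb κ P_l p.c p.x k F ⊆ N'_l` containing `p`, and let `n_l` be such that `(l, m) ∈ P_l` implies
`m < n_l`, and `τ_l = (List.range n_l).map (p.c (l, ·))`.  There are countably many pairs
`(j_l, τ_l)`, so an uncountable set `Λ` of `l` has a constant pair `(j, τ)`.  Apply `ccc_meets` to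
`N_l`, `Λ`: get `U`; `U ∩ O` is nonempty open (`U` meets some `N_l ⊆ O`).  For comeager many
`p ∈ U ∩ O`, `p.x ∈ B`, so `GoodC (f p.x)`, so there is `s' ⊇ τ` with `f p.x (pair j (encode s')) =
true`; so for a fixed `s'` this holds on a nonmeager set, hence up to a meager set on a nonempty
open `V' ⊆ U ∩ O`; take a valid basic `V = Nb κ P* c* x* k* F* ⊆ V'` containing its centre.  The set
of `l ∈ Λ` with `N_l ∩ V ≠ ∅` is uncountable, so there is one with `(l, m) ∉ P*` for all `m`.  Take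
`p ∈ N_l ∩ V` and change `p.c` at the places `(l, m)`, `m < s'.length`, to the values of `s'`: the new
point `p'` is still in `N_l` (for `(l, m) ∈ P_l`, `m < n_l`, the value prescribed there is entry `m`
of `τ`, which is entry `m` of `s'` since `τ <+: s'`; the conditions on `x` do not involve `c`) and
in `V`.  The set `N_l ∩ V ∩ {p | ∀ m < s'.length, p.c (l, m) = s'[m]}` is open and nonempty; up to a
meager set its points satisfy both `∀ n, f p.x (pair j (rsc (p.c (l, ·)) n)) = false` and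
`f p.x (pair j (encode s')) = true`, where `rsc (p.c (l, ·)) s'.length = encode s'`.  So it is
meager, contradicting Baire.
-/

namespace PU

open MeasureTheory Set

universe u v

theorem exists_om_inj : ∃ γ : Om → ℕ → Bool, Function.Injective γ := by
  have h : Cardinal.lift.{0} (Cardinal.mk Om) ≤ Cardinal.lift.{1} (Cardinal.mk (ℕ → Bool)) := by
    have h1 : Cardinal.mk Om = Cardinal.lift.{1} (Ordinal.omega 1 : Ordinal.{0}).card :=
      Cardinal.mk_Iio_ordinal _
    rw [Cardinal.lift_id'.{0, 1}, h1, Ordinal.card_omega, Cardinal.lift_le]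
    have h2 : Cardinal.mk (ℕ → Bool) = Cardinal.continuum := by simp
    rw [h2]
    exact Cardinal.aleph_one_le_continuum
  obtain ⟨e⟩ := Cardinal.lift_mk_le'.1 h
  exact ⟨e, e.injective⟩

theorem exists_bit_inj : ∃ g : Om × ℕ → ℕ → Bool, Function.Injective g := by
  obtain ⟨γ, hγ⟩ := exists_om_inj
  refine ⟨fun p n => if n % 2 = 0 then γ p.1 (n / 2) else decide (n / 2 = p.2), ?_⟩
  rintro ⟨l, m⟩ ⟨l', m'⟩ h
  have h1 : l = l' := by
    apply hγ
    funext k
    have := congrFun h (2 * k)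
    simpa using this
  have h2 : m = m' := by
    have := congrFun h (2 * m + 1)
    have e1 : (2 * m + 1) % 2 = 1 := by omega
    have e2 : (2 * m + 1) / 2 = m := by omega
    simpa [e1, e2] using this
  rw [h1, h2]

theorem ccc_meets {X : Type u} [TopologicalSpace X]
    (hX : ∀ 𝒰 : Set (Set X), (∀ U ∈ 𝒰, IsOpen U ∧ U.Nonempty) → 𝒰.PairwiseDisjoint id →
      𝒰.Countable) {ι : Type v} (N : ι → Set X) (hN : ∀ i, IsOpen (N i) ∧ (N i).Nonempty)
    (Λ : Set ι) (hΛ : ¬ Λ.Countable) : ∃ U : Set X, IsOpen U ∧ U.Nonempty ∧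
      ∀ V ⊆ U, IsOpen V → V.Nonempty → ¬ {i | i ∈ Λ ∧ (N i ∩ V).Nonempty}.Countable := by
  by_contra hcon
  push Not at hcon
  let G : Set (Set (Set X)) := {𝒱 | (∀ V ∈ 𝒱, IsOpen V ∧ V.Nonempty ∧
    {i | i ∈ Λ ∧ (N i ∩ V).Nonempty}.Countable) ∧ 𝒱.PairwiseDisjoint id}
  obtain ⟨𝒱, h𝒱⟩ := zorn_subset G (by
    intro c hc hchain
    refine ⟨⋃₀ c, ⟨?_, ?_⟩, fun s hs => subset_sUnion_of_mem hs⟩
    · rintro V ⟨𝒰, h𝒰, hV⟩
      exact (hc h𝒰).1 V hV
    · rintro V ⟨𝒰, h𝒰, hV⟩ V' ⟨𝒰', h𝒰', hV'⟩ hne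
      rcases hchain.total h𝒰 h𝒰' with h | h
      · exact (hc h𝒰').2 (h hV) hV' hne
      · exact (hc h𝒰).2 hV (h hV') hne)
  have hG := h𝒱.prop
  have hcount : 𝒱.Countable := hX 𝒱 (fun V hV => ⟨(hG.1 V hV).1, (hG.1 V hV).2.1⟩) hG.2
  apply hΛ
  have h1 : (⋃ V ∈ 𝒱, {i | i ∈ Λ ∧ (N i ∩ V).Nonempty}).Countable :=
    hcount.biUnion fun V hV => (hG.1 V hV).2.2
  refine h1.mono fun i hi => ?_
  by_contra hno
  simp only [mem_iUnion, not_exists, mem_ofPred_eq, not_and] at hno
  obtain ⟨V, hVU, hVo, hVn, hVc⟩ := hcon (N i) (hN i).1 (hN i).2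
  have hins : insert V 𝒱 ∈ G := by
    refine ⟨?_, ?_⟩
    · intro V' hV'
      rcases mem_insert_iff.1 hV' with rfl | h
      · exact ⟨hVo, hVn, hVc⟩
      · exact hG.1 V' h
    · refine hG.2.insert fun V' hV' _ => ?_
      show Disjoint V V'
      rw [Set.disjoint_iff]
      intro z hz
      exact hno V' hV' hi ⟨z, hVU hz.1, hz.2⟩
  have hmem : V ∈ 𝒱 := h𝒱.le_of_ge hins (subset_insert V 𝒱) (mem_insert V 𝒱)
  obtain ⟨z, hz⟩ := hVn
  exact hno V hmem hi ⟨z, hVU hz, hz⟩

private theorem step_l (κ : (ℕ → Bool) → ℕ → Bool ⊕ (Om × ℕ)) (B : Set (ℕ → Bool))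
    (f : (ℕ → Bool) → ℕ → Bool) (hf : Measurable f) (O : Set (Pt κ)) (hO : IsOpen O)
    (hOn : O.Nonempty) (hOB : IsMeagre {p : Pt κ | p ∈ O ∧ p.x ∉ B}) (l : Om)
    (h : IsMeagre {p : Pt κ | p.x ∈ B ∧ (fun m => p.c (l, m)) ∉ MM (f p.x)}) :
    ∃ (t : ℕ × List Bool) (P : Finset (Om × ℕ)) (c : Om × ℕ → Bool) (x : ℕ → Bool) (k : ℕ)
      (F : Finset ((ℕ → Bool) × ℕ)), Valid κ P c F ∧ Nb κ P c x k F ⊆ O ∧
      IsMeagre {p : Pt κ | p ∈ Nb κ P c x k F ∧
        ¬ ∀ n, f p.x (Nat.pair t.1 (rsc (fun m => p.c (l, m)) n)) = false} ∧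
      ∀ m, (l, m) ∈ P → m < t.2.length ∧ t.2.getD m false = c (l, m) := by
  have hj : ∃ j : ℕ, ¬ IsMeagre {p : Pt κ | p ∈ O ∧
      (p.c, p.x) ∈ {q : (Om × ℕ → Bool) × (ℕ → Bool) |
        ∀ n, f q.2 (Nat.pair j (rsc (fun m => q.1 (l, m)) n)) = false}} := by
    by_contra hcon
    push Not at hcon
    refine not_isMeagre_of_isOpen hO hOn ?_
    refine IsMeagre.mono ?_ ((hOB.union h).union (isMeagre_iUnion hcon))
    intro p hp
    by_cases hpB : p.x ∈ B
    · by_cases hM : (fun m => p.c (l, m)) ∈ MM (f p.x)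
      · obtain ⟨j, hj⟩ := hM
        exact Or.inr (mem_iUnion.2 ⟨j, hp, hj⟩)
      · exact Or.inl (Or.inr ⟨hpB, hM⟩)
    · exact Or.inl (Or.inl ⟨hp, hpB⟩)
  obtain ⟨j, hj⟩ := hj
  have hD : MeasurableSet {q : (Om × ℕ → Bool) × (ℕ → Bool) |
      ∀ n, f q.2 (Nat.pair j (rsc (fun m => q.1 (l, m)) n)) = false} := by
    have e : {q : (Om × ℕ → Bool) × (ℕ → Bool) |
        ∀ n, f q.2 (Nat.pair j (rsc (fun m => q.1 (l, m)) n)) = false} =
        ⋂ n, {q | f q.2 (Nat.pair j (rsc (fun m => q.1 (l, m)) n)) = false} := by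
      ext q
      simp
    rw [e]
    refine MeasurableSet.iInter fun n => ?_
    refine measurableSet_eval (f := fun q : (Om × ℕ → Bool) × (ℕ → Bool) => f q.2)
      (k := fun q => Nat.pair j (rsc (fun m => q.1 (l, m)) n)) (hf.comp measurable_snd) ?_ false
    have m1 : Measurable (fun q : (Om × ℕ → Bool) × (ℕ → Bool) => fun m => q.1 (l, m)) :=
      measurable_pi_lambda _ fun m => (measurable_pi_apply (l, m)).comp measurable_fst
    exact (measurable_of_countable (fun k : ℕ => Nat.pair j k)).comp ((measurable_rsc n).comp m1)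
  obtain ⟨V, hVo, hVn, hVO, hVm⟩ := exists_open_of_not_meagre hD hO hj
  obtain ⟨p, hp⟩ := hVn
  obtain ⟨P, k, F, h1, h2, h3⟩ := isOpen_pt_iff.1 hVo p hp
  refine ⟨(j, (List.range (P.sup (fun i => i.2) + 1)).map fun m => p.c (l, m)), P, p.c, p.x, k, F, h1,
    h3.trans hVO, ?_, ?_⟩
  · refine IsMeagre.mono ?_ hVm
    intro q hq
    exact ⟨h3 hq.1, hq.2⟩
  · intro m hm
    have h4 : m < P.sup (fun i => i.2) + 1 :=
      Nat.lt_succ_of_le (Finset.le_sup (f := fun i : Om × ℕ => i.2) hm)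
    refine ⟨by simpa using h4, ?_⟩
    simp [List.getD_eq_getElem?_getD, h4]

theorem generic_not_small (κ : (ℕ → Bool) → ℕ → Bool ⊕ (Om × ℕ)) (B : Set (ℕ → Bool))
    (hB : MeasurableSet B) (hpos : ¬ IsMeagre {p : Pt κ | p.x ∈ B}) (f : (ℕ → Bool) → ℕ → Bool)
    (hf : Measurable f) (hgood : ∀ x ∈ B, GoodC (f x)) :
    ∃ l : Om, ¬ IsMeagre {p : Pt κ | p.x ∈ B ∧ (fun m => p.c (l, m)) ∉ MM (f p.x)} := by
  classical
  by_contra hcon
  push Not at hcon
  obtain ⟨O, hO, hOn, -, hOB⟩ := exists_open_of_not_meagre (κ := κ)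
    (D := {q : (Om × ℕ → Bool) × (ℕ → Bool) | q.2 ∈ B}) (hB.preimage measurable_snd) isOpen_univ
    (by
      intro h
      apply hpos
      refine IsMeagre.mono ?_ h
      intro p hp
      exact ⟨mem_univ _, hp⟩)
  choose t P c x k F hV hNO hNm hNt using
    fun l => step_l κ B f hf O hO hOn hOB l (hcon l)
  -- an uncountable set of indices with the same data
  obtain ⟨T, hT⟩ : ∃ T : ℕ × List Bool, ¬ {l : Om | t l = T}.Countable := by
    by_contra hc
    push Not at hc
    apply Om.uncountable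
    refine (countable_iUnion hc).mono fun l _ => ?_
    exact mem_iUnion.2 ⟨t l, rfl⟩
  obtain ⟨g, hg⟩ := exists_bit_inj
  obtain ⟨U, hUo, hUn, hU⟩ := ccc_meets (pt_ccc κ g hg)
    (fun l => Nb κ (P l) (c l) (x l) (k l) (F l))
    (fun l => ⟨isOpen_Nb (hV l) _ _, Nb_nonempty _ _ _ _ _⟩) {l : Om | t l = T} hT
  have hUO : (U ∩ O).Nonempty := by
    have h1 := hU U (Subset.refl _) hUo hUn
    have h2 : ({i | i ∈ {l : Om | t l = T} ∧
        (Nb κ (P i) (c i) (x i) (k i) (F i) ∩ U).Nonempty}).Nonempty := by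
      by_contra h3
      rw [not_nonempty_iff_eq_empty] at h3
      rw [h3] at h1
      exact h1 countable_empty
    obtain ⟨l, -, z, hz1, hz2⟩ := h2
    exact ⟨z, hz2, hNO l hz1⟩
  -- the extension `s'`
  obtain ⟨s', hs', hsm⟩ : ∃ s' : List Bool, T.2 <+: s' ∧ ¬ IsMeagre {p : Pt κ | p ∈ U ∩ O ∧
      (p.c, p.x) ∈ {q : (Om × ℕ → Bool) × (ℕ → Bool) |
        f q.2 (Nat.pair T.1 (Encodable.encode s')) = true}} := by
    by_contra hc
    push Not at hc
    refine not_isMeagre_of_isOpen (hUo.inter hO) hUO ?_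
    have h1 : IsMeagre (⋃ s' : List Bool, {p : Pt κ | T.2 <+: s' ∧ p ∈ U ∩ O ∧
        f p.x (Nat.pair T.1 (Encodable.encode s')) = true}) := by
      refine isMeagre_iUnion fun s' => ?_
      by_cases hs : T.2 <+: s'
      · exact (hc s' hs).mono fun p hp => hp.2
      · refine IsMeagre.mono ?_ IsMeagre.empty
        intro p hp
        exact absurd hp.1 hs
    refine IsMeagre.mono ?_ (hOB.union h1)
    intro p hp
    by_cases hpB : p.x ∈ B
    · obtain ⟨s', hs1, hs2⟩ := hgood p.x hpB T.1 T.2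
      exact Or.inr (mem_iUnion.2 ⟨s', hs1, hp, hs2⟩)
    · exact Or.inl ⟨hp.2, hpB⟩
  have hD : MeasurableSet {q : (Om × ℕ → Bool) × (ℕ → Bool) |
      f q.2 (Nat.pair T.1 (Encodable.encode s')) = true} :=
    measurableSet_eval (f := fun q : (Om × ℕ → Bool) × (ℕ → Bool) => f q.2)
      (k := fun _ => Nat.pair T.1 (Encodable.encode s')) (hf.comp measurable_snd)
      measurable_const true
  obtain ⟨V', hVo', ⟨ps, hps⟩, hVU', hVm'⟩ := exists_open_of_not_meagre hD (hUo.inter hO) hsm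
  obtain ⟨Ps, ks, Fs, g1, g2, g3⟩ := isOpen_pt_iff.1 hVo' ps hps
  have hVo : IsOpen (Nb κ Ps ps.c ps.x ks Fs) := isOpen_Nb g1 _ _
  have hl := hU (Nb κ Ps ps.c ps.x ks Fs) (g3.trans (hVU'.trans inter_subset_left)) hVo ⟨ps, g2⟩
  obtain ⟨l, ⟨hlT, p, hp1, hp2⟩, hlP⟩ : ∃ l, (t l = T ∧
      (Nb κ (P l) (c l) (x l) (k l) (F l) ∩ Nb κ Ps ps.c ps.x ks Fs).Nonempty) ∧
      ∀ m, (l, m) ∉ Ps := by
    by_contra hc
    push Not at hc
    apply hl
    refine ((Ps.finite_toSet.image fun i => i.1).countable).mono ?_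
    intro l hl'
    obtain ⟨m, hm⟩ := hc l hl'
    exact ⟨(l, m), hm, rfl⟩
  -- the open set where both conditions hold
  let Q : Finset (Om × ℕ) := (Finset.range s'.length).image fun m => (l, m)
  let cs : Om × ℕ → Bool := fun i => s'.getD i.2 false
  have hQ : IsOpen (Nb κ Q cs (fun _ => false) 0 ∅) := by
    refine isOpen_Nb ?_ _ _
    intro q hq
    simp at hq
  have hQmem : ∀ q : Pt κ, q ∈ Nb κ Q cs (fun _ => false) 0 ∅ ↔
      ∀ m < s'.length, q.c (l, m) = s'.getD m false := by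
    intro q
    constructor
    · intro h m hm
      exact h.1 (l, m) (Finset.mem_image.2 ⟨m, Finset.mem_range.2 hm, rfl⟩)
    · intro h
      refine ⟨?_, ?_, ?_⟩
      · intro i hi
        obtain ⟨m, hm, rfl⟩ := Finset.mem_image.1 hi
        exact h m (Finset.mem_range.1 hm)
      · intro j hj
        exact absurd hj (Nat.not_lt_zero j)
      · intro q' hq'
        simp at hq'
  have hlen : T.2.length ≤ s'.length := hs'.length_le
  have hTs : ∀ m < T.2.length, s'.getD m false = T.2.getD m false := by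
    intro m hm
    obtain ⟨w, hw⟩ := hs'
    rw [← hw, List.getD_append _ _ _ _ hm]
  have hne : ((Nb κ (P l) (c l) (x l) (k l) (F l) ∩ Nb κ Ps ps.c ps.x ks Fs) ∩
      Nb κ Q cs (fun _ => false) 0 ∅).Nonempty := by
    refine ⟨⟨fun i => if i.1 = l ∧ i.2 < s'.length then s'.getD i.2 false else p.c i, p.x⟩,
      ⟨⟨?_, hp1.2.1, hp1.2.2⟩, ⟨?_, hp2.2.1, hp2.2.2⟩⟩, ?_⟩
    · rintro ⟨l', m⟩ hi
      by_cases hl' : l' = l
      · subst hl'
        have h1 := hNt l' m hi
        rw [hlT] at h1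
        have h2 : m < s'.length := lt_of_lt_of_le h1.1 hlen
        simp only [h2, and_self, if_true]
        rw [hTs m h1.1]
        exact h1.2
      · simp only [hl', false_and, if_false]
        exact hp1.1 (l', m) hi
    · rintro ⟨l', m⟩ hi
      have hl' : l' ≠ l := by
        rintro rfl
        exact hlP m hi
      simp only [hl', false_and, if_false]
      exact hp2.1 (l', m) hi
    · rw [hQmem]
      intro m hm
      simp [hm]
  refine not_isMeagre_of_isOpen (((isOpen_Nb (hV l) _ _).inter hVo).inter hQ) hne ?_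
  refine IsMeagre.mono ?_ ((hNm l).union hVm')
  rintro q ⟨⟨hq1, hq2⟩, hq3⟩
  by_cases h1 : ∀ n, f q.x (Nat.pair (t l).1 (rsc (fun m => q.c (l, m)) n)) = false
  · right
    refine ⟨g3 hq2, ?_⟩
    intro h2
    have h3 := h1 s'.length
    have e : rsc (fun m => q.c (l, m)) s'.length = Encodable.encode s' := by
      unfold rsc
      congr 1
      apply List.ext_getElem
      · simp
      · intro i h5 h6
        have h7 := (hQmem q).1 hq3 i h6
        rw [List.getElem_map, List.getElem_range, h7, List.getD_eq_getElem _ _ h6]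
    rw [e, hlT] at h3
    have h4 : f q.x (Nat.pair T.1 (Encodable.encode s')) = true := h2
    rw [h3] at h4
    exact absurd h4 (by simp)
  · exact Or.inl ⟨hq1, h1⟩

end PU
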