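import Pool.Agent.PU.Rep

/-!
PU MEAS: some Borel sets and functions.

PROOFS.  Everything depends on finitely many coordinates at a time.
`measurable_theta`: coordinate `n` is `decide (∃ M, ∀ m ≥ M, x (enc r n m) = false)`; for fixed
`n`, `m` the map `(x, r) ↦ x (enc r n m)` is measurable since `enc r n m` takes countably many
values (the preimage of a value `k` under `r ↦ enc r n m` is measurable: it depends on
`r 0, ..., r (m-1)`), so `{(x, r) | x (enc r n m) = false} = ⋃ k, {enc r n m = k} ∩ {x k = false}`.
`measurable_rsc`: same (finite dependence; e.g. induction on `n` for `z ↦ (List.range n).map z`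
with the discrete measurable structure, or `measurable_from_...`/`continuous`: the map is locally
constant, hence continuous to the discrete space `ℕ`).
`measurableSet_goodC`: `⋂ j s, ⋃ s' (s <+: s'), {y | y (..) = true}`, countable operations.
`measurableSet_mm`: `⋃ j ⋂ n {(z, y) | y (pair j (rsc z n)) = false}` and the inner set is
`⋃ k, {rsc z n = k} ∩ {y (pair j k) = false}`.
-/

namespace PU

open MeasureTheory Set

/-- The `m`-th element of the almost disjoint coding set attached to `(r, n)`. -/
def enc (r : ℕ → Bool) (n m : ℕ) : ℕ := Encodable.encode (n, (List.range m).map r)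

/-- The decoding function: bit `n` of `theta x r` is on iff `x` has only finitely many elements in
the coding set of `(r, n)`. -/
noncomputable def theta (x r : ℕ → Bool) : ℕ → Bool :=
  fun n => open Classical in decide (∃ M, ∀ m, M ≤ m → x (enc r n m) = false)

theorem measurable_map_range (m : ℕ) :
    @Measurable (ℕ → Bool) (List Bool) _ ⊤ fun r => (List.range m).map r := by
  let _ : MeasurableSpace (List Bool) := ⊤
  have h1 : Measurable (fun r : ℕ → Bool => fun i : Fin m => r i.1) :=
    measurable_pi_lambda _ fun i => measurable_pi_apply i.1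
  have h2 : Measurable (fun g : Fin m → Bool => List.ofFn g) := measurable_of_countable _
  have h3 := h2.comp h1
  have h4 : (fun r : ℕ → Bool => (List.range m).map r) =
      (fun g : Fin m → Bool => List.ofFn g) ∘ (fun r : ℕ → Bool => fun i : Fin m => r i.1) := by
    funext r
    apply List.ext_getElem
    · simp
    · intro i h5 h6
      simp
  rw [h4]
  exact h3

theorem measurable_enc (n m : ℕ) : Measurable fun r : ℕ → Bool => enc r n m := by
  let _ : MeasurableSpace (List Bool) := ⊤
  have h2 : Measurable (fun g : List Bool => (Encodable.encode (n, g) : ℕ)) :=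
    fun _ _ => trivial
  exact h2.comp (measurable_map_range m)

theorem measurableSet_eval {X : Type*} [MeasurableSpace X] {f : X → ℕ → Bool} {k : X → ℕ}
    (hf : Measurable f) (hk : Measurable k) (b : Bool) : MeasurableSet {x | f x (k x) = b} := by
  have h : {x | f x (k x) = b} = ⋃ j : ℕ, ({x | k x = j} ∩ {x | f x j = b}) := by
    ext x
    simp
  rw [h]
  refine MeasurableSet.iUnion fun j => MeasurableSet.inter ?_ ?_
  · exact hk (measurableSet_singleton j)
  · exact ((measurable_pi_apply j).comp hf) (measurableSet_singleton b)

theorem measurable_theta :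
    Measurable (fun p : (ℕ → Bool) × (ℕ → Bool) => theta p.1 p.2) := by
  refine measurable_pi_lambda _ fun n => ?_
  refine measurable_to_bool ?_
  have h : ((fun p : (ℕ → Bool) × (ℕ → Bool) => theta p.1 p.2 n) ⁻¹' {true}) =
      ⋃ M : ℕ, ⋂ m : ℕ, {p | M ≤ m → p.1 (enc p.2 n m) = false} := by
    ext p
    simp [theta]
  rw [h]
  refine MeasurableSet.iUnion fun M => MeasurableSet.iInter fun m => ?_
  by_cases hM : M ≤ m
  · have : {p : (ℕ → Bool) × (ℕ → Bool) | M ≤ m → p.1 (enc p.2 n m) = false} =
        {p | p.1 (enc p.2 n m) = false} := by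
      ext p; simp [hM]
    rw [this]
    exact measurableSet_eval measurable_fst ((measurable_enc n m).comp measurable_snd) false
  · have : {p : (ℕ → Bool) × (ℕ → Bool) | M ≤ m → p.1 (enc p.2 n m) = false} = univ := by
      ext p; simp [hM]
    rw [this]
    exact MeasurableSet.univ

/-- code of the restriction of `z` to its first `n` bits -/
def rsc (z : ℕ → Bool) (n : ℕ) : ℕ := Encodable.encode ((List.range n).map z)

/-- `y` codes a sequence of closed nowhere dense sets -/
def GoodC (y : ℕ → Bool) : Prop :=
  ∀ (j : ℕ) (s : List Bool), ∃ s', s <+: s' ∧ y (Nat.pair j (Encodable.encode s')) = true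

/-- the union of the sequence of closed sets coded by `y` -/
def MM (y : ℕ → Bool) : Set (ℕ → Bool) := {z | ∃ j, ∀ n, y (Nat.pair j (rsc z n)) = false}

theorem measurable_rsc (n : ℕ) : Measurable fun z : ℕ → Bool => rsc z n := by
  let _ : MeasurableSpace (List Bool) := ⊤
  have h2 : Measurable (fun g : List Bool => (Encodable.encode g : ℕ)) :=
    fun _ _ => trivial
  exact h2.comp (measurable_map_range n)

theorem measurableSet_goodC : MeasurableSet {y : ℕ → Bool | GoodC y} := by
  have h : {y : ℕ → Bool | GoodC y} = ⋂ j : ℕ, ⋂ s : List Bool, ⋃ s' : List Bool,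
      {y | s <+: s' ∧ y (Nat.pair j (Encodable.encode s')) = true} := by
    ext y
    simp [GoodC]
  rw [h]
  refine MeasurableSet.iInter fun j => MeasurableSet.iInter fun s => MeasurableSet.iUnion fun s' => ?_
  have h1 : MeasurableSet {y : ℕ → Bool | y (Nat.pair j (Encodable.encode s')) = true} :=
    measurableSet_eval (f := fun y : ℕ → Bool => y)
      (k := fun _ => Nat.pair j (Encodable.encode s')) measurable_id measurable_const true
  by_cases hs : s <+: s'
  · simpa [hs] using h1
  · simp [hs]

theorem measurableSet_mm : MeasurableSet {p : (ℕ → Bool) × (ℕ → Bool) | p.1 ∈ MM p.2} := by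
  have h : {p : (ℕ → Bool) × (ℕ → Bool) | p.1 ∈ MM p.2} = ⋃ j : ℕ, ⋂ n : ℕ,
      {p | p.2 (Nat.pair j (rsc p.1 n)) = false} := by
    ext y
    simp [MM]
  rw [h]
  refine MeasurableSet.iUnion fun j => MeasurableSet.iInter fun n => ?_
  refine measurableSet_eval (f := fun p : (ℕ → Bool) × (ℕ → Bool) => p.2)
    (k := fun p => Nat.pair j (rsc p.1 n)) measurable_snd ?_ false
  exact (measurable_of_countable (fun k : ℕ => Nat.pair j k)).comp
    ((measurable_rsc n).comp measurable_fst)

end PU
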