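import Pool.Agent.PU.SeqR
import Pool.Agent.PU.Meas

/-!
PU DEC: the decoding recursion, and its definability (complete).
-/

namespace PU

open MeasureTheory Set

universe u v

/-- the three components of a real: a bit, a real and a code -/
def bitc (w : ℕ → Bool) : Bool := w 0
def rrc (w : ℕ → Bool) : ℕ → Bool := fun n => w (2 * n + 1)
def qqc (w : ℕ → Bool) : ℕ → Bool := fun n => w (2 * n + 2)

variable (W : Om → Seq Om → Prop)

/-- the bits of `u` are on unboundedly often below its length -/
def Unb (u : Seq (ℕ → Bool)) : Prop :=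
  (∃ α, α < u.len) ∧ ∀ α, α < u.len → ∃ ν, α < ν ∧ ν < u.len ∧ bitc (u.val ν) = true

/-- `σ` is the least upper bound of the set of places where the bit of `u` is on -/
def Base (u : Seq (ℕ → Bool)) (σ : Om) : Prop :=
  (∀ ν, ν < u.len → bitc (u.val ν) = true → ν ≤ σ) ∧
    ∀ σ', σ' < σ → ∃ ν, ν < u.len ∧ bitc (u.val ν) = true ∧ σ' < ν

/-- the canonical partial enumeration of the length of `u` (relative to the witness `f`) -/
def Gr (u : Seq (ℕ → Bool)) (f : Seq Om) (n : ℕ) (η : Om) : Prop :=
  (¬ Unb u ∧ η < u.len ∧ ∃ σ, Base u σ ∧ RK (qqc (u.val σ)) n η) ∨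
  (Unb u ∧ ∃ ξ, ξ < f.len ∧ RK (qqc (u.val f.len)) n.unpair.1 ξ ∧ η ≤ f.val ξ ∧
    RK (qqc (u.val (f.val ξ))) n.unpair.2 η)

/-- `f` is an admissible witness for `u` -/
def Adm (u : Seq (ℕ → Bool)) (f : Seq Om) : Prop := ¬ Unb u ∨ W u.len f

/-- `v` is the canonical code of the length of `u` -/
def CodeOf (u : Seq (ℕ → Bool)) (f : Seq Om) (v : ℕ → Bool) : Prop :=
  ∀ m n, cd v m n ↔ ∃ η η', Gr u f m η ∧ Gr u f n η' ∧ η ≤ η'

/-- `y` is the next value decoded by `x` after `u` -/
def Next (x : ℕ → Bool) (u : Seq (ℕ → Bool)) (y : ℕ → Bool) : Prop :=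
  (∃ f, Adm W u f) ∧ ∀ f v, Adm W u f → CodeOf u f v → y = theta x v

/-- `u` is a sequence decoded by `x` -/
def Dec (x : ℕ → Bool) (u : Seq (ℕ → Bool)) : Prop :=
  ∀ μ, μ < u.len → Next W x (u.restr μ) (u.val μ)

/-- the `l`-th value decoded by `x` is `y` -/
def Sx (x : ℕ → Bool) (l : Om) (y : ℕ → Bool) : Prop :=
  ∃ u : Seq (ℕ → Bool), u.len = l ∧ Dec W x u ∧ Next W x u y

section calculus

variable {X : Type u} [Rep X]

theorem PCF.theta {f g : X → ℕ → Bool} (hf : PCF f) (hg : PCF g) :
    PCF (fun x => theta (f x) (g x)) :=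
  PCF.comp (g := fun p : (ℕ → Bool) × (ℕ → Bool) => PU.theta p.1 p.2)
    (PCF.of_measurable measurable_theta) (PCF.mk hf hg)

theorem PCF.bitc {f : X → ℕ → Bool} (hf : PCF f) : PCF (fun x => bitc (f x)) :=
  PCF.eval hf (PCF.const 0)

theorem PCF.qqc {f : X → ℕ → Bool} (hf : PCF f) : PCF (fun x => qqc (f x)) :=
  PCF.comp (g := PU.qqc) (PCF.of_continuous
    (continuous_pi fun n => continuous_apply (2 * n + 2))) hf

theorem PCF.rrc {f : X → ℕ → Bool} (hf : PCF f) : PCF (fun x => rrc (f x)) :=
  PCF.comp (g := PU.rrc) (PCF.of_continuous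
    (continuous_pi fun n => continuous_apply (2 * n + 1))) hf

theorem PCF.unpair1 {f : X → ℕ} (hf : PCF f) : PCF (fun x => (f x).unpair.1) :=
  PCF.nat (f := fun n => n.unpair.1) hf

theorem PCF.unpair2 {f : X → ℕ} (hf : PCF f) : PCF (fun x => (f x).unpair.2) :=
  PCF.nat (f := fun n => n.unpair.2) hf

theorem PC.unb {u : X → Seq (ℕ → Bool)} (hu : PCF u) : PC (fun x => Unb (u x)) := by
  have h : PC (fun u : Seq (ℕ → Bool) => Unb u) := by
    unfold Unb
    repeat' with_reducible first
      | assumption
      | apply PC.and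
      | apply PC.ex
      | apply PC.all
      | apply PC.imp
      | apply PC.olt
      | apply PC.bool
      | apply PCF.bitc
      | apply PCF.val
      | apply PCF.len
      | apply PCF.fst
      | apply PCF.snd
      | apply PCF.id
  exact PC.comp h hu

theorem PC.base {u : X → Seq (ℕ → Bool)} {σ : X → Om} (hu : PCF u) (hσ : PCF σ) :
    PC (fun x => Base (u x) (σ x)) := by
  have h : PC (fun p : Seq (ℕ → Bool) × Om => Base p.1 p.2) := by
    unfold Base
    repeat' with_reducible first
      | assumption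
      | apply PC.and
      | apply PC.ex
      | apply PC.all
      | apply PC.imp
      | apply PC.olt
      | apply PC.ole
      | apply PC.bool
      | apply PCF.bitc
      | apply PCF.val
      | apply PCF.len
      | apply PCF.fst
      | apply PCF.snd
      | apply PCF.id
  exact PC.comp h (PCF.mk hu hσ)

theorem PC.gr {u : X → Seq (ℕ → Bool)} {f : X → Seq Om} {n : X → ℕ} {η : X → Om} (hu : PCF u)
    (hf : PCF f) (hn : PCF n) (hη : PCF η) : PC (fun x => Gr (u x) (f x) (n x) (η x)) := by
  have h : PC (fun p : Seq (ℕ → Bool) × Seq Om × ℕ × Om => Gr p.1 p.2.1 p.2.2.1 p.2.2.2) := by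
    unfold Gr
    repeat' with_reducible first
      | assumption
      | apply PC.and
      | apply PC.or
      | apply PC.not
      | apply PC.ex
      | apply PC.all
      | apply PC.imp
      | apply PC.olt
      | apply PC.ole
      | apply PC.unb
      | apply PC.base
      | apply PC.rk
      | apply PC.bool
      | apply PCF.bitc
      | apply PCF.qqc
      | apply PCF.unpair1
      | apply PCF.unpair2
      | apply PCF.val
      | apply PCF.len
      | apply PCF.fst
      | apply PCF.snd
      | apply PCF.id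
  exact PC.comp h (PCF.mk hu (PCF.mk hf (PCF.mk hn hη)))

theorem PC.codeOf {u : X → Seq (ℕ → Bool)} {f : X → Seq Om} {v : X → ℕ → Bool} (hu : PCF u)
    (hf : PCF f) (hv : PCF v) : PC (fun x => CodeOf (u x) (f x) (v x)) := by
  have h : PC (fun p : Seq (ℕ → Bool) × Seq Om × (ℕ → Bool) => CodeOf p.1 p.2.1 p.2.2) := by
    unfold CodeOf
    repeat' with_reducible first
      | assumption
      | apply PC.and
      | apply PC.iff
      | apply PC.ex
      | apply PC.all
      | apply PC.imp
      | apply PC.ole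
      | apply PC.cd
      | apply PC.gr
      | apply PCF.fst
      | apply PCF.snd
      | apply PCF.id
  exact PC.comp h (PCF.mk hu (PCF.mk hf hv))

variable {W : Om → Seq Om → Prop} (hW : PC (fun p : Om × Seq Om => W p.1 p.2))

include hW in
theorem PC.adm {u : X → Seq (ℕ → Bool)} {f : X → Seq Om} (hu : PCF u)
    (hf : PCF f) : PC (fun x => Adm W (u x) (f x)) := by
  unfold Adm
  refine PC.or (PC.not (PC.unb hu)) ?_
  exact PC.comp hW (PCF.mk (PCF.len hu) hf)

include hW in
theorem PC.next {x : X → ℕ → Bool} {u : X → Seq (ℕ → Bool)} {y : X → ℕ → Bool} (hx : PCF x)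
    (hu : PCF u) (hy : PCF y) : PC (fun p => Next W (x p) (u p) (y p)) := by
  have h : PC (fun p : (ℕ → Bool) × Seq (ℕ → Bool) × (ℕ → Bool) => Next W p.1 p.2.1 p.2.2) := by
    unfold Next
    repeat' with_reducible first
      | assumption
      | apply PC.and
      | apply PC.iff
      | apply PC.ex
      | apply PC.all
      | apply PC.imp
      | apply PC.eq
      | apply PC.adm
      | apply PC.codeOf
      | apply PCF.theta
      | apply PCF.fst
      | apply PCF.snd
      | apply PCF.id
  exact PC.comp h (PCF.mk hx (PCF.mk hu hy))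

include hW in
theorem PC.sx {x : X → ℕ → Bool} {l : X → Om} {y : X → ℕ → Bool} (hx : PCF x)
    (hl : PCF l) (hy : PCF y) : PC (fun p => Sx W (x p) (l p) (y p)) := by
  have h : PC (fun p : (ℕ → Bool) × Om × (ℕ → Bool) => Sx W p.1 p.2.1 p.2.2) := by
    unfold Sx Dec
    repeat' with_reducible first
      | assumption
      | apply PC.and
      | apply PC.iff
      | apply PC.ex
      | apply PC.all
      | apply PC.imp
      | apply PC.eq
      | apply PC.olt
      | apply PC.next
      | apply PCF.val
      | apply PCF.len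
      | apply PCF.restr
      | apply PCF.fst
      | apply PCF.snd
      | apply PCF.id
  exact PC.comp h (PCF.mk hx (PCF.mk hl hy))

end calculus

end PU
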