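import Mathlib

/-!
Definitions used in the statement: projective sets, sigma-ideals of Borel sets, the countable chain
condition for the associated ideal forcing, projective uniformization up to an ideal, the
constructible hierarchy.
-/

namespace PU

open MeasureTheory Set

/-! ### Projective sets -/

/-- `Sig n X A`: the subset `A` of `X` is of class Sigma^1_(n+1).  Sigma^1_1 sets are the analytic
sets, and a set is Sigma^1_(n+2) if it is the projection of a subset of `X × ω^ω` whose complement
is Sigma^1_(n+1). -/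
def Sig : ℕ → ∀ (X : Type) [TopologicalSpace X], Set X → Prop
  | 0, _, _, A => AnalyticSet A
  | n + 1, X, _, A => ∃ B : Set (X × (ℕ → ℕ)), Sig n (X × (ℕ → ℕ)) Bᶜ ∧ A = Prod.fst '' B

/-- Projective sets (boldface) of a Polish space. -/
def Projective {X : Type} [TopologicalSpace X] (A : Set X) : Prop := ∃ n, Sig n X A

/-! ### Ideals -/

/-- A sigma-ideal on the Borel subsets of `X` that contains every singleton. -/
structure SigmaIdeal (X : Type) [MeasurableSpace X] where
  /-- the Borel sets in the ideal -/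
  mem : Set X → Prop
  meas : ∀ A, mem A → MeasurableSet A
  singleton : ∀ x, mem {x}
  mono : ∀ A B, mem A → MeasurableSet B → B ⊆ A → mem B
  iUnion : ∀ A : ℕ → Set X, (∀ n, mem (A n)) → mem (⋃ n, A n)

/-- The forcing of Borel `I`-positive sets has the countable chain condition: every family of Borel
`I`-positive sets whose pairwise intersections lie in `I` is countable. -/
def CCC {X : Type} [MeasurableSpace X] (I : SigmaIdeal X) : Prop :=
  ∀ F : Set (Set X), (∀ A ∈ F, MeasurableSet A ∧ ¬ I.mem A) →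
    (F.Pairwise fun A B => I.mem (A ∩ B)) → F.Countable

/-- Projective uniformization up to `I`. -/
def ProjUnif {X : Type} [TopologicalSpace X] [MeasurableSpace X] (I : SigmaIdeal X) : Prop :=
  ∀ R : Set (X × X), Projective R → ∀ A : Set X, MeasurableSet A → ¬ I.mem A →
    ∃ B : Set X, B ⊆ A ∧ MeasurableSet B ∧ ¬ I.mem B ∧
      ((∀ x ∈ B, ∀ y, (x, y) ∉ R) ∨ ∃ f : X → X, Measurable f ∧ ∀ x ∈ B, (x, f x) ∈ R)

/-! ### The constructible hierarchy -/

/-- Formulas of the language of set theory; variables are natural numbers. -/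
inductive Fml
  | mem (i j : ℕ)
  | eq (i j : ℕ)
  | neg (φ : Fml)
  | and (φ ψ : Fml)
  | all (i : ℕ) (φ : Fml)

/-- Satisfaction of a formula in the structure `(M, E)` under the assignment `s`. -/
def Sat {U : Type*} (E : U → U → Prop) (M : Set U) : Fml → (ℕ → U) → Prop
  | .mem i j, s => E (s i) (s j)
  | .eq i j, s => s i = s j
  | .neg φ, s => ¬ Sat E M φ s
  | .and φ ψ, s => Sat E M φ s ∧ Sat E M ψ s
  | .all i φ, s => ∀ a ∈ M, Sat E M φ (Function.update s i a)

/-- The subsets of `M` definable over `(M, ∈)` by a formula with parameters in `M` (the variable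
`0` is the free variable, the other variables are parameters). -/
def DefSets (M : Set ZFSet.{0}) : Set ZFSet.{0} :=
  {x | ∃ (φ : Fml) (s : ℕ → ZFSet.{0}), (M.Nonempty → ∀ i, s i ∈ M) ∧
    ∀ z, z ∈ x ↔ z ∈ M ∧ Sat (fun a b => a ∈ b) M φ (Function.update s 0 z)}

/-- The level `L_α` of the constructible hierarchy: the union of `DefSets (L_β)` for `β < α`. -/
noncomputable def L (α : Ordinal.{0}) : Set ZFSet.{0} :=
  {x | ∃ β : Set.Iio α, x ∈ DefSets (L β.1)}
termination_by α
decreasing_by exact β.2

/-- The set of ordinals `S` has order type `γ`. -/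
def HasOrderType (S : Set Ordinal.{0}) (γ : Ordinal.{0}) : Prop :=
  ∃ f : Ordinal.{0} → Ordinal.{0}, StrictMonoOn f (Iio γ) ∧ f '' Iio γ = S

/-- `δ` is regular in the class `M`: it is a limit ordinal, and no element of `M` is an unbounded
subset of `δ` of order type less than `δ` (ordinals being identified with von Neumann ordinals). -/
def RegularIn (M : Set ZFSet.{0}) (δ : Ordinal.{0}) : Prop :=
  Order.IsSuccLimit δ ∧ ∀ (S : Set Ordinal.{0}) (x : ZFSet.{0}), x ∈ M → S ⊆ Iio δ →
    (∀ z, z ∈ x ↔ ∃ α ∈ S, z = α.toZFSet) → (∀ β < δ, ∃ α ∈ S, β ≤ α) →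
    ∀ γ < δ, ¬ HasOrderType S γ

/-- `C` is a closed unbounded subset of `ω₁`. -/
def IsClub (C : Set Ordinal.{0}) : Prop :=
  C ⊆ Iio (Ordinal.omega 1) ∧ (∀ α < Ordinal.omega 1, ∃ β ∈ C, α < β) ∧
    ∀ δ < Ordinal.omega 1, δ ≠ 0 → (∀ α < δ, ∃ β ∈ C, α < β ∧ β < δ) → δ ∈ C

/-- `ω₁` is not Mahlo in `L`: some club of `ω₁` has no element that is regular in `L_{ω₁}`. -/
def NonMahlo : Prop := ∃ C, IsClub C ∧ ∀ δ ∈ C, ¬ RegularIn (L (Ordinal.omega 1)) δ

end PU
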