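import Pool.Agent.PU.LPc

/-!
PU LWIT: constructible singularity witnesses.

PROOF of `witData_WL`.  `len`, `val`, `cof` are parts of `Wit`.
`ctb`: if `WL a f` and `WL a f'`, the two levels `β` agree (each is the least `β` such that
`∃ f, Wit a f ∧ InL β f`).  So (if nonempty) `{f | WL a f} ⊆ {f | Wit a f ∧ InL β f}` for one `β`.
The map `f ↦ x ∈ L β` (the ZFSet with `z ∈ x ↔ ∃ ξ < f.len, z = (f.val ξ).1.toZFSet`) is injective on
this set: equal `x` gives equal sets `{f.val ξ | ξ < f.len}` (`Ordinal.toZFSet_injective`), and two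
strictly increasing sequences with the same range are equal (strong induction on `ξ`:
`f.val ξ` and `f'.val ξ` are both the least element of the common range above all previous ones;
and the lengths agree).  `L β` is countable by `L_countable`.
`ne`: assume `∃ b, b < a` and `∀ b < a, ∃ ν ∈ E, b < ν < a` with `E = {α | α.1 ∈ C}`.  By closedness
`a.1 ∈ C` (elements of `Iio a.1` are in `Om`), so `¬ RegularIn (L ω₁) a.1`.  `a.1` is a limit ordinal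
(nonzero, and for `b < a` there is `ν` with `b < ν < a`), so there are `S`, `x ∈ L ω₁` with
`S ⊆ Iio a`, `z ∈ x ↔ ∃ α ∈ S, z = α.toZFSet`, `S` unbounded in `a`, and `γ < a` with
`HasOrderType S γ`, i.e. a map `g` strictly increasing on `Iio γ` with `g '' Iio γ = S`.  Let
`f : Seq Om` have length `γ` and values `g ξ` (`g ξ ∈ S ⊆ Iio a`, so it is in `Om`).  Then `Wit a f`.
`x ∈ L ω₁` so by `mem_L_iff` `x ∈ DefSets (L β₀)` for some `β₀ < ω₁`, so `x ∈ L (β₀ + 1)` and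
`β₀ + 1 < ω₁`; hence `InL ⟨β₀ + 1, _⟩ f`.  Take the least `β : Om` such that
`∃ f', Wit a f' ∧ InL β f'` and such an `f'`: `WL a f'`.
-/

namespace PU

open MeasureTheory Set

private theorem enum_aux {f g : Seq Om}
    (hf : ∀ ξ ξ', ξ < ξ' → ξ' < f.len → f.val ξ < f.val ξ')
    (hg : ∀ ξ ξ', ξ < ξ' → ξ' < g.len → g.val ξ < g.val ξ')
    (hfg : ∀ ξ, ξ < f.len → ∃ ξ', ξ' < g.len ∧ g.val ξ' = f.val ξ)
    (hgf : ∀ ξ, ξ < g.len → ∃ ξ', ξ' < f.len ∧ f.val ξ' = g.val ξ) (ξ : Om) :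
    (ξ < f.len → ξ < g.len ∧ f.val ξ = g.val ξ) ∧
      (ξ < g.len → ξ < f.len ∧ g.val ξ = f.val ξ) := by
  have hf' : ∀ ξ ξ', ξ ≤ ξ' → ξ' < f.len → f.val ξ ≤ f.val ξ' := by
    intro a b hab hb
    rcases lt_or_eq_of_le hab with h | h
    · exact (hf a b h hb).le
    · rw [h]
  have hg' : ∀ ξ ξ', ξ ≤ ξ' → ξ' < g.len → g.val ξ ≤ g.val ξ' := by
    intro a b hab hb
    rcases lt_or_eq_of_le hab with h | h
    · exact (hg a b h hb).le
    · rw [h]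
  induction ξ using WellFoundedLT.induction with
  | ind ξ ih =>
    have k1 : ξ < f.len → ∃ ξ', ξ ≤ ξ' ∧ ξ' < g.len ∧ g.val ξ' = f.val ξ := by
      intro h1
      obtain ⟨ξ', h2, h3⟩ := hfg ξ h1
      refine ⟨ξ', ?_, h2, h3⟩
      by_contra h4
      have h4' : ξ' < ξ := not_le.1 h4
      obtain ⟨h5, h6⟩ := (ih ξ' h4').2 h2
      have h7 := hf ξ' ξ h4' h1
      rw [← h6, h3] at h7
      exact lt_irrefl _ h7
    have k2 : ξ < g.len → ∃ ξ', ξ ≤ ξ' ∧ ξ' < f.len ∧ f.val ξ' = g.val ξ := by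
      intro h1
      obtain ⟨ξ', h2, h3⟩ := hgf ξ h1
      refine ⟨ξ', ?_, h2, h3⟩
      by_contra h4
      have h4' : ξ' < ξ := not_le.1 h4
      obtain ⟨h5, h6⟩ := (ih ξ' h4').1 h2
      have h7 := hg ξ' ξ h4' h1
      rw [← h6, h3] at h7
      exact lt_irrefl _ h7
    constructor
    · intro h1
      obtain ⟨ξ', h2, h3, h4⟩ := k1 h1
      have h5 : ξ < g.len := lt_of_le_of_lt h2 h3
      obtain ⟨ξ'', h6, h7, h8⟩ := k2 h5
      refine ⟨h5, le_antisymm ?_ ?_⟩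
      · rw [← h8]; exact hf' ξ ξ'' h6 h7
      · rw [← h4]; exact hg' ξ ξ' h2 h3
    · intro h1
      obtain ⟨ξ', h2, h3, h4⟩ := k2 h1
      have h5 : ξ < f.len := lt_of_le_of_lt h2 h3
      obtain ⟨ξ'', h6, h7, h8⟩ := k1 h5
      refine ⟨h5, le_antisymm ?_ ?_⟩
      · rw [← h8]; exact hg' ξ ξ'' h6 h7
      · rw [← h4]; exact hf' ξ ξ' h2 h3

private theorem enum_unique {f g : Seq Om}
    (hf : ∀ ξ ξ', ξ < ξ' → ξ' < f.len → f.val ξ < f.val ξ')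
    (hg : ∀ ξ ξ', ξ < ξ' → ξ' < g.len → g.val ξ < g.val ξ')
    (hfg : ∀ ξ, ξ < f.len → ∃ ξ', ξ' < g.len ∧ g.val ξ' = f.val ξ)
    (hgf : ∀ ξ, ξ < g.len → ∃ ξ', ξ' < f.len ∧ f.val ξ' = g.val ξ) : f = g := by
  have h := enum_aux hf hg hfg hgf
  have hl : f.len = g.len := by
    refine le_antisymm ?_ ?_
    · by_contra h1
      exact lt_irrefl _ ((h g.len).1 (not_le.1 h1)).1
    · by_contra h1
      exact lt_irrefl _ ((h f.len).2 (not_le.1 h1)).1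
  exact Seq.ext' hl fun α hα => ((h α).1 hα).2

private theorem range_of_inL {f g : Seq Om} {x : ZFSet.{0}}
    (hf : ∀ z, z ∈ x ↔ ∃ ξ, ξ < f.len ∧ z = (f.val ξ).1.toZFSet)
    (hg : ∀ z, z ∈ x ↔ ∃ ξ, ξ < g.len ∧ z = (g.val ξ).1.toZFSet) :
    ∀ ξ, ξ < f.len → ∃ ξ', ξ' < g.len ∧ g.val ξ' = f.val ξ := by
  intro ξ h
  obtain ⟨ξ', h1, h2⟩ := (hg _).1 ((hf _).2 ⟨ξ, h, rfl⟩)
  exact ⟨ξ', h1, Subtype.ext (Ordinal.toZFSet_injective h2.symm)⟩

private theorem ctb_wit (a β : Om) : {f : Seq Om | Wit a f ∧ InL β f}.Countable := by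
  classical
  have hex : ∀ f : Seq Om, InL β f → ∃ x, x ∈ L β.1 ∧
      ∀ z, z ∈ x ↔ ∃ ξ, ξ < f.len ∧ z = (f.val ξ).1.toZFSet := fun f h => h
  let Φ : Seq Om → ZFSet.{0} := fun f => if h : InL β f then (hex f h).choose else ∅
  have hΦ : ∀ f, InL β f → Φ f ∈ L β.1 ∧
      ∀ z, z ∈ Φ f ↔ ∃ ξ, ξ < f.len ∧ z = (f.val ξ).1.toZFSet := by
    intro f h
    have e : Φ f = (hex f h).choose := dif_pos h
    rw [e]
    exact (hex f h).choose_spec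
  refine Set.MapsTo.countable_of_injOn (f := Φ) (t := L β.1) (fun f hf => (hΦ f hf.2).1) ?_
    (L_countable β)
  intro f hf g hg hfg
  have h1 := (hΦ f hf.2).2
  have h2 := (hΦ g hg.2).2
  rw [← hfg] at h2
  exact enum_unique hf.1.2.2.1 hg.1.2.2.1 (range_of_inL h1 h2) (range_of_inL h2 h1)

private theorem exists_wit {a : Om} (hlim : Order.IsSuccLimit a.1)
    (hreg : ¬ RegularIn (L (Ordinal.omega 1)) a.1) : ∃ f β, Wit a f ∧ InL β f := by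
  unfold RegularIn at hreg
  push Not at hreg
  obtain ⟨S, x, hx, hS, hxS, hunb, γ, hγ, g, hmono, himg⟩ := hreg hlim
  have hgS : ∀ ξ : Ordinal.{0}, ξ < γ → g ξ ∈ S := fun ξ hξ => himg ▸ ⟨ξ, hξ, rfl⟩
  have hga : ∀ ξ : Ordinal.{0}, ξ < γ → g ξ < a.1 := fun ξ hξ => hS (hgS ξ hξ)
  classical
  let f : Seq Om :=
    { len := ⟨γ, hγ.trans a.2⟩
      val := fun ξ => if h : ξ.1 < γ then ⟨g ξ.1, (hga ξ.1 h).trans a.2⟩ else default
      out := fun ξ hξ => dif_neg (not_lt.2 hξ) }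
  have hval : ∀ ξ : Om, ξ.1 < γ → (f.val ξ).1 = g ξ.1 := by
    intro ξ hξ
    show (if h : ξ.1 < γ then (⟨g ξ.1, (hga ξ.1 h).trans a.2⟩ : Om) else default).1 = g ξ.1
    rw [dif_pos hξ]
  have hlen : ∀ ξ : Om, ξ < f.len ↔ ξ.1 < γ := fun ξ => Iff.rfl
  obtain ⟨β₀, hβ₀, hxβ⟩ := mem_L_iff.1 hx
  refine ⟨f, ⟨Order.succ β₀, (Cardinal.isSuccLimit_omega 1).succ_lt hβ₀⟩,
    ⟨hγ, fun ξ hξ => ?_, fun ξ ξ' hξ hξ' => ?_, fun η hη => ?_⟩, ?_⟩
  · show (f.val ξ).1 < a.1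
    rw [hval ξ hξ]
    exact hga ξ.1 hξ
  · show (f.val ξ).1 < (f.val ξ').1
    have h1 : ξ.1 < ξ'.1 := hξ
    have h2 : ξ'.1 < γ := hξ'
    rw [hval ξ (h1.trans h2), hval ξ' h2]
    exact hmono (h1.trans h2) h2 h1
  · obtain ⟨α, hα, hle⟩ := hunb η.1 hη
    rw [← himg] at hα
    obtain ⟨ξ, hξ, rfl⟩ := hα
    have hξ' : ξ < γ := hξ
    refine ⟨⟨ξ, (hξ'.trans hγ).trans a.2⟩, hξ', ?_⟩
    show η.1 ≤ (f.val ⟨ξ, (hξ'.trans hγ).trans a.2⟩).1
    rw [hval _ hξ']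
    exact hle
  · refine ⟨x, mem_L_iff.2 ⟨β₀, Order.lt_succ β₀, hxβ⟩, fun z => ?_⟩
    rw [hxS z]
    constructor
    · rintro ⟨α, hα, rfl⟩
      rw [← himg] at hα
      obtain ⟨ξ, hξ, rfl⟩ := hα
      have hξ' : ξ < γ := hξ
      refine ⟨⟨ξ, (hξ'.trans hγ).trans a.2⟩, hξ', ?_⟩
      rw [hval _ hξ']
    · rintro ⟨ξ, hξ, rfl⟩
      have hξ' : ξ.1 < γ := hξ
      refine ⟨g ξ.1, hgS ξ.1 hξ', ?_⟩
      rw [hval ξ hξ']

theorem witData_WL {C : Set Ordinal.{0}} (hC : IsClub C)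
    (h : ∀ δ ∈ C, ¬ RegularIn (L (Ordinal.omega 1)) δ) : WitData WL {α : Om | α.1 ∈ C} where
  len a f hf := hf.1.1
  val a f hf := hf.1.2.1
  cof a f hf := hf.1.2.2.2
  ctb a := by
    by_cases hn : ∃ f, WL a f
    · obtain ⟨f₀, hW₀, β₀, hI₀, hmin₀⟩ := hn
      refine (ctb_wit a β₀).mono ?_
      rintro f ⟨hW, β, hI, hmin⟩
      refine ⟨hW, ?_⟩
      rcases lt_trichotomy β β₀ with h1 | h1 | h1
      · exact absurd hI (hmin₀ β h1 f hW)
      · rw [← h1]; exact hI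
      · exact absurd hI₀ (hmin β₀ h1 f₀ hW₀)
    · have : {f | WL a f} = ∅ := by
        ext f
        simp only [Set.mem_ofPred_eq, Set.mem_empty_iff_false, iff_false]
        exact fun h1 => hn ⟨f, h1⟩
      rw [this]
      exact Set.countable_empty
  ne a hne hun := by
    have hun' : ∀ b : Ordinal.{0}, b < a.1 → ∃ ν ∈ C, b < ν ∧ ν < a.1 := by
      intro b hb
      obtain ⟨ν, h1, h2, h3⟩ := hun ⟨b, hb.trans a.2⟩ hb
      exact ⟨ν.1, h1, h2, h3⟩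
    have hne0 : a.1 ≠ 0 := by
      obtain ⟨b, hb⟩ := hne
      have hb' : b.1 < a.1 := hb
      intro h0
      rw [h0] at hb'
      exact absurd hb' not_lt_bot
    have haC : a.1 ∈ C := hC.2.2 a.1 a.2 hne0 hun'
    have hlim : Order.IsSuccLimit a.1 := by
      refine ⟨fun hm => ?_, fun b hb => ?_⟩
      · obtain ⟨b, hb⟩ := hne
        have hb' : b.1 < a.1 := hb
        exact absurd (hm hb'.le) (not_le.2 hb')
      · obtain ⟨ν, _, h2, h3⟩ := hun' b hb.lt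
        exact hb.2 h2 h3
    obtain ⟨f, β, hW, hI⟩ := exists_wit hlim (h a.1 haC)
    obtain ⟨β₁, ⟨f₁, hW₁, hI₁⟩, hmin⟩ := WellFounded.has_min (wellFounded_lt (α := Om))
      {β | ∃ f, Wit a f ∧ InL β f} ⟨β, f, hW, hI⟩
    exact ⟨f₁, hW₁, β₁, hI₁, fun β' h1 f' h2 h3 => hmin β' ⟨f', h2, h3⟩ h1⟩

end PU
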