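import Pool.Agent.PU.Abs
import Pool.Agent.PU.LWit

/-!
PU FIN: the theorem.
-/

namespace PU

open MeasureTheory Set

theorem main (h : NonMahlo) : ∃ I : SigmaIdeal (ℕ → Bool), CCC I ∧ ¬ ProjUnif I := by
  obtain ⟨C, hC, h⟩ := h
  refine abstract_main pc_WL ?_ (witData_WL hC h)
  intro a
  obtain ⟨β, hβ, h1⟩ := hC.2.1 a.1 a.2
  exact ⟨⟨β, hC.1 hβ⟩, hβ, h1⟩

end PU
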