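import Pool.Agent.PU.LDefs

/-!
PU LCOL: the collapse of a coded level.

PROOF.  Unfolding of `L`: `z ∈ L α ↔ ∃ γ < α, z ∈ DefSets (L γ)` (prove this first, with
`rw [L]`/`unfold L`).  Let `(E, ρ)` satisfy `LCode β E ρ`; call `a` an element if `¬ cd E a a`.  If
`a` is an element and `cd E b a` then `b` is an element and `ρ b < ρ a` (clause 2).  Define
`π : ℕ → ZFSet` by well-founded recursion on `ρ a` (or on the relation `ρ b < ρ a`):
for an element `a`, `π a` is the ZFSet whose elements are the `π b` with `cd E b a` (use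
`ZFSet.range`/`ZFSet.image` over the countable type `{b // cd E b a}`; `ZFSet.range (f : ι → ZFSet)`
with `ι : Type 0` small), `π a = ∅` otherwise.
By induction on `γ ≤ β` show
(a) `π` is injective on `lset E ρ γ`, and for `a`, `b ∈ lset E ρ γ`: `π a ∈ π b ↔ cd E a b`;
(b) `z ∈ L γ ↔ ∃ a ∈ lset E ρ γ, π a = z`.
Suppose this for all smaller ordinals.
(a): let `a, b ∈ lset E ρ γ` with `π a = π b`, and put `δ = max (ρ a) (ρ b) < γ`.  The elements of `a`
and of `b` lie in `lset E ρ δ`, on which `π` is injective; so `cd E c a ↔ cd E c b` (if `cd E c a`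
then `π c ∈ π a = π b`, so `π c = π c'` with `cd E c' b`, so `c = c'`), whence `a = b` by clause 4.
If `π a ∈ π b` then `π a = π c` with `cd E c b`, and `a = c` by the injectivity just shown.
(b) (⊇): let `a ∈ lset E ρ γ`, `δ = ρ a < γ`.  By clause 2 the set of elements of `a` is the set of
`b ∈ lset E ρ δ` with `Sat (cd E) (lset E ρ δ) φ (update s 0 b)`.  By (a), (b) for `δ` and `sat_iso`
(applied with `s` replaced by `update s 0 b`, whose values are in `lset E ρ δ`),
`π a = {π b | ...}` is in `DefSets (L δ)` with the same `φ` and parameters `π ∘ s` (if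
`lset E ρ δ` is empty, `L δ` is empty and everything is trivial).
(⊆): let `z ∈ DefSets (L δ)`, `δ < γ`, defined by `φ`, `t`; if `L δ` is nonempty choose
`s i ∈ lset E ρ δ` with `π (s i) = t i`, otherwise `s` arbitrary; clause 3 (`δ < γ ≤ β`) gives an
element `a` with `ρ a ≤ δ` whose elements are the `b ∈ lset E ρ δ` satisfying `φ`; then
`π a = z` by `sat_iso` and extensionality.
Finally every element lies in `lset E ρ β` (clause 1), so the case `γ = β` is the claim.
-/

namespace PU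

open MeasureTheory Set

theorem mem_L_iff {α : Ordinal.{0}} {z : ZFSet.{0}} : z ∈ L α ↔ ∃ γ, γ < α ∧ z ∈ DefSets (L γ) := by
  rw [L]
  constructor
  · rintro ⟨β, h⟩
    exact ⟨β.1, β.2, h⟩
  · rintro ⟨γ, hγ, h⟩
    exact ⟨⟨γ, hγ⟩, h⟩

theorem mem_L_om_iff {γ : Om} {z : ZFSet.{0}} :
    z ∈ L γ.1 ↔ ∃ δ : Om, δ < γ ∧ z ∈ DefSets (L δ.1) := by
  rw [mem_L_iff]
  constructor
  · rintro ⟨δ, hδ, h⟩
    exact ⟨⟨δ, hδ.trans γ.2⟩, hδ, h⟩
  · rintro ⟨δ, hδ, h⟩
    exact ⟨δ.1, hδ, h⟩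

theorem update_mem {U : Type*} {M : Set U} {s : ℕ → U} (hs : ∀ i, s i ∈ M) {b : U} (hb : b ∈ M)
    (j : ℕ) : ∀ i, Function.update s j b i ∈ M := by
  intro i
  by_cases h : i = j
  · subst h
    rw [Function.update_self]
    exact hb
  · rw [Function.update_of_ne h]
    exact hs i

theorem comp_update' {U V : Type*} (π : U → V) (s : ℕ → U) (j : ℕ) (b : U) :
    (fun i => π (Function.update s j b i)) = Function.update (fun i => π (s i)) j (π b) := by
  funext i
  by_cases h : i = j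
  · subst h
    rw [Function.update_self, Function.update_self]
  · rw [Function.update_of_ne h, Function.update_of_ne h]

theorem LCode.collapse {β : Om} {E : ℕ → Bool} {ρ : ℕ → Om} (h : LCode β E ρ) :
    ∃ π, IsCollapse β E π := by
  classical
  obtain ⟨c1, c2, c3, c4⟩ := h
  have helt : ∀ a b, ¬ cd E a a → cd E b a → b ∈ lset E ρ (ρ a) := by
    intro a b ha hb
    obtain ⟨φ, s, -, h2⟩ := c2 a ha
    exact ((h2 b).1 hb).1
  have hwf : WellFounded (fun b a : ℕ => ¬ cd E a a ∧ cd E b a) := by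
    refine Subrelation.wf (r := fun b a : ℕ => ρ b < ρ a) ?_ (InvImage.wf ρ wellFounded_lt)
    rintro b a ⟨ha, hb⟩
    exact (helt a b ha hb).2
  let π : ℕ → ZFSet.{0} := hwf.fix (fun a ih =>
    ZFSet.range (fun b : {b : ℕ // ¬ cd E a a ∧ cd E b a} => ih b.1 b.2))
  have hπ : ∀ a, ¬ cd E a a → ∀ z, z ∈ π a ↔ ∃ b, cd E b a ∧ π b = z := by
    intro a ha z
    have h1 : π a = ZFSet.range (fun b : {b : ℕ // ¬ cd E a a ∧ cd E b a} => π b.1) :=
      hwf.fix_eq _ a
    rw [h1, ZFSet.mem_range]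
    constructor
    · rintro ⟨b, hb⟩
      exact ⟨b.1, b.2.2, hb⟩
    · rintro ⟨b, hb, hz⟩
      exact ⟨⟨b, ha, hb⟩, hz⟩
  have hsub : ∀ {γ δ : Om}, γ ≤ δ → lset E ρ γ ⊆ lset E ρ δ := by
    intro γ δ hle b hb
    exact ⟨hb.1, lt_of_lt_of_le hb.2 hle⟩
  -- membership from injectivity
  have hmem : ∀ γ : Om, (∀ a ∈ lset E ρ γ, ∀ b ∈ lset E ρ γ, π a = π b → a = b) →
      ∀ a ∈ lset E ρ γ, ∀ b ∈ lset E ρ γ, (π a ∈ π b ↔ cd E a b) := by
    intro γ hinj a ha b hb
    rw [hπ b hb.1]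
    constructor
    · rintro ⟨c, hc, hca⟩
      have h1 : c ∈ lset E ρ γ := hsub hb.2.le (helt b c hb.1 hc)
      rwa [← hinj c h1 a ha hca]
    · intro hab
      exact ⟨a, hab, rfl⟩
  have main : ∀ γ : Om, γ ≤ β → (∀ a ∈ lset E ρ γ, ∀ b ∈ lset E ρ γ, π a = π b → a = b) ∧
      ∀ z, z ∈ L γ.1 ↔ ∃ a ∈ lset E ρ γ, π a = z := by
    intro γ
    induction γ using WellFoundedLT.induction with
    | ind γ ih =>
      intro hγ
      -- the isomorphism at smaller levels
      have hiso : ∀ δ : Om, δ < γ → ∀ (φ : Fml) (s : ℕ → ℕ), (∀ i, s i ∈ lset E ρ δ) →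
          (Sat (fun a b => a ∈ b) (L δ.1) φ (fun i => π (s i)) ↔
            Sat (cd E) (lset E ρ δ) φ s) := by
        intro δ hδ φ s hs
        obtain ⟨i1, i2⟩ := ih δ hδ (hδ.le.trans hγ)
        refine sat_iso π (fun a ha => (i2 _).2 ⟨a, ha, rfl⟩) (fun b hb => ?_) (hmem δ i1) i1 φ s hs
        obtain ⟨a, ha, hab⟩ := (i2 b).1 hb
        exact ⟨a, ha, hab⟩
      refine ⟨?_, ?_⟩
      · intro a ha b hb hab
        have hδ : max (ρ a) (ρ b) < γ := max_lt ha.2 hb.2
        obtain ⟨i1, -⟩ := ih _ hδ (hδ.le.trans hγ)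
        apply c4 a b ha.1 hb.1
        intro c
        constructor
        · intro hc
          have h1 : π c ∈ π b := by
            rw [← hab, hπ a ha.1]
            exact ⟨c, hc, rfl⟩
          obtain ⟨c', hc', hcc⟩ := (hπ b hb.1 _).1 h1
          have h2 := hsub (le_max_left (ρ a) (ρ b)) (helt a c ha.1 hc)
          have h3 := hsub (le_max_right (ρ a) (ρ b)) (helt b c' hb.1 hc')
          rwa [← i1 c' h3 c h2 hcc]
        · intro hc
          have h1 : π c ∈ π a := by
            rw [hab, hπ b hb.1]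
            exact ⟨c, hc, rfl⟩
          obtain ⟨c', hc', hcc⟩ := (hπ a ha.1 _).1 h1
          have h2 := hsub (le_max_right (ρ a) (ρ b)) (helt b c hb.1 hc)
          have h3 := hsub (le_max_left (ρ a) (ρ b)) (helt a c' ha.1 hc')
          rwa [← i1 c' h3 c h2 hcc]
      · intro z
        rw [mem_L_om_iff]
        constructor
        · rintro ⟨δ, hδ, φ, t, ht, hz⟩
          obtain ⟨i1, i2⟩ := ih δ hδ (hδ.le.trans hγ)
          obtain ⟨s, hs1, hs2⟩ : ∃ s : ℕ → ℕ, ((lset E ρ δ).Nonempty → ∀ i, s i ∈ lset E ρ δ) ∧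
              ((lset E ρ δ).Nonempty → ∀ i, π (s i) = t i) := by
            by_cases hne : (L δ.1).Nonempty
            · have h1 : ∀ i, ∃ a ∈ lset E ρ δ, π a = t i := fun i => (i2 (t i)).1 (ht hne i)
              choose s hs1 hs2 using h1
              exact ⟨s, fun _ => hs1, fun _ => hs2⟩
            · refine ⟨fun _ => 0, fun h => absurd ?_ hne, fun h => absurd ?_ hne⟩
              · obtain ⟨a, ha⟩ := h
                exact ⟨π a, (i2 _).2 ⟨a, ha, rfl⟩⟩
              · obtain ⟨a, ha⟩ := h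
                exact ⟨π a, (i2 _).2 ⟨a, ha, rfl⟩⟩
          obtain ⟨a, ha1, ha2, ha3⟩ := c3 δ (lt_of_lt_of_le hδ hγ) φ s hs1
          refine ⟨a, ⟨ha1, lt_of_le_of_lt ha2 hδ⟩, ?_⟩
          apply ZFSet.ext
          intro w
          rw [hπ a ha1, hz]
          constructor
          · rintro ⟨b, hb, rfl⟩
            obtain ⟨hb1, hb2⟩ := (ha3 b).1 hb
            have hne : (lset E ρ δ).Nonempty := ⟨b, hb1⟩
            refine ⟨(i2 _).2 ⟨b, hb1, rfl⟩, ?_⟩
            have h2 := (hiso δ hδ φ _ (update_mem (hs1 hne) hb1 0)).2 hb2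
            rw [comp_update'] at h2
            have h3 : (fun i => π (s i)) = t := funext (hs2 hne)
            rwa [h3] at h2
          · rintro ⟨hw1, hw2⟩
            obtain ⟨b, hb1, rfl⟩ := (i2 w).1 hw1
            have hne : (lset E ρ δ).Nonempty := ⟨b, hb1⟩
            refine ⟨b, (ha3 b).2 ⟨hb1, ?_⟩, rfl⟩
            refine (hiso δ hδ φ _ (update_mem (hs1 hne) hb1 0)).1 ?_
            rw [comp_update']
            have h3 : (fun i => π (s i)) = t := funext (hs2 hne)
            rwa [h3]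
        · rintro ⟨a, ha, rfl⟩
          obtain ⟨φ, s, hs1, hs2⟩ := c2 a ha.1
          obtain ⟨i1, i2⟩ := ih (ρ a) ha.2 (ha.2.le.trans hγ)
          refine ⟨ρ a, ha.2, φ, fun i => π (s i), ?_, ?_⟩
          · rintro ⟨y, hy⟩ i
            obtain ⟨b, hb, -⟩ := (i2 y).1 hy
            exact (i2 _).2 ⟨s i, hs1 ⟨b, hb⟩ i, rfl⟩
          · intro w
            rw [hπ a ha.1]
            constructor
            · rintro ⟨b, hb, rfl⟩
              obtain ⟨hb1, hb2⟩ := (hs2 b).1 hb
              have hne : (lset E ρ (ρ a)).Nonempty := ⟨b, hb1⟩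
              refine ⟨(i2 _).2 ⟨b, hb1, rfl⟩, ?_⟩
              have h2 := (hiso (ρ a) ha.2 φ _ (update_mem (hs1 hne) hb1 0)).2 hb2
              rwa [comp_update'] at h2
            · rintro ⟨hw1, hw2⟩
              obtain ⟨b, hb1, rfl⟩ := (i2 w).1 hw1
              have hne : (lset E ρ (ρ a)).Nonempty := ⟨b, hb1⟩
              refine ⟨b, (hs2 b).2 ⟨hb1, ?_⟩, rfl⟩
              refine (hiso (ρ a) ha.2 φ _ (update_mem (hs1 hne) hb1 0)).1 ?_
              rw [comp_update']
              exact hw2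
  obtain ⟨m1, m2⟩ := main β le_rfl
  have hdom : ∀ a, ¬ cd E a a → a ∈ lset E ρ β := fun a ha => ⟨ha, c1 a ha⟩
  refine ⟨π, fun a b ha hb => hmem β m1 a (hdom a ha) b (hdom b hb),
    fun a b ha hb => m1 a (hdom a ha) b (hdom b hb), fun z => ?_⟩
  rw [m2 z]
  constructor
  · rintro ⟨a, ha, hz⟩
    exact ⟨a, ha.1, hz⟩
  · rintro ⟨a, ha, hz⟩
    exact ⟨a, hdom a ha, hz⟩

end PU
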