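import Pool.Agent.PU.SeqR

/-!
PU LDEFS: coded levels of the constructible hierarchy (definitions only).
-/

namespace PU

open MeasureTheory Set

/-- elements of the coded level of rank below `γ` -/
def lset (E : ℕ → Bool) (ρ : ℕ → Om) (γ : Om) : Set ℕ := {b | ¬ cd E b b ∧ ρ b < γ}

/-- `(E, ρ)` codes the level `L_β`: the domain is the set of `a` with `¬ cd E a a`, the relation
`cd E` is membership, and `ρ a` is an index `γ < β` such that the set coded by `a` is in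
`DefSets (L_γ)`. -/
def LCode (β : Om) (E : ℕ → Bool) (ρ : ℕ → Om) : Prop :=
  (∀ a, ¬ cd E a a → ρ a < β) ∧
  (∀ a, ¬ cd E a a → ∃ (φ : Fml) (s : ℕ → ℕ),
    ((lset E ρ (ρ a)).Nonempty → ∀ i, s i ∈ lset E ρ (ρ a)) ∧
    ∀ b, cd E b a ↔ b ∈ lset E ρ (ρ a) ∧ Sat (cd E) (lset E ρ (ρ a)) φ (Function.update s 0 b)) ∧
  (∀ γ, γ < β → ∀ (φ : Fml) (s : ℕ → ℕ),
    ((lset E ρ γ).Nonempty → ∀ i, s i ∈ lset E ρ γ) → ∃ a, ¬ cd E a a ∧ ρ a ≤ γ ∧
    ∀ b, cd E b a ↔ b ∈ lset E ρ γ ∧ Sat (cd E) (lset E ρ γ) φ (Function.update s 0 b)) ∧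
  (∀ a a', ¬ cd E a a → ¬ cd E a' a' → (∀ b, cd E b a ↔ cd E b a') → a = a')

/-- the collapse map of a coded level -/
def IsCollapse (β : Om) (E : ℕ → Bool) (π : ℕ → ZFSet.{0}) : Prop :=
  (∀ a b, ¬ cd E a a → ¬ cd E b b → (π a ∈ π b ↔ cd E a b)) ∧
  (∀ a b, ¬ cd E a a → ¬ cd E b b → π a = π b → a = b) ∧
  (∀ z, z ∈ L β.1 ↔ ∃ a, ¬ cd E a a ∧ π a = z)

/-- `b` codes the von Neumann ordinal `α` in the coded level `E` -/
def VN (E : ℕ → Bool) (b : ℕ) (α : Om) : Prop :=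
  ∃ h : Seq ℕ, α < h.len ∧ (∀ ξ, ξ ≤ α → ¬ cd E (h.val ξ) (h.val ξ) ∧
    ∀ b', cd E b' (h.val ξ) ↔ ∃ ξ', ξ' < ξ ∧ h.val ξ' = b') ∧ h.val α = b

/-- the range of the sequence of ordinals `f` is (as a set of von Neumann ordinals) in `L_β` -/
def InL (β : Om) (f : Seq Om) : Prop :=
  ∃ x ∈ L β.1, ∀ z, z ∈ x ↔ ∃ ξ, ξ < f.len ∧ z = (f.val ξ).1.toZFSet

/-- transfer of satisfaction along an isomorphism -/
theorem sat_iso {U V : Type*} {E : U → U → Prop} {F : V → V → Prop} {M : Set U} {N : Set V}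
    (π : U → V) (h1 : ∀ a ∈ M, π a ∈ N) (h2 : ∀ b ∈ N, ∃ a ∈ M, π a = b)
    (h3 : ∀ a ∈ M, ∀ b ∈ M, (F (π a) (π b) ↔ E a b))
    (h4 : ∀ a ∈ M, ∀ b ∈ M, π a = π b → a = b) (φ : Fml) :
    ∀ s : ℕ → U, (∀ i, s i ∈ M) → (Sat F N φ (fun i => π (s i)) ↔ Sat E M φ s) := by
  induction φ with
  | mem i j => intro s hs; exact h3 _ (hs i) _ (hs j)
  | eq i j => intro s hs; exact ⟨fun h => h4 _ (hs i) _ (hs j) h, fun h => congrArg π h⟩
  | neg φ ih => intro s hs; exact not_congr (ih s hs)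
  | and φ ψ ih ih' => intro s hs; exact and_congr (ih s hs) (ih' s hs)
  | all i φ ih =>
    intro s hs
    have key : ∀ a ∈ M, (Sat F N φ (Function.update (fun i => π (s i)) i (π a)) ↔
        Sat E M φ (Function.update s i a)) := by
      intro a ha
      rw [← ih (Function.update s i a) (fun k => by
        by_cases hk : k = i
        · subst hk; simpa using ha
        · simpa [Function.update_of_ne hk] using hs k)]
      have : Function.update (fun i => π (s i)) i (π a) = fun k => π (Function.update s i a k) := by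
        funext k
        by_cases hk : k = i
        · subst hk; simp
        · simp [Function.update_of_ne hk]
      rw [this]
    constructor
    · intro h a ha
      exact (key a ha).1 (h _ (h1 a ha))
    · intro h b hb
      obtain ⟨a, ha, rfl⟩ := h2 b hb
      exact (key a ha).2 (h a ha)

end PU
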