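import Pool.Agent.PU.LCol

/-!
PU LEX: basic facts on the constructible levels; existence of codes.

PROOFS.
`L_mono`: from `mem_L_iff`.
`L_transitive`: if `x ∈ L α` then `x ∈ DefSets (L γ)` for some `γ < α`, so `y ∈ x` implies
`y ∈ L γ ⊆ L α`.
`sat_congr`: satisfaction of `φ` depends only on the values of the assignment at `i < n` for a
suitable `n` (depending on `φ`); induction on `φ` (`all i φ`: `update`).
`L_countable`: by strong induction on `β`: `L β` is the countable union over `γ < β` of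
`DefSets (L γ)`, and `DefSets M` is countable for countable `M`: by `sat_congr` the set defined by
`(φ, s)` is also defined by `(φ, s')` for any `s'` agreeing with `s` below `n φ`; so
`DefSets M` is the image of a countable set (`Fml` is countable - give an injection into `List ℕ`
or use an enumeration - times finite sequences of elements of `M`, extended by their first entry
or by a fixed element of `M`; for `M` empty `DefSets M ⊆ {∅}`).
`fml_enum`: `Fml` is countable and nonempty (e.g. recursive injection into `ℕ` by `Nat.pair`).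
`exists_lcode`: let `ι : L β.1 → ℕ` be injective.  Put `cd E m n` iff
(`m = ι x`, `n = ι y`, `x ∈ y` for some `x y`) or (`m = n` and `m ∉ range ι`)
(`E k = decide (.. k.unpair.1 .. k.unpair.2 ..)`); as `x ∉ x` (`ZFSet.mem_irrefl`), `¬ cd E n n` iff
`n ∈ range ι`.  Put `ρ (ι x)` = the least `γ` with `x ∈ DefSets (L γ)` (`< β`), `ρ n = default`
otherwise.  For `γ ≤ β`: `lset E ρ γ = {ι x | x ∈ L γ}`, since `x ∈ L γ` iff the least `γ'` is `< γ`.
Clause 1 clear.  Clause 2: `a = ι x`, `γ = ρ a`, `x ∈ DefSets (L γ)` by `φ`, `t`; take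
`s i = ι (t i)` (if `L γ` is nonempty) and use `sat_iso` with a map `π : ℕ → ZFSet` inverse to `ι`.
Clause 3: `γ < β` and `φ`, `s`; the subset of `L γ` defined by `φ`, `π ∘ s` (as a ZFSet: `L γ` is
countable, so small; or use separation from `ZFSet` given that all these sets lie in some ZFSet;
the simplest is `ZFSet.range` of the countable family) is in `DefSets (L γ) ⊆ L β`, call it `x`,
`a = ι x`, `ρ a ≤ γ`.  Clause 4: `ι x`, `ι x'` with the same elements: `x`, `x'` have the same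
elements in `L β`, which is transitive, so `x = x'`.
-/

namespace PU

open MeasureTheory Set

theorem L_mono {α β : Ordinal.{0}} (h : α ≤ β) : L α ⊆ L β := by
  intro z hz
  rw [mem_L_iff] at hz ⊢
  obtain ⟨γ, hγ, h1⟩ := hz
  exact ⟨γ, lt_of_lt_of_le hγ h, h1⟩

theorem L_transitive {α : Ordinal.{0}} {x y : ZFSet.{0}} (hx : x ∈ L α) (hy : y ∈ x) :
    y ∈ L α := by
  obtain ⟨γ, hγ, φ, s, -, h2⟩ := mem_L_iff.1 hx
  exact L_mono hγ.le ((h2 y).1 hy).1

/-- Codes of formulas. -/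
def fmlE : Fml → ℕ
  | .mem i j => 5 * Nat.pair i j
  | .eq i j => 5 * Nat.pair i j + 1
  | .neg φ => 5 * fmlE φ + 2
  | .and φ ψ => 5 * Nat.pair (fmlE φ) (fmlE ψ) + 3
  | .all i φ => 5 * Nat.pair i (fmlE φ) + 4

theorem fmlE_inj : ∀ φ ψ : Fml, fmlE φ = fmlE ψ → φ = ψ := by
  intro φ
  induction φ with
  | mem i j =>
    intro ψ h
    rcases ψ with ⟨i', j'⟩ | ⟨i', j'⟩ | ψ | ⟨ψ, ψ'⟩ | ⟨i', ψ⟩ <;> simp only [fmlE] at h <;> try omega
    have h0 : Nat.pair i j = Nat.pair i' j' := by omega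
    obtain ⟨h1, h2⟩ := Nat.pair_eq_pair.1 h0
    rw [h1, h2]
  | eq i j =>
    intro ψ h
    rcases ψ with ⟨i', j'⟩ | ⟨i', j'⟩ | ψ | ⟨ψ, ψ'⟩ | ⟨i', ψ⟩ <;> simp only [fmlE] at h <;> try omega
    have h0 : Nat.pair i j = Nat.pair i' j' := by omega
    obtain ⟨h1, h2⟩ := Nat.pair_eq_pair.1 h0
    rw [h1, h2]
  | neg φ ih =>
    intro ψ h
    rcases ψ with ⟨i', j'⟩ | ⟨i', j'⟩ | ψ | ⟨ψ, ψ'⟩ | ⟨i', ψ⟩ <;> simp only [fmlE] at h <;> try omega
    have h0 : fmlE φ = fmlE ψ := by omega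
    rw [ih _ h0]
  | and φ φ' ih ih' =>
    intro ψ h
    rcases ψ with ⟨i', j'⟩ | ⟨i', j'⟩ | ψ | ⟨ψ, ψ'⟩ | ⟨i', ψ⟩ <;> simp only [fmlE] at h <;> try omega
    have h0 : Nat.pair (fmlE φ) (fmlE φ') = Nat.pair (fmlE ψ) (fmlE ψ') := by omega
    obtain ⟨h1, h2⟩ := Nat.pair_eq_pair.1 h0
    rw [ih _ h1, ih' _ h2]
  | all i φ ih =>
    intro ψ h
    rcases ψ with ⟨i', j'⟩ | ⟨i', j'⟩ | ψ | ⟨ψ, ψ'⟩ | ⟨i', ψ⟩ <;> simp only [fmlE] at h <;> try omega
    have h0 : Nat.pair i (fmlE φ) = Nat.pair i' (fmlE ψ) := by omega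
    obtain ⟨h1, h2⟩ := Nat.pair_eq_pair.1 h0
    rw [h1, ih _ h2]

theorem fml_countable : Countable Fml :=
  Function.Injective.countable (f := fmlE) fun φ ψ h => fmlE_inj φ ψ h

theorem fml_enum : ∃ d : ℕ → Fml, Function.Surjective d := by
  have := fml_countable
  have : Nonempty Fml := ⟨.mem 0 0⟩
  exact exists_surjective_nat Fml

theorem sat_congr {U : Type*} (E : U → U → Prop) (M : Set U) (φ : Fml) :
    ∃ n : ℕ, ∀ s t : ℕ → U, (∀ i < n, s i = t i) → (Sat E M φ s ↔ Sat E M φ t) := by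
  induction φ with
  | mem i j =>
    refine ⟨max i j + 1, fun s t h => ?_⟩
    simp only [Sat]
    rw [h i (by omega), h j (by omega)]
  | eq i j =>
    refine ⟨max i j + 1, fun s t h => ?_⟩
    simp only [Sat]
    rw [h i (by omega), h j (by omega)]
  | neg φ ih =>
    obtain ⟨n, hn⟩ := ih
    exact ⟨n, fun s t h => not_congr (hn s t h)⟩
  | and φ ψ ih ih' =>
    obtain ⟨n, hn⟩ := ih
    obtain ⟨n', hn'⟩ := ih'
    exact ⟨max n n', fun s t h => and_congr (hn s t fun i hi => h i (by omega))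
      (hn' s t fun i hi => h i (by omega))⟩
  | all i φ ih =>
    obtain ⟨n, hn⟩ := ih
    refine ⟨n, fun s t h => ?_⟩
    simp only [Sat]
    refine forall_congr' fun a => forall_congr' fun _ => hn _ _ fun k hk => ?_
    by_cases hki : k = i
    · subst hki
      simp
    · rw [Function.update_of_ne hki, Function.update_of_ne hki, h k hk]

theorem defSets_countable {M : Set ZFSet.{0}} (hM : M.Countable) : (DefSets M).Countable := by
  classical
  rcases M.eq_empty_or_nonempty with hE | hne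
  · refine (Set.countable_singleton (∅ : ZFSet.{0})).mono ?_
    rintro x ⟨φ, s, -, h⟩
    rw [Set.mem_singleton_iff, ZFSet.eq_empty]
    intro z hz
    have h1 := ((h z).1 hz).1
    rw [hE] at h1
    exact h1
  have hc := hM.to_subtype
  have hF := fml_countable
  have key : ∀ x : DefSets M, ∃ p : Fml × List M, ∃ s : ℕ → M,
      p.2 = (List.range (sat_congr (fun a b : ZFSet.{0} => a ∈ b) M p.1).choose).map s ∧
      ∀ z, z ∈ x.1 ↔ z ∈ M ∧ Sat (fun a b => a ∈ b) M p.1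
        (Function.update (fun i => (s i : ZFSet.{0})) 0 z) := by
    rintro ⟨x, φ, s, h1, h2⟩
    exact ⟨(φ, (List.range (sat_congr (fun a b : ZFSet.{0} => a ∈ b) M φ).choose).map
      fun i => ⟨s i, h1 hne i⟩), fun i => ⟨s i, h1 hne i⟩, rfl, h2⟩
  choose f s hf1 hf2 using key
  have hinj : Function.Injective f := by
    intro x y hxy
    apply Subtype.ext
    have h3 : ∀ z, Sat (fun a b => a ∈ b) M (f x).1
        (Function.update (fun i => (s x i : ZFSet.{0})) 0 z) ↔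
        Sat (fun a b => a ∈ b) M (f y).1
        (Function.update (fun i => (s y i : ZFSet.{0})) 0 z) := by
      intro z
      rw [← hxy]
      refine (sat_congr (fun a b : ZFSet.{0} => a ∈ b) M (f x).1).choose_spec _ _ fun i hi => ?_
      by_cases hi0 : i = 0
      · subst hi0
        simp
      · rw [Function.update_of_ne hi0, Function.update_of_ne hi0]
        have h4 := hf1 x
        have h5 := hf1 y
        rw [← hxy] at h5
        have h6 := h4.symm.trans h5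
        have h7 := List.map_eq_map_iff.1 h6 i (List.mem_range.2 hi)
        rw [h7]
    apply ZFSet.ext
    intro z
    rw [hf2 x z, hf2 y z, h3 z]
  exact Set.countable_coe_iff.1 hinj.countable

theorem L_countable (β : Om) : (L β.1).Countable := by
  have key : ∀ γ : Ordinal.{0}, γ < Ordinal.omega 1 → (L γ).Countable := by
    intro γ
    induction γ using WellFoundedLT.induction with
    | ind γ ih =>
      intro hγ
      have h1 : L γ ⊆ ⋃ δ ∈ Iio γ, DefSets (L δ) := by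
        intro z hz
        obtain ⟨δ, hδ, h⟩ := mem_L_iff.1 hz
        exact mem_biUnion hδ h
      refine Set.Countable.mono h1 ((lt_omega1_iff.1 hγ).biUnion fun δ hδ => ?_)
      exact defSets_countable (ih δ hδ (lt_trans hδ hγ))
  exact key β.1 β.2

theorem exists_lcode (β : Om) : ∃ E ρ, LCode β E ρ := by
  classical
  obtain ⟨ι, hι⟩ := Set.countable_iff_exists_injOn.1 (L_countable β)
  obtain ⟨S, hS⟩ : ∃ S, S = L β.1 := ⟨_, rfl⟩
  rw [← hS] at hι
  -- the inverse of `ι`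
  obtain ⟨π, hπ⟩ : ∃ π : ℕ → ZFSet.{0}, ∀ x ∈ S, π (ι x) = x :=
    ⟨Function.invFunOn ι S, fun x hx => hι.leftInvOn_invFunOn hx⟩
  let R : ℕ → ℕ → Prop := fun m n =>
    (∃ x ∈ S, ∃ y ∈ S, x ∈ y ∧ m = ι x ∧ n = ι y) ∨ (m = n ∧ m ∉ ι '' S)
  let E : ℕ → Bool := fun k => decide (R k.unpair.1 k.unpair.2)
  have hE : ∀ m n, cd E m n ↔ R m n := by
    intro m n
    unfold cd
    simp only [E, Nat.unpair_pair, decide_eq_true_eq]
  let rko : ZFSet.{0} → Ordinal.{0} := fun x => sInf {γ | x ∈ DefSets (L γ)}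
  have hrk : ∀ x ∈ S, x ∈ DefSets (L (rko x)) ∧ rko x < β.1 := by
    intro x hx
    rw [hS] at hx
    obtain ⟨γ, hγ, h⟩ := mem_L_iff.1 hx
    have h1 : γ ∈ {γ | x ∈ DefSets (L γ)} := h
    exact ⟨csInf_mem (s := {γ | x ∈ DefSets (L γ)}) ⟨γ, h1⟩,
      lt_of_le_of_lt (csInf_le' h1) hγ⟩
  have hrk2 : ∀ x γ, x ∈ DefSets (L γ) → rko x ≤ γ := fun x γ h => csInf_le' h
  let ρ : ℕ → Om := fun n => if h : rko (π n) < Ordinal.omega 1 then ⟨rko (π n), h⟩ else default
  have hρ : ∀ x ∈ S, (ρ (ι x)).1 = rko x := by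
    intro x hx
    have h1 : rko (π (ι x)) < Ordinal.omega 1 := by
      rw [hπ x hx]
      exact lt_trans (hrk x hx).2 β.2
    simp only [ρ]
    rw [dif_pos h1]
    show rko (π (ι x)) = rko x
    rw [hπ x hx]
  have hdiag : ∀ n, ¬ cd E n n ↔ n ∈ ι '' S := by
    intro n
    rw [hE]
    constructor
    · intro h
      by_contra hn
      exact h (Or.inr ⟨rfl, hn⟩)
    · intro hn h
      rcases h with ⟨x, hx, y, hy, hxy, h1, h2⟩ | ⟨-, h⟩
      · have h3 := hι hx hy (h1.symm.trans h2)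
        rw [h3] at hxy
        exact ZFSet.mem_irrefl _ hxy
      · exact h hn
  have hmem : ∀ x ∈ S, ∀ y ∈ S, (cd E (ι x) (ι y) ↔ x ∈ y) := by
    intro x hx y hy
    rw [hE]
    constructor
    · rintro (⟨x', hx', y', hy', hxy, h1, h2⟩ | ⟨-, h⟩)
      · rw [hι hx hx' h1, hι hy hy' h2]
        exact hxy
      · exact absurd ⟨x, hx, rfl⟩ h
    · intro h
      exact Or.inl ⟨x, hx, y, hy, h, rfl, rfl⟩
  have hmem' : ∀ b, ∀ y ∈ S, cd E b (ι y) → ∃ x ∈ S, x ∈ y ∧ b = ι x := by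
    intro b y hy h
    rw [hE] at h
    rcases h with ⟨x', hx', y', hy', hxy, h1, h2⟩ | ⟨h1, h⟩
    · exact ⟨x', hx', by rw [hι hy hy' h2]; exact hxy, h1⟩
    · exact absurd (h1 ▸ ⟨y, hy, rfl⟩) h
  have hsub : ∀ γ : Om, γ ≤ β → L γ.1 ⊆ S := by
    intro γ hγ
    rw [hS]
    exact L_mono hγ
  have hlset : ∀ γ : Om, γ ≤ β → lset E ρ γ = ι '' L γ.1 := by
    intro γ hγ
    ext b
    constructor
    · rintro ⟨h1, h2⟩
      obtain ⟨x, hx, rfl⟩ := (hdiag b).1 h1
      refine ⟨x, mem_L_iff.2 ⟨rko x, ?_, (hrk x hx).1⟩, rfl⟩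
      rw [← hρ x hx]
      exact h2
    · rintro ⟨x, hx, rfl⟩
      have hxS := hsub γ hγ hx
      refine ⟨(hdiag _).2 ⟨x, hxS, rfl⟩, ?_⟩
      obtain ⟨γ', h1, h2⟩ := mem_L_iff.1 hx
      show (ρ (ι x)).1 < γ.1
      rw [hρ x hxS]
      exact lt_of_le_of_lt (hrk2 x γ' h2) h1
  have hkey : ∀ γ : Om, γ ≤ β → ∀ (φ : Fml) (t : ℕ → ZFSet.{0}), (∀ i, t i ∈ L γ.1) →
      ∀ z ∈ L γ.1, (Sat (cd E) (lset E ρ γ) φ (Function.update (fun i => ι (t i)) 0 (ι z)) ↔
        Sat (fun a b : ZFSet.{0} => a ∈ b) (L γ.1) φ (Function.update t 0 z)) := by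
    intro γ hγ φ t ht z hz
    rw [hlset γ hγ]
    have h1 := sat_iso (E := fun a b : ZFSet.{0} => a ∈ b) (F := cd E) (M := L γ.1)
      (N := ι '' L γ.1) ι (fun a ha => ⟨a, ha, rfl⟩) (fun b hb => hb)
      (fun a ha b hb => hmem a (hsub γ hγ ha) b (hsub γ hγ hb))
      (fun a ha b hb hab => hι (hsub γ hγ ha) (hsub γ hγ hb) hab) φ (Function.update t 0 z)
      (fun i => by
        by_cases hi : i = 0
        · subst hi
          simpa using hz
        · rw [Function.update_of_ne hi]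
          exact ht i)
    have h2 : (fun i => ι (Function.update t 0 z i)) =
        Function.update (fun i => ι (t i)) 0 (ι z) := by
      funext i
      by_cases hi : i = 0
      · subst hi
        simp
      · rw [Function.update_of_ne hi, Function.update_of_ne hi]
    rw [h2] at h1
    exact h1
  refine ⟨E, ρ, ?_, ?_, ?_, ?_⟩
  · intro a ha
    obtain ⟨x, hx, rfl⟩ := (hdiag a).1 ha
    show (ρ (ι x)).1 < β.1
    rw [hρ x hx]
    exact (hrk x hx).2
  · intro a ha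
    obtain ⟨x, hx, rfl⟩ := (hdiag a).1 ha
    obtain ⟨γ, hγ⟩ : ∃ γ, γ = ρ (ι x) := ⟨_, rfl⟩
    rw [← hγ]
    have hγ1 : γ.1 = rko x := by rw [hγ, hρ x hx]
    have hγβ : γ ≤ β := by
      show γ.1 ≤ β.1
      rw [hγ1]
      exact (hrk x hx).2.le
    obtain ⟨φ, t, h1, h2⟩ := (hrk x hx).1
    rw [← hγ1] at h1 h2
    have hne : (lset E ρ γ).Nonempty → (L γ.1).Nonempty := by
      rw [hlset γ hγβ]
      rintro ⟨_, z, hz, -⟩
      exact ⟨z, hz⟩
    refine ⟨φ, fun i => ι (t i), fun h i => ?_, fun b => ?_⟩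
    · rw [hlset γ hγβ]
      exact ⟨t i, h1 (hne h) i, rfl⟩
    · constructor
      · intro hb
        obtain ⟨z, hz, hzx, rfl⟩ := hmem' b x hx hb
        obtain ⟨h3, h4⟩ := (h2 z).1 hzx
        refine ⟨by rw [hlset γ hγβ]; exact ⟨z, h3, rfl⟩, ?_⟩
        exact (hkey γ hγβ φ t (h1 ⟨z, h3⟩) z h3).2 h4
      · rintro ⟨h3, h4⟩
        rw [hlset γ hγβ] at h3
        obtain ⟨z, hz, rfl⟩ := h3
        have h5 := (hkey γ hγβ φ t (h1 ⟨z, hz⟩) z hz).1 h4
        exact (hmem z (hsub γ hγβ hz) x hx).2 ((h2 z).2 ⟨hz, h5⟩)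
  · intro γ hγ φ s hs
    have hγβ : γ ≤ β := hγ.le
    have hcount : ({z | z ∈ L γ.1 ∧ Sat (fun a b : ZFSet.{0} => a ∈ b) (L γ.1) φ
        (Function.update (fun i => π (s i)) 0 z)} : Set ZFSet.{0}).Countable :=
      (L_countable γ).mono fun z hz => hz.1
    have hc := hcount.to_subtype
    obtain ⟨x, hx⟩ : ∃ x : ZFSet.{0}, ∀ z, z ∈ x ↔ z ∈ L γ.1 ∧
        Sat (fun a b : ZFSet.{0} => a ∈ b) (L γ.1) φ
          (Function.update (fun i => π (s i)) 0 z) := by
      refine ⟨ZFSet.range fun z : ({z | z ∈ L γ.1 ∧ Sat (fun a b : ZFSet.{0} => a ∈ b) (L γ.1) φ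
        (Function.update (fun i => π (s i)) 0 z)} : Set ZFSet.{0}) => z.1, fun z => ?_⟩
      rw [ZFSet.mem_range]
      constructor
      · rintro ⟨z', rfl⟩
        exact z'.2
      · intro hz
        exact ⟨⟨z, hz⟩, rfl⟩
    have hs2 : (L γ.1).Nonempty → ∀ i, π (s i) ∈ L γ.1 ∧ ι (π (s i)) = s i := by
      rintro ⟨z, hz⟩ i
      have h1 := hs (by rw [hlset γ hγβ]; exact ⟨ι z, z, hz, rfl⟩) i
      rw [hlset γ hγβ] at h1
      obtain ⟨y, hy, h2⟩ := h1
      rw [← h2, hπ y (hsub γ hγβ hy)]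
      exact ⟨hy, rfl⟩
    have hxD : x ∈ DefSets (L γ.1) := ⟨φ, fun i => π (s i), fun h i => (hs2 h i).1, hx⟩
    have hxS : x ∈ S := by
      rw [hS]
      exact mem_L_iff.2 ⟨γ.1, hγ, hxD⟩
    refine ⟨ι x, (hdiag _).2 ⟨x, hxS, rfl⟩, ?_, fun b => ?_⟩
    · show (ρ (ι x)).1 ≤ γ.1
      rw [hρ x hxS]
      exact hrk2 x γ.1 hxD
    · constructor
      · intro hb
        obtain ⟨z, hz, hzx, rfl⟩ := hmem' b x hxS hb
        obtain ⟨h3, h4⟩ := (hx z).1 hzx
        refine ⟨by rw [hlset γ hγβ]; exact ⟨z, h3, rfl⟩, ?_⟩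
        have h5 := (hkey γ hγβ φ _ (fun i => (hs2 ⟨z, h3⟩ i).1) z h3).2 h4
        have h6 : (fun i => ι (π (s i))) = s := funext fun i => (hs2 ⟨z, h3⟩ i).2
        rwa [h6] at h5
      · rintro ⟨h3, h4⟩
        rw [hlset γ hγβ] at h3
        obtain ⟨z, hz, rfl⟩ := h3
        have h6 : (fun i => ι (π (s i))) = s := funext fun i => (hs2 ⟨z, hz⟩ i).2
        have h5 := (hkey γ hγβ φ _ (fun i => (hs2 ⟨z, hz⟩ i).1) z hz).1 (by rw [h6]; exact h4)
        exact (hmem z (hsub γ hγβ hz) x hxS).2 ((hx z).2 ⟨hz, h5⟩)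
  · intro a a' ha ha' h
    obtain ⟨x, hx, rfl⟩ := (hdiag a).1 ha
    obtain ⟨x', hx', rfl⟩ := (hdiag a').1 ha'
    have key : ∀ x ∈ S, ∀ x' ∈ S, (∀ b, cd E b (ι x) → cd E b (ι x')) → ∀ z ∈ x, z ∈ x' := by
      intro x hx x' hx' h z hz
      have hzS : z ∈ S := by
        rw [hS] at hx ⊢
        exact L_transitive hx hz
      exact (hmem z hzS x' hx').1 (h _ ((hmem z hzS x hx).2 hz))
    have h1 : x = x' := by
      apply ZFSet.ext
      intro z
      exact ⟨key x hx x' hx' (fun b => (h b).1) z, key x' hx' x hx (fun b => (h b).2) z⟩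
    rw [h1]

end PU
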