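import Pool.Agent.PU.LEx

/-!
PU LVN: ordinals in coded levels.

PROOFS.  `Ordinal.toZFSet`: `z ∈ α.toZFSet ↔ ∃ ξ < α, ξ.toZFSet = z` (`Ordinal.mem_toZFSet_iff`),
injective (`Ordinal.toZFSet_injective`).
`vn_iff` (→): by strong induction on `ξ ≤ α` show `π (h.val ξ) = ξ.1.toZFSet`.  `h.val ξ` is an
element of the code, so `π (h.val ξ) ∈ L β`; if `z ∈ π (h.val ξ)` then `z ∈ L β` (`L_transitive`), so
`z = π b'` with `b'` in the domain and `cd E b' (h.val ξ)`, so `b' = h.val ξ'` with `ξ' < ξ` and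
`z = ξ'.1.toZFSet`; conversely for `ξ' < ξ`, `cd E (h.val ξ') (h.val ξ)` and so
`ξ'.1.toZFSet = π (h.val ξ') ∈ π (h.val ξ)`.
(←): `b` in the domain with `π b = α.1.toZFSet`.  For `ξ ≤ α`, `ξ.1.toZFSet ∈ L β` (it is `π b` or an
element of it); choose `h ξ` in the domain with `π (h ξ) = ξ.1.toZFSet` (`h α = b`); let the
sequence have length `α + 1` (a countable ordinal above `α` - take any `α' > α` from `Om.bdd` or
the successor; values beyond are irrelevant).  `cd E b' (h ξ)` implies that `b'` is in the domain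
(clause 2 of `LCode`) and `π b' ∈ ξ.1.toZFSet`, so `π b' = ξ'.1.toZFSet = π (h ξ')`, `b' = h ξ'`;
conversely clear.
`inL_iff` (→): `x ∈ L β`; by `exists_lcode` and `LCode.collapse` take `(E, ρ)`, `π` and `a` with
`π a = x`; if `cd E b a` then `π b ∈ x` so `π b = (f.val ξ).1.toZFSet`, use `vn_iff`; if `ξ < f.len`,
`(f.val ξ).1.toZFSet ∈ x ∈ L β` so it is `π b`, and `cd E b a`.
(←): take the collapse `π` and `x = π a ∈ L β`; `z ∈ x` iff `z = π b` with `cd E b a`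
(`L_transitive`, `IsCollapse`), iff `z = (f.val ξ).1.toZFSet` for some `ξ < f.len`, by the two
conditions and `vn_iff`.
-/

namespace PU

open MeasureTheory Set

private theorem lvn_dom {β : Om} {E : ℕ → Bool} {ρ : ℕ → Om} (h : LCode β E ρ) {a b : ℕ}
    (ha : ¬ cd E a a) (hb : cd E b a) : ¬ cd E b b := by
  obtain ⟨φ, s, -, h2⟩ := h.2.1 a ha
  exact ((h2 b).1 hb).1.1

private theorem lvn_mem {β : Om} {E : ℕ → Bool} {ρ : ℕ → Om} (h : LCode β E ρ)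
    {π : ℕ → ZFSet.{0}} (hπ : IsCollapse β E π) {a : ℕ} (ha : ¬ cd E a a) (z : ZFSet.{0}) :
    z ∈ π a ↔ ∃ b, cd E b a ∧ π b = z := by
  constructor
  · intro hz
    have h1 : π a ∈ L β.1 := (hπ.2.2 _).2 ⟨a, ha, rfl⟩
    obtain ⟨b, hb, rfl⟩ := (hπ.2.2 _).1 (L_transitive h1 hz)
    exact ⟨b, (hπ.1 b a hb ha).1 hz, rfl⟩
  · rintro ⟨b, hb, rfl⟩
    exact (hπ.1 b a (lvn_dom h ha hb) ha).2 hb

private theorem lvn_ord (ξ : Om) (z : ZFSet.{0}) :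
    z ∈ ξ.1.toZFSet ↔ ∃ ξ' : Om, ξ' < ξ ∧ ξ'.1.toZFSet = z := by
  rw [Ordinal.mem_toZFSet_iff]
  constructor
  · rintro ⟨a, ha, rfl⟩
    exact ⟨⟨a, ha.trans ξ.2⟩, ha, rfl⟩
  · rintro ⟨ξ', h1, rfl⟩
    exact ⟨ξ'.1, h1, rfl⟩

theorem vn_iff {β : Om} {E : ℕ → Bool} {ρ : ℕ → Om} (h : LCode β E ρ) {π : ℕ → ZFSet.{0}}
    (hπ : IsCollapse β E π) (b : ℕ) (α : Om) :
    VN E b α ↔ ¬ cd E b b ∧ π b = α.1.toZFSet := by
  constructor
  · rintro ⟨f, -, hf, hb⟩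
    have key : ∀ ξ : Om, ξ ≤ α → π (f.val ξ) = ξ.1.toZFSet := by
      intro ξ
      induction ξ using WellFoundedLT.induction with
      | ind ξ ih =>
        intro hξ
        ext z
        rw [lvn_mem h hπ (hf ξ hξ).1, lvn_ord]
        constructor
        · rintro ⟨b', hb', rfl⟩
          obtain ⟨ξ', h1, rfl⟩ := ((hf ξ hξ).2 b').1 hb'
          exact ⟨ξ', h1, (ih ξ' h1 (h1.le.trans hξ)).symm⟩
        · rintro ⟨ξ', h1, rfl⟩
          exact ⟨f.val ξ', ((hf ξ hξ).2 _).2 ⟨ξ', h1, rfl⟩, ih ξ' h1 (h1.le.trans hξ)⟩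
    rw [← hb]
    exact ⟨(hf α le_rfl).1, key α le_rfl⟩
  · rintro ⟨hb, hbα⟩
    have hL : ∀ ξ : Om, ∃ c, ξ ≤ α → ¬ cd E c c ∧ π c = ξ.1.toZFSet := by
      intro ξ
      by_cases hξ : ξ ≤ α
      · rcases eq_or_lt_of_le hξ with h1 | h1
        · exact ⟨b, fun _ => ⟨hb, by rw [h1]; exact hbα⟩⟩
        · have h2 : ξ.1.toZFSet ∈ L β.1 := by
            refine L_transitive ((hπ.2.2 (π b)).2 ⟨b, hb, rfl⟩) ?_
            rw [hbα, lvn_ord]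
            exact ⟨ξ, h1, rfl⟩
          obtain ⟨c, hc, hc2⟩ := (hπ.2.2 _).1 h2
          exact ⟨c, fun _ => ⟨hc, hc2⟩⟩
      · exact ⟨0, fun h1 => absurd h1 hξ⟩
    choose g hg using hL
    obtain ⟨α', hα'⟩ := Om.bdd (S := {α}) (countable_singleton α)
    have hαα : α < α' := hα' α rfl
    have hval : ∀ ξ, ξ ≤ α → (Seq.mk' g α').val ξ = g ξ := by
      intro ξ hξ
      have h1 : ξ < α' := lt_of_le_of_lt hξ hαα
      show (if ξ < α' then g ξ else default) = g ξ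
      rw [if_pos h1]
    refine ⟨Seq.mk' g α', hαα, fun ξ hξ => ?_, ?_⟩
    · rw [hval ξ hξ]
      refine ⟨(hg ξ hξ).1, fun b' => ?_⟩
      constructor
      · intro hb'
        have h1 := lvn_dom h (hg ξ hξ).1 hb'
        have h2 := (hπ.1 b' (g ξ) h1 (hg ξ hξ).1).2 hb'
        rw [(hg ξ hξ).2, lvn_ord] at h2
        obtain ⟨ξ', h3, h4⟩ := h2
        have h5 := h3.le.trans hξ
        refine ⟨ξ', h3, ?_⟩
        rw [hval ξ' h5]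
        exact hπ.2.1 _ _ (hg ξ' h5).1 h1 ((hg ξ' h5).2.trans h4)
      · rintro ⟨ξ', h3, rfl⟩
        have h5 := h3.le.trans hξ
        rw [hval ξ' h5]
        refine (hπ.1 _ _ (hg ξ' h5).1 (hg ξ hξ).1).1 ?_
        rw [(hg ξ hξ).2, (hg ξ' h5).2, lvn_ord]
        exact ⟨ξ', h3, rfl⟩
    · rw [hval α le_rfl]
      exact hπ.2.1 _ _ (hg α le_rfl).1 hb ((hg α le_rfl).2.trans hbα.symm)

theorem inL_iff (β : Om) (f : Seq Om) : InL β f ↔ ∃ E ρ, LCode β E ρ ∧ ∃ a, ¬ cd E a a ∧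
    (∀ b, cd E b a → ∃ ξ, ξ < f.len ∧ VN E b (f.val ξ)) ∧
    ∀ ξ, ξ < f.len → ∃ b, cd E b a ∧ VN E b (f.val ξ) := by
  constructor
  · rintro ⟨x, hx, hxz⟩
    obtain ⟨E, ρ, h⟩ := exists_lcode β
    obtain ⟨π, hπ⟩ := h.collapse
    obtain ⟨a, ha, rfl⟩ := (hπ.2.2 x).1 hx
    refine ⟨E, ρ, h, a, ha, fun b hb => ?_, fun ξ hξ => ?_⟩
    · obtain ⟨ξ, h1, h2⟩ := (hxz (π b)).1 ((lvn_mem h hπ ha _).2 ⟨b, hb, rfl⟩)
      exact ⟨ξ, h1, (vn_iff h hπ b _).2 ⟨lvn_dom h ha hb, h2⟩⟩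
    · obtain ⟨b, hb, h2⟩ := (lvn_mem h hπ ha _).1 ((hxz (f.val ξ).1.toZFSet).2 ⟨ξ, hξ, rfl⟩)
      exact ⟨b, hb, (vn_iff h hπ b _).2 ⟨lvn_dom h ha hb, h2⟩⟩
  · rintro ⟨E, ρ, h, a, ha, h1, h2⟩
    obtain ⟨π, hπ⟩ := h.collapse
    refine ⟨π a, (hπ.2.2 _).2 ⟨a, ha, rfl⟩, fun z => ?_⟩
    rw [lvn_mem h hπ ha]
    constructor
    · rintro ⟨b, hb, rfl⟩
      obtain ⟨ξ, hξ, hv⟩ := h1 b hb
      exact ⟨ξ, hξ, ((vn_iff h hπ b _).1 hv).2⟩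
    · rintro ⟨ξ, hξ, rfl⟩
      obtain ⟨b, hb, hv⟩ := h2 ξ hξ
      exact ⟨b, hb, ((vn_iff h hπ b _).1 hv).2⟩

end PU
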