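import Pool.Agent.PU.LSat
import Pool.Agent.PU.LVn
import Pool.Agent.PU.TruB

/-!
PU LPC: definability of the constructible singularity witnesses (complete).
-/

namespace PU

open MeasureTheory Set

universe u

variable {X : Type u} [Rep X]

theorem PC.vn {E : X → ℕ → Bool} {b : X → ℕ} {α : X → Om} (hE : PCF E) (hb : PCF b)
    (hα : PCF α) : PC (fun x => VN (E x) (b x) (α x)) := by
  have h : PC (fun p : (ℕ → Bool) × ℕ × Om => VN p.1 p.2.1 p.2.2) := by
    unfold VN
    repeat' with_reducible first
      | assumption
      | apply PC.and
      | apply PC.iff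
      | apply PC.not
      | apply PC.ex
      | apply PC.all
      | apply PC.imp
      | apply PC.eq
      | apply PC.olt
      | apply PC.ole
      | apply PC.cd
      | apply PCF.val
      | apply PCF.len
      | apply PCF.fst
      | apply PCF.snd
      | apply PCF.id
  exact PC.comp h (PCF.mk hE (PCF.mk hb hα))

theorem PC.inL {β : X → Om} {f : X → Seq Om} (hβ : PCF β) (hf : PCF f) :
    PC (fun x => InL (β x) (f x)) := by
  have h : PC (fun p : Om × Seq Om => InL p.1 p.2) := by
    refine PC.congr (fun p => (inL_iff p.1 p.2).symm) ?_
    repeat' with_reducible first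
      | assumption
      | apply PC.and
      | apply PC.iff
      | apply PC.not
      | apply PC.ex
      | apply PC.all
      | apply PC.imp
      | apply PC.eq
      | apply PC.olt
      | apply PC.ole
      | apply PC.cd
      | apply PC.vn
      | apply PC.lcode
      | apply PCF.val
      | apply PCF.len
      | apply PCF.fst
      | apply PCF.snd
      | apply PCF.id
  exact PC.comp h (PCF.mk hβ hf)

/-- `f` is an increasing enumeration of a cofinal subset of `a` of smaller order type -/
def Wit (a : Om) (f : Seq Om) : Prop :=
  f.len < a ∧ (∀ ξ, ξ < f.len → f.val ξ < a) ∧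
    (∀ ξ ξ', ξ < ξ' → ξ' < f.len → f.val ξ < f.val ξ') ∧
    ∀ η, η < a → ∃ ξ, ξ < f.len ∧ η ≤ f.val ξ

/-- the witnesses of least constructible level -/
def WL (a : Om) (f : Seq Om) : Prop :=
  Wit a f ∧ ∃ β, InL β f ∧ ∀ β', β' < β → ∀ f', Wit a f' → ¬ InL β' f'

theorem pc_WL : PC (fun p : Om × Seq Om => WL p.1 p.2) := by
  unfold WL Wit
  repeat' with_reducible first
    | assumption
    | apply PC.and
    | apply PC.iff
    | apply PC.not
    | apply PC.ex
    | apply PC.all
    | apply PC.imp
    | apply PC.eq
    | apply PC.olt
    | apply PC.ole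
    | apply PC.inL
    | apply PCF.val
    | apply PCF.len
    | apply PCF.fst
    | apply PCF.snd
    | apply PCF.id

end PU
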