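import Pool.Agent.PU.LEx
import Pool.Agent.PU.Meas

/-!
PU LSAT: being a code of a constructible level is projective in the codes.

PROOF.
`measurableSet_sat`: for a fixed formula `φ` the set of `(E, M, s)` with
`Sat (cd E) {b | M b = true} φ s` is measurable in `(ℕ → Bool) × (ℕ → Bool) × (ℕ → ℕ)`, by induction
on `φ`: atomic formulas depend on countably many values (`E (pair (s i) (s j))`: union over the
values of `s i`, `s j`); `all i φ` is the countable intersection over `a : ℕ` of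
`{M a = false} ∪ preimage` of the set for `φ` under the measurable map
`(E, M, s) ↦ (E, M, update s i a)`.
`PC.sat`: with the enumeration `d` of formulas, the set of `(E, M, k, s)` with
`Sat (cd E) {b | M b = true} (d k) s` is measurable (union over `k`), so `pc_of_measurableSet` and
`PC.comp`.
`PC.lcode`: rewrite `LCode` as follows: quantifiers over formulas become quantifiers over `k : ℕ`
through `d`; `lset E ρ γ` is replaced by a set coded by `M : ℕ → Bool`: for a predicate `Q`,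
`Q (lset E ρ γ) ↔ ∃ M : ℕ → Bool, (∀ b, M b = true ↔ ¬ cd E b b ∧ ρ b < γ) ∧ Q {b | M b = true}`;
then apply the calculus (`PC.all`, `PC.ex`, `PC.cd`, `PC.olt`, `PCF.eval` for `ρ b`, `PC.sat` with
`PCF` of `(s, b) ↦ update s 0 b` from `PCF.of_continuous`), as in `Dec.lean`
(`repeat' with_reducible first | ...`).  `(lset ..).Nonempty` is `∃ b, M b = true`.
-/

namespace PU

open MeasureTheory Set

universe u

theorem measurableSet_sat (φ : Fml) :
    MeasurableSet {p : (ℕ → Bool) × (ℕ → Bool) × (ℕ → ℕ) |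
      Sat (cd p.1) {b | p.2.1 b = true} φ p.2.2} := by
  induction φ with
  | mem i j =>
    have h : {p : (ℕ → Bool) × (ℕ → Bool) × (ℕ → ℕ) |
        Sat (cd p.1) {b | p.2.1 b = true} (Fml.mem i j) p.2.2} =
        {p | p.1 (Nat.pair (p.2.2 i) (p.2.2 j)) = true} := rfl
    rw [h]
    refine measurableSet_eval (f := fun p : (ℕ → Bool) × (ℕ → Bool) × (ℕ → ℕ) => p.1)
      (k := fun p => Nat.pair (p.2.2 i) (p.2.2 j)) measurable_fst ?_ true
    have h1 : Measurable (fun p : (ℕ → Bool) × (ℕ → Bool) × (ℕ → ℕ) => p.2.2 i) :=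
      (measurable_pi_apply i).comp (measurable_snd.comp measurable_snd)
    have h2 : Measurable (fun p : (ℕ → Bool) × (ℕ → Bool) × (ℕ → ℕ) => p.2.2 j) :=
      (measurable_pi_apply j).comp (measurable_snd.comp measurable_snd)
    exact (measurable_of_countable (fun q : ℕ × ℕ => Nat.pair q.1 q.2)).comp (h1.prodMk h2)
  | eq i j =>
    have h : {p : (ℕ → Bool) × (ℕ → Bool) × (ℕ → ℕ) |
        Sat (cd p.1) {b | p.2.1 b = true} (Fml.eq i j) p.2.2} =
        {p | p.2.2 i = p.2.2 j} := rfl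
    rw [h]
    have h1 : Measurable (fun p : (ℕ → Bool) × (ℕ → Bool) × (ℕ → ℕ) => p.2.2 i) :=
      (measurable_pi_apply i).comp (measurable_snd.comp measurable_snd)
    have h2 : Measurable (fun p : (ℕ → Bool) × (ℕ → Bool) × (ℕ → ℕ) => p.2.2 j) :=
      (measurable_pi_apply j).comp (measurable_snd.comp measurable_snd)
    exact measurableSet_eq_fun h1 h2
  | neg φ ih => exact ih.compl
  | and φ ψ ih ih' => exact ih.inter ih'
  | all i φ ih =>
    have h : {p : (ℕ → Bool) × (ℕ → Bool) × (ℕ → ℕ) |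
        Sat (cd p.1) {b | p.2.1 b = true} (Fml.all i φ) p.2.2} =
        ⋂ a : ℕ, ({p | p.2.1 a = true}ᶜ ∪
          (fun p : (ℕ → Bool) × (ℕ → Bool) × (ℕ → ℕ) =>
            (p.1, p.2.1, Function.update p.2.2 i a)) ⁻¹'
          {p | Sat (cd p.1) {b | p.2.1 b = true} φ p.2.2}) := by
      ext p
      simp only [mem_ofPred_eq, mem_iInter, mem_union, mem_compl_iff, mem_preimage, Sat]
      constructor
      · intro h a
        by_cases ha : p.2.1 a = true
        · exact Or.inr (h a ha)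
        · exact Or.inl ha
      · intro h a ha
        rcases h a with h1 | h1
        · exact absurd ha h1
        · exact h1
    rw [h]
    refine MeasurableSet.iInter fun a => MeasurableSet.union (MeasurableSet.compl ?_) ?_
    · exact measurableSet_eval (f := fun p : (ℕ → Bool) × (ℕ → Bool) × (ℕ → ℕ) => p.2.1)
        (k := fun _ => a) (measurable_fst.comp measurable_snd) measurable_const true
    · refine ih.preimage ?_
      refine measurable_fst.prodMk ((measurable_fst.comp measurable_snd).prodMk ?_)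
      refine measurable_pi_lambda _ fun k => ?_
      by_cases hk : k = i
      · subst hk
        simp only [Function.update_self]
        exact measurable_const
      · simp only [Function.update_of_ne hk]
        exact (measurable_pi_apply k).comp (measurable_snd.comp measurable_snd)

instance borelQ : BorelSpace ((ℕ → Bool) × (ℕ → ℕ) × ℕ) := inferInstance

instance scQ : SecondCountableTopology ((ℕ → Bool) × (ℕ → ℕ) × ℕ) := inferInstance

instance borelQ' : BorelSpace ((ℕ → Bool) × (ℕ → Bool) × (ℕ → ℕ) × ℕ) := Prod.borelSpace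

variable {X : Type u} [Rep X]

theorem PC.sat (d : ℕ → Fml) {E M : X → ℕ → Bool} {k : X → ℕ} {s : X → ℕ → ℕ} (hE : PCF E)
    (hM : PCF M) (hk : PCF k) (hs : PCF s) :
    PC (fun x => Sat (PU.cd (E x)) {b | M x b = true} (d (k x)) (s x)) := by
  have h : MeasurableSet {p : (ℕ → Bool) × (ℕ → Bool) × (ℕ → ℕ) × ℕ |
      Sat (PU.cd p.1) {b | p.2.1 b = true} (d p.2.2.2) p.2.2.1} := by
    have h1 : {p : (ℕ → Bool) × (ℕ → Bool) × (ℕ → ℕ) × ℕ |
      Sat (PU.cd p.1) {b | p.2.1 b = true} (d p.2.2.2) p.2.2.1} = ⋃ k : ℕ,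
        ({p | p.2.2.2 = k} ∩ (fun p : (ℕ → Bool) × (ℕ → Bool) × (ℕ → ℕ) × ℕ =>
          (p.1, p.2.1, p.2.2.1)) ⁻¹' {p | Sat (PU.cd p.1) {b | p.2.1 b = true} (d k) p.2.2}) := by
      ext p
      simp
    rw [h1]
    refine MeasurableSet.iUnion fun k => MeasurableSet.inter ?_ ?_
    · exact (measurable_snd.comp (measurable_snd.comp measurable_snd)) (measurableSet_singleton k)
    · refine (measurableSet_sat (d k)).preimage ?_
      exact measurable_fst.prodMk ((measurable_fst.comp measurable_snd).prodMk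
        (measurable_fst.comp (measurable_snd.comp measurable_snd)))
  exact PC.comp (S := fun p : (ℕ → Bool) × (ℕ → Bool) × (ℕ → ℕ) × ℕ =>
    Sat (PU.cd p.1) {b | p.2.1 b = true} (d p.2.2.2) p.2.2.1) (pc_of_measurableSet h)
    (PCF.mk hE (PCF.mk hM (PCF.mk hs hk)))

theorem PCF.update {s : X → ℕ → ℕ} {b : X → ℕ} (hs : PCF s) (hb : PCF b) :
    PCF (fun x => Function.update (s x) 0 (b x)) := by
  have h : Continuous (fun p : (ℕ → ℕ) × ℕ => Function.update p.1 0 p.2) :=
    continuous_fst.update 0 continuous_snd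
  exact PCF.comp (g := fun p : (ℕ → ℕ) × ℕ => Function.update p.1 0 p.2)
    (PCF.of_continuous h) (PCF.mk hs hb)

/-- the clause relating the elements of `a` to a formula -/
def LCl (E M : ℕ → Bool) (a : ℕ) (φ : Fml) (s : ℕ → ℕ) : Prop :=
  ∀ b, cd E b a ↔ M b = true ∧ Sat (cd E) {b | M b = true} φ (Function.update s 0 b)

theorem PC.lcl (d : ℕ → Fml) {E M : X → ℕ → Bool} {a k : X → ℕ} {s : X → ℕ → ℕ} (hE : PCF E)
    (hM : PCF M) (ha : PCF a) (hk : PCF k) (hs : PCF s) :
    PC (fun x => LCl (E x) (M x) (a x) (d (k x)) (s x)) := by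
  have h : PC (fun p : (ℕ → Bool) × (ℕ → Bool) × ℕ × ℕ × (ℕ → ℕ) =>
      LCl p.1 p.2.1 p.2.2.1 (d p.2.2.2.1) p.2.2.2.2) := by
    unfold LCl
    repeat' with_reducible first
      | assumption
      | apply PC.and
      | apply PC.iff
      | apply PC.all
      | apply PC.cd
      | apply PC.bool
      | apply PC.sat
      | apply PCF.update
      | apply PCF.eval
      | apply PCF.fst
      | apply PCF.snd
      | apply PCF.id
  exact PC.comp h (PCF.mk hE (PCF.mk hM (PCF.mk ha (PCF.mk hk hs))))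

/-- `M` is the characteristic function of `lset E ρ γ` -/
def LM (E : ℕ → Bool) (ρ : ℕ → Om) (γ : Om) (M : ℕ → Bool) : Prop :=
  ∀ b, M b = true ↔ ¬ cd E b b ∧ ρ b < γ

theorem LM.eq {E : ℕ → Bool} {ρ : ℕ → Om} {γ : Om} {M : ℕ → Bool} (h : LM E ρ γ M) :
    {b | M b = true} = lset E ρ γ := by
  ext b
  exact h b

theorem exists_LM (E : ℕ → Bool) (ρ : ℕ → Om) (γ : Om) : ∃ M, LM E ρ γ M := by
  classical
  exact ⟨fun b => decide (¬ cd E b b ∧ ρ b < γ), fun b => by simp⟩

theorem lcode_iff (d : ℕ → Fml) (hd : Function.Surjective d) (β : Om) (E : ℕ → Bool) (ρ : ℕ → Om) :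
    LCode β E ρ ↔
    (∀ a, ¬ cd E a a → ρ a < β) ∧
    (∀ a, ¬ cd E a a → ∃ (M : ℕ → Bool) (k : ℕ) (s : ℕ → ℕ), LM E ρ (ρ a) M ∧
      ((∃ b, M b = true) → ∀ i, M (s i) = true) ∧ LCl E M a (d k) s) ∧
    (∀ γ, γ < β → ∀ (M : ℕ → Bool) (k : ℕ) (s : ℕ → ℕ), LM E ρ γ M →
      ((∃ b, M b = true) → ∀ i, M (s i) = true) → ∃ a, ¬ cd E a a ∧ ρ a ≤ γ ∧
      LCl E M a (d k) s) ∧
    (∀ a a', ¬ cd E a a → ¬ cd E a' a' → (∀ b, cd E b a ↔ cd E b a') → a = a') := by
  have hcl : ∀ (γ : Om) (M : ℕ → Bool), LM E ρ γ M → ∀ (a : ℕ) (φ : Fml) (s : ℕ → ℕ),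
      LCl E M a φ s ↔ ∀ b, cd E b a ↔ b ∈ lset E ρ γ ∧
        Sat (cd E) (lset E ρ γ) φ (Function.update s 0 b) := by
    intro γ M hM a φ s
    unfold LCl
    rw [hM.eq]
    have : ∀ b, (M b = true ↔ b ∈ lset E ρ γ) := fun b => hM b
    simp only [this]
  have hne : ∀ (γ : Om) (M : ℕ → Bool), LM E ρ γ M → ∀ s : ℕ → ℕ,
      (((∃ b, M b = true) → ∀ i, M (s i) = true) ↔
        ((lset E ρ γ).Nonempty → ∀ i, s i ∈ lset E ρ γ)) := by
    intro γ M hM s
    have h1 : ∀ b, (M b = true ↔ b ∈ lset E ρ γ) := fun b => hM b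
    simp only [h1]
    exact Iff.rfl
  unfold LCode
  refine and_congr Iff.rfl (and_congr ?_ (and_congr ?_ Iff.rfl))
  · refine forall_congr' fun a => imp_congr Iff.rfl ?_
    constructor
    · rintro ⟨φ, s, h1, h2⟩
      obtain ⟨k, rfl⟩ := hd φ
      obtain ⟨M, hM⟩ := exists_LM E ρ (ρ a)
      exact ⟨M, k, s, hM, (hne _ M hM s).2 h1, (hcl _ M hM a _ s).2 h2⟩
    · rintro ⟨M, k, s, hM, h1, h2⟩
      exact ⟨d k, s, (hne _ M hM s).1 h1, (hcl _ M hM a _ s).1 h2⟩
  · refine forall_congr' fun γ => imp_congr Iff.rfl ?_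
    constructor
    · intro h M k s hM h1
      obtain ⟨a, ha1, ha2, ha3⟩ := h (d k) s ((hne _ M hM s).1 h1)
      exact ⟨a, ha1, ha2, (hcl _ M hM a _ s).2 ha3⟩
    · intro h φ s h1
      obtain ⟨k, rfl⟩ := hd φ
      obtain ⟨M, hM⟩ := exists_LM E ρ γ
      obtain ⟨a, ha1, ha2, ha3⟩ := h M k s hM ((hne _ M hM s).2 h1)
      exact ⟨a, ha1, ha2, (hcl _ M hM a _ s).1 ha3⟩

theorem PC.lcode {β : X → Om} {E : X → ℕ → Bool} {ρ : X → ℕ → Om} (hβ : PCF β) (hE : PCF E)
    (hρ : PCF ρ) : PC (fun x => LCode (β x) (E x) (ρ x)) := by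
  obtain ⟨d, hd⟩ := fml_enum
  have h : PC (fun p : Om × (ℕ → Bool) × (ℕ → Om) => LCode p.1 p.2.1 p.2.2) := by
    refine PC.congr (fun p => (lcode_iff d hd p.1 p.2.1 p.2.2).symm) ?_
    unfold LM
    repeat' with_reducible first
      | assumption
      | apply PC.and
      | apply PC.iff
      | apply PC.not
      | apply PC.ex
      | apply PC.all
      | apply PC.imp
      | apply PC.eq
      | apply PC.olt
      | apply PC.ole
      | apply PC.cd
      | apply PC.bool
      | apply PC.lcl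
      | apply PCF.eval
      | apply PCF.fst
      | apply PCF.snd
      | apply PCF.id
      | apply PCF.const
  exact PC.comp h (PCF.mk hβ (PCF.mk hE hρ))

end PU
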