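import Pool.Agent.PU.Defs

/-!
PU PROJ: closure properties of the projective sets.

The level versions are proved first, by induction on the level, for all Polish spaces at once.
-/

namespace PU

open MeasureTheory Set

section level

/-- A set of level `n` has preimages of level `n` under continuous maps. -/
theorem Sig.preimage (n : ℕ) : ∀ {X Y : Type} [TopologicalSpace X] [TopologicalSpace Y]
    [PolishSpace X] [PolishSpace Y] {A : Set Y}, Sig n Y A → ∀ {f : X → Y}, Continuous f →
    Sig n X (f ⁻¹' A) := by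
  induction n with
  | zero =>
    intro X Y _ _ _ _ A hA f hf
    exact AnalyticSet.preimage hA hf
  | succ n ih =>
    intro X Y _ _ _ _ A hA f hf
    obtain ⟨B, hB, rfl⟩ := hA
    refine ⟨{p | (f p.1, p.2) ∈ B}, ?_, ?_⟩
    · have hc : Continuous (fun p : X × (ℕ → ℕ) => (f p.1, p.2)) := by fun_prop
      exact ih (A := Bᶜ) hB hc
    · ext x
      constructor
      · rintro ⟨⟨y, w⟩, hyw, hy⟩
        refine ⟨(x, w), ?_, rfl⟩
        change (f x, w) ∈ B
        have : y = f x := hy
        rw [← this]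
        exact hyw
      · rintro ⟨⟨x', w⟩, hw, rfl⟩
        exact ⟨(f x', w), hw, rfl⟩

theorem Sig.compl (n : ℕ) {X : Type} [TopologicalSpace X] [PolishSpace X] {A : Set X}
    (hA : Sig n X A) : Sig (n + 1) X Aᶜ := by
  refine ⟨Prod.fst ⁻¹' Aᶜ, ?_, ?_⟩
  · rw [preimage_compl, compl_compl]
    exact Sig.preimage n hA continuous_fst
  · ext x
    constructor
    · intro hx
      exact ⟨(x, fun _ => 0), hx, rfl⟩
    · rintro ⟨p, hp, rfl⟩
      exact hp

theorem Sig.succ (n : ℕ) : ∀ {X : Type} [TopologicalSpace X] [PolishSpace X] {A : Set X},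
    Sig n X A → Sig (n + 1) X A := by
  induction n with
  | zero =>
    intro X _ _ A hA
    have h : AnalyticSet A := hA
    rw [AnalyticSet] at h
    rcases h with h | ⟨g, hg, hr⟩
    · refine ⟨∅, ?_, ?_⟩
      · rw [compl_empty]
        exact isClosed_univ.analyticSet
      · rw [h]; simp
    · refine ⟨{p : X × (ℕ → ℕ) | g p.2 = p.1}, ?_, ?_⟩
      · have hc : IsClosed {p : X × (ℕ → ℕ) | g p.2 = p.1} :=
          isClosed_eq (hg.comp continuous_snd) continuous_fst
        borelize (X × (ℕ → ℕ))
        exact hc.isOpen_compl.measurableSet.analyticSet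
      · rw [← hr]
        ext x
        constructor
        · rintro ⟨w, rfl⟩
          exact ⟨(g w, w), rfl, rfl⟩
        · rintro ⟨⟨y, w⟩, h, rfl⟩
          exact ⟨w, h⟩
  | succ n ih =>
    intro X _ _ A hA
    obtain ⟨B, hB, rfl⟩ := hA
    exact ⟨B, ih hB, rfl⟩

theorem Sig.mono {m n : ℕ} (h : m ≤ n) {X : Type} [TopologicalSpace X] [PolishSpace X]
    {A : Set X} (hA : Sig m X A) : Sig n X A := by
  induction h with
  | refl => exact hA
  | step _ ih => exact Sig.succ _ ih

theorem Sig.inter_union (n : ℕ) : ∀ {X : Type} [TopologicalSpace X] [PolishSpace X]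
    {A B : Set X}, Sig n X A → Sig n X B → Sig n X (A ∩ B) ∧ Sig n X (A ∪ B) := by
  induction n with
  | zero =>
    intro X _ _ A B hA hB
    constructor
    · have h := AnalyticSet.iInter (s := fun b : Bool => cond b A B)
        (fun b => by cases b <;> assumption)
      have h2 : (⋂ b : Bool, cond b A B) = A ∩ B := by
        ext x; simp [and_comm]
      rw [h2] at h
      exact h
    · have h := AnalyticSet.iUnion (s := fun b : Bool => cond b A B)
        (fun b => by cases b <;> assumption)
      have h2 : (⋃ b : Bool, cond b A B) = A ∪ B := by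
        ext x; simp [or_comm]
      rw [h2] at h
      exact h
  | succ n ih =>
    intro X _ _ A A' hA hA'
    obtain ⟨B, hB, rfl⟩ := hA
    obtain ⟨B', hB', rfl⟩ := hA'
    constructor
    · let e : (ℕ → ℕ) → ℕ → ℕ := fun w k => w (2 * k)
      let o : (ℕ → ℕ) → ℕ → ℕ := fun w k => w (2 * k + 1)
      have he : Continuous e := continuous_pi fun k => continuous_apply (2 * k)
      have ho : Continuous o := continuous_pi fun k => continuous_apply (2 * k + 1)
      have hpair : ∀ u v : ℕ → ℕ, ∃ w, e w = u ∧ o w = v := by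
        intro u v
        refine ⟨fun k => if k % 2 = 0 then u (k / 2) else v (k / 2), ?_, ?_⟩
        · funext k
          simp [e]
        · funext k
          have h1 : (2 * k + 1) % 2 = 1 := by omega
          have h2 : (2 * k + 1) / 2 = k := by omega
          simp [o, h2]
      refine ⟨{p | (p.1, e p.2) ∈ B ∧ (p.1, o p.2) ∈ B'}, ?_, ?_⟩
      · have h1 : Sig n (X × (ℕ → ℕ)) ((fun p : X × (ℕ → ℕ) => (p.1, e p.2)) ⁻¹' Bᶜ) :=
          Sig.preimage n hB (by fun_prop)
        have h2 : Sig n (X × (ℕ → ℕ)) ((fun p : X × (ℕ → ℕ) => (p.1, o p.2)) ⁻¹' B'ᶜ) :=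
          Sig.preimage n hB' (by fun_prop)
        have h3 := (ih h1 h2).2
        have : {p : X × (ℕ → ℕ) | (p.1, e p.2) ∈ B ∧ (p.1, o p.2) ∈ B'}ᶜ =
            ((fun p : X × (ℕ → ℕ) => (p.1, e p.2)) ⁻¹' Bᶜ) ∪
            ((fun p : X × (ℕ → ℕ) => (p.1, o p.2)) ⁻¹' B'ᶜ) := by
          ext p
          change ¬ (_ ∧ _) ↔ (¬ _ ∨ ¬ _)
          exact not_and_or
        rw [this]
        exact h3
      · ext x
        constructor
        · rintro ⟨⟨⟨y, u⟩, hu, rfl⟩, ⟨y', v⟩, hv, hy⟩
          obtain ⟨w, hw1, hw2⟩ := hpair u v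
          refine ⟨(y, w), ⟨?_, ?_⟩, rfl⟩
          · change (y, e w) ∈ B
            rw [hw1]; exact hu
          · change (y, o w) ∈ B'
            have : y' = y := hy
            rw [hw2, ← this]; exact hv
        · rintro ⟨⟨y, w⟩, ⟨h1, h2⟩, rfl⟩
          exact ⟨⟨(y, e w), h1, rfl⟩, ⟨(y, o w), h2, rfl⟩⟩
    · refine ⟨B ∪ B', ?_, ?_⟩
      · rw [compl_union]
        exact (ih hB hB').1
      · rw [image_union]

theorem Sig.image_fst (n : ℕ) : ∀ {X Y : Type} [TopologicalSpace X] [TopologicalSpace Y]
    [PolishSpace X] [PolishSpace Y] {A : Set (X × Y)}, Sig n (X × Y) A →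
    Sig n X (Prod.fst '' A) := by
  cases n with
  | zero =>
    intro X Y _ _ _ _ A hA
    exact AnalyticSet.image_of_continuous hA continuous_fst
  | succ n =>
    intro X Y _ _ _ _ A hA
    obtain ⟨B, hB, rfl⟩ := hA
    rcases isEmpty_or_nonempty Y with hY | hY
    · have h0 : (Prod.fst '' (Prod.fst '' B) : Set X) = ∅ := by
        ext x
        simp only [mem_image, mem_empty_iff_false, iff_false]
        rintro ⟨p, -, -⟩
        exact hY.elim p.2
      rw [h0]
      exact Sig.mono (Nat.zero_le _) (show Sig 0 X ∅ from analyticSet_empty)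
    · obtain ⟨g, hg, hs⟩ := PolishSpace.exists_nat_nat_continuous_surjective (Y × (ℕ → ℕ))
      refine ⟨{p | ((p.1, (g p.2).1), (g p.2).2) ∈ B}, ?_, ?_⟩
      · have hc : Continuous (fun p : X × (ℕ → ℕ) => ((p.1, (g p.2).1), (g p.2).2)) := by
          fun_prop
        exact Sig.preimage n hB hc
      · ext x
        constructor
        · rintro ⟨⟨x', y⟩, ⟨⟨⟨x'', y'⟩, w⟩, hB, h⟩, rfl⟩
          obtain ⟨v, hv⟩ := hs (y, w)
          refine ⟨(x', v), ?_, rfl⟩
          change ((x', (g v).1), (g v).2) ∈ B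
          rw [hv]
          have h' : (x'', y') = (x', y) := h
          rw [← h']
          exact hB
        · rintro ⟨⟨x', v⟩, h, rfl⟩
          exact ⟨(x', (g v).1), ⟨_, h, rfl⟩, rfl⟩

end level

variable {X Y : Type} [TopologicalSpace X] [TopologicalSpace Y] [PolishSpace X] [PolishSpace Y]

theorem Projective.compl {A : Set X} (hA : Projective A) : Projective Aᶜ := by
  obtain ⟨n, h⟩ := hA
  exact ⟨n + 1, Sig.compl n h⟩

theorem Projective.inter {A B : Set X} (hA : Projective A) (hB : Projective B) :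
    Projective (A ∩ B) := by
  obtain ⟨m, h⟩ := hA
  obtain ⟨n, h'⟩ := hB
  exact ⟨max m n, (Sig.inter_union _ (Sig.mono (le_max_left m n) h)
    (Sig.mono (le_max_right m n) h')).1⟩

theorem Projective.union {A B : Set X} (hA : Projective A) (hB : Projective B) :
    Projective (A ∪ B) := by
  obtain ⟨m, h⟩ := hA
  obtain ⟨n, h'⟩ := hB
  exact ⟨max m n, (Sig.inter_union _ (Sig.mono (le_max_left m n) h)
    (Sig.mono (le_max_right m n) h')).2⟩

theorem Projective.preimage {A : Set Y} (hA : Projective A) {f : X → Y} (hf : Continuous f) :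
    Projective (f ⁻¹' A) := by
  obtain ⟨n, h⟩ := hA
  exact ⟨n, Sig.preimage n h hf⟩

theorem Projective.image_fst {A : Set (X × Y)} (hA : Projective A) :
    Projective (Prod.fst '' A) := by
  obtain ⟨n, h⟩ := hA
  exact ⟨n, Sig.image_fst n h⟩

omit [PolishSpace X] in
theorem projective_of_analytic {A : Set X} (hA : AnalyticSet A) : Projective A := ⟨0, hA⟩

theorem projective_of_measurable [MeasurableSpace X] [BorelSpace X] {A : Set X}
    (hA : MeasurableSet A) : Projective A := ⟨0, hA.analyticSet⟩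

end PU
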