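import Pool.Agent.PU.Proj

/-!
PU REP: represented types and the calculus of projective-in-the-codes predicates.
-/

namespace PU

open MeasureTheory Set

universe u v w

instance polishCantor : PolishSpace (ℕ → Bool) := { }

/-- A represented type: a partial surjection from a Polish space of codes, whose kernel is
projective. -/
class Rep (X : Type u) where
  C : Type
  top : TopologicalSpace C
  pol : PolishSpace C
  rel : C → X → Prop
  inj : ∀ c x x', rel c x → rel c x' → x = x'
  surj : ∀ x, ∃ c, rel c x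
  eqv : Projective {p : C × C | ∃ x, rel p.1 x ∧ rel p.2 x}

attribute [instance] Rep.top Rep.pol

/-- A predicate on a represented type is projective in the codes. -/
def PC {X : Type u} [Rep X] (S : X → Prop) : Prop :=
  Projective {c : Rep.C X | ∃ x, Rep.rel c x ∧ S x}

variable {X : Type u} {Y : Type v} {Z : Type w} [Rep X] [Rep Y] [Rep Z]

theorem Projective.congr {X : Type} [TopologicalSpace X] {A B : Set X} (h : ∀ x, x ∈ A ↔ x ∈ B)
    (hA : Projective A) : Projective B := by
  have : A = B := Set.ext h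
  rwa [← this]

theorem Rep.dom_proj : Projective {c : Rep.C X | ∃ x, Rep.rel c x} := by
  have h := (Rep.eqv (X := X)).preimage (f := fun c : Rep.C X => (c, c)) (by fun_prop)
  convert h using 1
  ext c
  simp

theorem PC.congr {S T : X → Prop} (h : ∀ x, S x ↔ T x) (hS : PC S) : PC T := by
  have : S = T := funext fun x => propext (h x)
  rwa [← this]

theorem PC.const (p : Prop) : PC (fun _ : X => p) := by
  by_cases hp : p
  · simp only [PC, hp, and_true]
    exact Rep.dom_proj
  · simp only [PC, hp, and_false, exists_false, Set.ofPred_false]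
    exact projective_of_analytic analyticSet_empty

theorem PC.not {S : X → Prop} (hS : PC S) : PC (fun x => ¬ S x) := by
  have h := (Rep.dom_proj (X := X)).inter (Projective.compl hS)
  unfold PC
  convert h using 1
  ext c
  simp only [mem_ofPred_eq, mem_inter_iff, mem_compl_iff, not_exists, not_and]
  constructor
  · rintro ⟨x, hx, hS⟩
    exact ⟨⟨x, hx⟩, fun y hy => Rep.inj c x y hx hy ▸ hS⟩
  · rintro ⟨⟨x, hx⟩, h⟩
    exact ⟨x, hx, h x hx⟩

theorem PC.and {S T : X → Prop} (hS : PC S) (hT : PC T) : PC (fun x => S x ∧ T x) := by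
  have h := Projective.inter hS hT
  unfold PC
  convert h using 1
  ext c
  simp only [mem_ofPred_eq, mem_inter_iff]
  constructor
  · rintro ⟨x, hx, hS, hT⟩
    exact ⟨⟨x, hx, hS⟩, ⟨x, hx, hT⟩⟩
  · rintro ⟨⟨x, hx, hS⟩, ⟨y, hy, hT⟩⟩
    exact ⟨x, hx, hS, Rep.inj c x y hx hy ▸ hT⟩

theorem PC.or {S T : X → Prop} (hS : PC S) (hT : PC T) : PC (fun x => S x ∨ T x) := by
  refine PC.congr (fun x => ?_) (PC.not (PC.and (PC.not hS) (PC.not hT)))
  tauto

theorem PC.imp {S T : X → Prop} (hS : PC S) (hT : PC T) : PC (fun x => S x → T x) := by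
  refine PC.congr (fun x => ?_) (PC.or (PC.not hS) hT)
  tauto

theorem PC.iff {S T : X → Prop} (hS : PC S) (hT : PC T) : PC (fun x => S x ↔ T x) := by
  refine PC.congr (fun x => ?_) (PC.and (PC.imp hS hT) (PC.imp hT hS))
  tauto

instance : Rep (X × Y) where
  C := Rep.C X × Rep.C Y
  top := inferInstance
  pol := inferInstance
  rel c p := Rep.rel c.1 p.1 ∧ Rep.rel c.2 p.2
  inj c x x' h h' := Prod.ext (Rep.inj _ _ _ h.1 h'.1) (Rep.inj _ _ _ h.2 h'.2)
  surj x := by
    obtain ⟨c, hc⟩ := Rep.surj x.1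
    obtain ⟨d, hd⟩ := Rep.surj x.2
    exact ⟨(c, d), hc, hd⟩
  eqv := by
    have h1 := (Rep.eqv (X := X)).preimage
      (f := fun p : (Rep.C X × Rep.C Y) × (Rep.C X × Rep.C Y) => (p.1.1, p.2.1)) (by fun_prop)
    have h2 := (Rep.eqv (X := Y)).preimage
      (f := fun p : (Rep.C X × Rep.C Y) × (Rep.C X × Rep.C Y) => (p.1.2, p.2.2)) (by fun_prop)
    convert h1.inter h2 using 1
    ext p
    simp only [mem_ofPred_eq, mem_inter_iff, mem_preimage, Prod.exists]
    constructor
    · rintro ⟨a, b, h, h'⟩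
      exact ⟨⟨a, h.1, h'.1⟩, ⟨b, h.2, h'.2⟩⟩
    · rintro ⟨⟨a, h, h'⟩, ⟨b, k, k'⟩⟩
      exact ⟨a, b, ⟨h, k⟩, h', k'⟩

theorem PC.ex {S : X → Y → Prop} (h : PC (fun p : X × Y => S p.1 p.2)) :
    PC (fun x => ∃ y, S x y) := by
  have h1 := Projective.image_fst (X := Rep.C X) (Y := Rep.C Y) h
  unfold PC
  convert h1 using 1
  ext c
  simp only [mem_ofPred_eq, mem_image, Prod.exists, exists_and_right, exists_eq_right]
  constructor
  · rintro ⟨x, hx, y, hS⟩
    obtain ⟨d, hd⟩ := Rep.surj y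
    exact ⟨d, x, y, ⟨hx, hd⟩, hS⟩
  · rintro ⟨d, x, y, ⟨hx, hd⟩, hS⟩
    exact ⟨x, hx, y, hS⟩

theorem PC.all {S : X → Y → Prop} (h : PC (fun p : X × Y => S p.1 p.2)) :
    PC (fun x => ∀ y, S x y) := by
  refine PC.congr (fun x => ?_) (PC.not (PC.ex (S := fun x y => ¬ S x y) (PC.not h)))
  simp

/-- A function between represented types whose graph is projective in the codes. -/
def PCF (f : X → Y) : Prop := PC (fun p : X × Y => f p.1 = p.2)

theorem PC.fst_dom {S : X → Prop} (h : PC S) : PC (fun p : X × Y => S p.1) := by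
  have h1 := Projective.preimage (X := Rep.C X × Rep.C Y) h (f := Prod.fst) continuous_fst
  have h2 := (Rep.dom_proj (X := Y)).preimage (X := Rep.C X × Rep.C Y) (f := Prod.snd)
    continuous_snd
  refine Projective.congr (X := Rep.C X × Rep.C Y) (fun c => ?_) (h1.inter h2)
  constructor
  · rintro ⟨⟨x, hx, hS⟩, ⟨y, hy⟩⟩
    exact ⟨(x, y), ⟨hx, hy⟩, hS⟩
  · rintro ⟨x, hx, hS⟩
    exact ⟨⟨x.1, hx.1, hS⟩, ⟨x.2, hx.2⟩⟩

theorem PC.snd_dom {S : Y → Prop} (h : PC S) : PC (fun p : X × Y => S p.2) := by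
  have h1 := Projective.preimage (X := Rep.C X × Rep.C Y) h (f := Prod.snd) continuous_snd
  have h2 := (Rep.dom_proj (X := X)).preimage (X := Rep.C X × Rep.C Y) (f := Prod.fst)
    continuous_fst
  refine Projective.congr (X := Rep.C X × Rep.C Y) (fun c => ?_) (h1.inter h2)
  constructor
  · rintro ⟨⟨x, hx, hS⟩, ⟨y, hy⟩⟩
    exact ⟨(y, x), ⟨hy, hx⟩, hS⟩
  · rintro ⟨x, hx, hS⟩
    exact ⟨⟨x.2, hx.2, hS⟩, ⟨x.1, hx.1⟩⟩

theorem PC.comp {S : Y → Prop} (hS : PC S) {f : X → Y} (hf : PCF f) : PC (fun x => S (f x)) := by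
  refine PC.congr (fun x => ?_) (PC.ex (S := fun x y => f x = y ∧ S y)
    (PC.and hf (PC.snd_dom hS)))
  simp

theorem pc_eq : PC (fun p : X × X => p.1 = p.2) := by
  refine Projective.congr (X := Rep.C X × Rep.C X) (fun c => ?_) (Rep.eqv (X := X))
  constructor
  · rintro ⟨x, hx, hx'⟩
    exact ⟨(x, x), ⟨hx, hx'⟩, rfl⟩
  · rintro ⟨x, hx, h⟩
    exact ⟨x.1, hx.1, h ▸ hx.2⟩

theorem PCF.id : PCF (fun x : X => x) := pc_eq

theorem PCF.const (y : Y) : PCF (fun _ : X => y) := by
  have h : PC (fun z : Y => y = z) := by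
    obtain ⟨c, hc⟩ := Rep.surj y
    have h1 := (Rep.eqv (X := Y)).preimage (f := fun d : Rep.C Y => (c, d)) (by fun_prop)
    unfold PC
    convert h1 using 1
    ext d
    constructor
    · rintro ⟨z, hz, h⟩
      exact ⟨z, h ▸ hc, hz⟩
    · rintro ⟨z, hz, h⟩
      exact ⟨z, h, Rep.inj c y z hc hz⟩
  exact PC.snd_dom h

/-- A relation `T x y` that is functional with value `f x`. -/
theorem PCF.of_graph {f : X → Y} {T : X → Y → Prop} (hT : PC (fun p : X × Y => T p.1 p.2))
    (h : ∀ x y, T x y ↔ f x = y) : PCF f := PC.congr (fun p => h p.1 p.2) hT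

/-- General substitution of coordinates: a continuous map on codes that tracks `f`. -/
theorem PCF.of_track {f : X → Y} (φ : Rep.C X → Rep.C Y) (hφ : Continuous φ)
    (h : ∀ c x, Rep.rel c x → Rep.rel (φ c) (f x)) : PCF f := by
  have h1 := (Rep.eqv (X := Y)).preimage
    (f := fun p : Rep.C X × Rep.C Y => (φ p.1, p.2)) (by fun_prop)
  have h2 := (Rep.dom_proj (X := X)).preimage (f := fun p : Rep.C X × Rep.C Y => p.1)
    (by fun_prop)
  refine Projective.congr (X := Rep.C X × Rep.C Y) (fun c => ?_) (h1.inter h2)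
  constructor
  · rintro ⟨⟨y, hy, hy'⟩, ⟨x, hx⟩⟩
    refine ⟨(x, y), ⟨hx, hy'⟩, ?_⟩
    exact Rep.inj _ _ _ (h _ _ hx) hy
  · rintro ⟨x, hx, h'⟩
    exact ⟨⟨f x.1, h _ _ hx.1, by rw [h']; exact hx.2⟩, ⟨x.1, hx.1⟩⟩

theorem PCF.fst' : PCF (fun p : X × Y => p.1) :=
  PCF.of_track (X := X × Y) (Y := X) (fun c : Rep.C X × Rep.C Y => c.1) continuous_fst
    fun _ _ h => h.1

theorem PCF.snd' : PCF (fun p : X × Y => p.2) :=
  PCF.of_track (X := X × Y) (Y := Y) (fun c : Rep.C X × Rep.C Y => c.2) continuous_snd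
    fun _ _ h => h.2

theorem PCF.comp {g : Y → Z} {f : X → Y} (hg : PCF g) (hf : PCF f) : PCF (fun x => g (f x)) := by
  refine PCF.of_graph (T := fun x z => ∃ y, f x = y ∧ g y = z) ?_ (by simp)
  refine PC.ex (X := X × Z) (Y := Y) (S := fun p y => f p.1 = y ∧ g y = p.2) ?_
  refine PC.and ?_ ?_
  · have : PCF (fun q : (X × Z) × Y => (q.1.1, q.2)) :=
      PCF.of_track (X := (X × Z) × Y) (Y := X × Y)
        (fun c : (Rep.C X × Rep.C Z) × Rep.C Y => (c.1.1, c.2)) (by fun_prop)
        fun _ _ h => ⟨h.1.1, h.2⟩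
    exact PC.comp (S := fun p : X × Y => f p.1 = p.2) hf this
  · have : PCF (fun q : (X × Z) × Y => (q.2, q.1.2)) :=
      PCF.of_track (X := (X × Z) × Y) (Y := Y × Z)
        (fun c : (Rep.C X × Rep.C Z) × Rep.C Y => (c.2, c.1.2)) (by fun_prop)
        fun _ _ h => ⟨h.2, h.1.2⟩
    exact PC.comp (S := fun p : Y × Z => g p.1 = p.2) hg this

theorem PCF.fst {f : X → Y × Z} (hf : PCF f) : PCF (fun x => (f x).1) := PCF.comp PCF.fst' hf

theorem PCF.snd {f : X → Y × Z} (hf : PCF f) : PCF (fun x => (f x).2) := PCF.comp PCF.snd' hf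

theorem PCF.mk {f : X → Y} {g : X → Z} (hf : PCF f) (hg : PCF g) :
    PCF (fun x => (f x, g x)) := by
  refine PCF.of_graph (T := fun x p => f x = p.1 ∧ g x = p.2) ?_
    (fun x p => by rw [Prod.ext_iff])
  refine PC.and ?_ ?_
  · have : PCF (fun q : X × (Y × Z) => (q.1, q.2.1)) :=
      PCF.of_track (X := X × (Y × Z)) (Y := X × Y)
        (fun c : Rep.C X × (Rep.C Y × Rep.C Z) => (c.1, c.2.1)) (by fun_prop)
        fun _ _ h => ⟨h.1, h.2.1⟩
    exact PC.comp (S := fun p : X × Y => f p.1 = p.2) hf this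
  · have : PCF (fun q : X × (Y × Z) => (q.1, q.2.2)) :=
      PCF.of_track (X := X × (Y × Z)) (Y := X × Z)
        (fun c : Rep.C X × (Rep.C Y × Rep.C Z) => (c.1, c.2.2)) (by fun_prop)
        fun _ _ h => ⟨h.1, h.2.2⟩
    exact PC.comp (S := fun p : X × Z => g p.1 = p.2) hg this

theorem PC.eq {f g : X → Y} (hf : PCF f) (hg : PCF g) : PC (fun x => f x = g x) :=
  PC.comp (S := fun p : Y × Y => p.1 = p.2) pc_eq (PCF.mk hf hg)

/-! ### Basic represented types -/

/-- A Polish type represented by itself. -/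
@[reducible] def Rep.ofPolish (X : Type) [TopologicalSpace X] [PolishSpace X] : Rep X where
  C := X
  top := inferInstance
  pol := inferInstance
  rel c x := c = x
  inj _ _ _ h h' := h.symm.trans h'
  surj x := ⟨x, rfl⟩
  eqv := by
    refine projective_of_analytic (IsClosed.analyticSet ?_)
    have : {p : X × X | ∃ x, p.1 = x ∧ p.2 = x} = {p : X × X | p.1 = p.2} := by
      ext p
      constructor
      · rintro ⟨x, h, h'⟩
        exact h.trans h'.symm
      · intro h
        exact ⟨p.2, h, rfl⟩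
    rw [this]
    exact isClosed_eq continuous_fst continuous_snd

instance : Rep ℕ := Rep.ofPolish ℕ
instance : Rep Bool := Rep.ofPolish Bool

theorem Projective.univ {X : Type} [TopologicalSpace X] [PolishSpace X] :
    Projective (Set.univ : Set X) := projective_of_analytic isClosed_univ.analyticSet

theorem Projective.all_nat {X : Type} [TopologicalSpace X] [PolishSpace X] {A : ℕ → Set X}
    (h : Projective {p : X × ℕ | p.1 ∈ A p.2}) : Projective (⋂ n, A n) := by
  have h1 := (Projective.image_fst h.compl).compl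
  convert h1 using 1
  ext x
  simp

instance Rep.pi {Y : Type v} [Rep Y] : Rep (ℕ → Y) where
  C := ℕ → Rep.C Y
  top := inferInstance
  pol := inferInstance
  rel c x := ∀ n, Rep.rel (c n) (x n)
  inj c x x' h h' := funext fun n => Rep.inj _ _ _ (h n) (h' n)
  surj x := by
    choose c hc using fun n => Rep.surj (x n)
    exact ⟨c, hc⟩
  eqv := by
    have h1 : Projective {p : ((ℕ → Rep.C Y) × (ℕ → Rep.C Y)) × ℕ |
        ∃ y : Y, Rep.rel (p.1.1 p.2) y ∧ Rep.rel (p.1.2 p.2) y} := by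
      have hc : Continuous (fun p : ((ℕ → Rep.C Y) × (ℕ → Rep.C Y)) × ℕ =>
          (p.1.1 p.2, p.1.2 p.2)) := by
        refine Continuous.prodMk ?_ ?_
        · refine continuous_prod_of_discrete_right.2 fun n => ?_
          exact (continuous_apply n).comp continuous_fst
        · refine continuous_prod_of_discrete_right.2 fun n => ?_
          exact (continuous_apply n).comp continuous_snd
      exact (Rep.eqv (X := Y)).preimage hc
    have h2 := Projective.all_nat (A := fun n => {p : (ℕ → Rep.C Y) × (ℕ → Rep.C Y) |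
      ∃ y : Y, Rep.rel (p.1 n) y ∧ Rep.rel (p.2 n) y}) h1
    convert h2 using 1
    ext p
    simp only [mem_ofPred_eq, mem_iInter]
    constructor
    · rintro ⟨x, h, h'⟩ n
      exact ⟨x n, h n, h' n⟩
    · intro h
      choose x hx hx' using h
      exact ⟨x, hx, hx'⟩

theorem PCF.eval' {Y : Type v} [Rep Y] : PCF (fun p : (ℕ → Y) × ℕ => p.1 p.2) := by
  refine PCF.of_track (X := (ℕ → Y) × ℕ) (Y := Y) (fun c : (ℕ → Rep.C Y) × ℕ => c.1 c.2) ?_ ?_
  · refine continuous_prod_of_discrete_right.2 fun n => ?_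
    fun_prop
  · rintro ⟨c, m⟩ ⟨x, n⟩ ⟨h, h'⟩
    have h'' : m = n := h'
    subst h''
    exact h m

theorem PCF.eval {Y : Type v} [Rep Y] {f : X → ℕ → Y} {n : X → ℕ} (hf : PCF f) (hn : PCF n) :
    PCF (fun x => f x (n x)) := PCF.comp (g := fun p : (ℕ → Y) × ℕ => p.1 p.2) PCF.eval'
      (PCF.mk hf hn)

/-- A represented Polish type whose representation is (homeomorphic to) the identity. -/
class Std (X : Type) [TopologicalSpace X] [Rep X] : Prop where
  e : ∃ h : X ≃ₜ Rep.C X, ∀ c x, Rep.rel c x ↔ c = h x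

instance : Std ℕ := ⟨⟨Homeomorph.refl ℕ, fun _ _ => Iff.rfl⟩⟩
instance : Std Bool := ⟨⟨Homeomorph.refl Bool, fun _ _ => Iff.rfl⟩⟩

instance Std.prod {X Y : Type} [TopologicalSpace X] [TopologicalSpace Y] [Rep X] [Rep Y] [Std X]
    [Std Y] : Std (X × Y) := by
  obtain ⟨h, hh⟩ := Std.e (X := X)
  obtain ⟨k, hk⟩ := Std.e (X := Y)
  refine ⟨⟨h.prodCongr k, fun c x => ?_⟩⟩
  constructor
  · intro hx
    exact Prod.ext ((hh _ _).1 hx.1) ((hk _ _).1 hx.2)
  · rintro rfl
    exact ⟨(hh _ _).2 rfl, (hk _ _).2 rfl⟩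

instance Std.pi {Y : Type} [TopologicalSpace Y] [Rep Y] [Std Y] : Std (ℕ → Y) := by
  obtain ⟨k, hk⟩ := Std.e (X := Y)
  refine ⟨⟨Homeomorph.piCongrRight fun _ => k, fun c x => ?_⟩⟩
  constructor
  · intro hx
    exact funext fun n => (hk _ _).1 (hx n)
  · rintro rfl n
    exact (hk _ _).2 rfl

theorem pc_of_projective {X : Type} [TopologicalSpace X] [PolishSpace X] [Rep X] [Std X]
    {A : Set X} (hA : Projective A) : PC (fun x => x ∈ A) := by
  obtain ⟨h, hh⟩ := Std.e (X := X)
  have h1 := hA.preimage (f := h.symm) h.symm.continuous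
  unfold PC
  convert h1 using 1
  ext c
  simp only [hh, mem_ofPred_eq, mem_preimage]
  constructor
  · rintro ⟨x, rfl, hx⟩
    simpa using hx
  · intro hx
    exact ⟨h.symm c, by simp, hx⟩

theorem projective_of_pc {X : Type} [TopologicalSpace X] [PolishSpace X] [Rep X] [Std X]
    {S : X → Prop} (hS : PC S) : Projective {x | S x} := by
  obtain ⟨h, hh⟩ := Std.e (X := X)
  have h1 := Projective.preimage (X := X) hS (f := h) h.continuous
  convert h1 using 1
  ext x
  simp only [hh, mem_ofPred_eq, mem_preimage]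
  constructor
  · intro hx
    exact ⟨x, rfl, hx⟩
  · rintro ⟨y, hy, hS⟩
    rwa [h.injective hy]

theorem PCF.of_continuous {X Y : Type} [TopologicalSpace X] [PolishSpace X] [Rep X] [Std X]
    [TopologicalSpace Y] [PolishSpace Y] [Rep Y] [Std Y] {f : X → Y} (hf : Continuous f) :
    PCF f := by
  refine pc_of_projective (X := X × Y) (A := {p | f p.1 = p.2}) ?_
  exact projective_of_analytic (IsClosed.analyticSet (isClosed_eq (by fun_prop) (by fun_prop)))

theorem PCF.of_measurable {X Y : Type} [TopologicalSpace X] [PolishSpace X] [Rep X] [Std X]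
    [TopologicalSpace Y] [PolishSpace Y] [Rep Y] [Std Y] [MeasurableSpace X] [BorelSpace X]
    [MeasurableSpace Y] [BorelSpace Y] {f : X → Y} (hf : Measurable f) :
    PCF f := by
  refine pc_of_projective (X := X × Y) (A := {p | f p.1 = p.2}) ?_
  refine projective_of_measurable (measurableSet_eq_fun ?_ ?_)
  · exact hf.comp measurable_fst
  · exact measurable_snd

theorem pc_of_measurableSet {X : Type} [TopologicalSpace X] [PolishSpace X] [Rep X] [Std X]
    [MeasurableSpace X] [BorelSpace X] {A : Set X} (hA : MeasurableSet A) :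
    PC (fun x => x ∈ A) := pc_of_projective (projective_of_measurable hA)

theorem PCF.nat {f : ℕ → ℕ} {n : X → ℕ} (hn : PCF n) : PCF (fun x => f (n x)) :=
  PCF.comp (PCF.of_continuous (continuous_of_discreteTopology (f := f))) hn

theorem PCF.nat2 {f : ℕ → ℕ → ℕ} {m n : X → ℕ} (hm : PCF m) (hn : PCF n) :
    PCF (fun x => f (m x) (n x)) :=
  PCF.comp (PCF.of_continuous (continuous_of_discreteTopology (f := fun p : ℕ × ℕ => f p.1 p.2)))
    (PCF.mk hm hn)

theorem PC.nat2 {S : ℕ → ℕ → Prop} {m n : X → ℕ} (hm : PCF m) (hn : PCF n) :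
    PC (fun x => S (m x) (n x)) := by
  have h : PC (fun p : ℕ × ℕ => p ∈ {p : ℕ × ℕ | S p.1 p.2}) := by
    refine pc_of_projective ?_
    exact projective_of_analytic (IsClosed.analyticSet (isClosed_discrete _))
  exact PC.comp (S := fun p : ℕ × ℕ => S p.1 p.2) h (PCF.mk hm hn)

end PU
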