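import Pool.Agent.PU.Meas

/-!
PU TOPA: the almost disjoint coding topology and its Baire property.

`J` is an index set of generic bits, `κ r n` says whether the bit `n` attached to the real `r` is a
fixed bit (`Sum.inl b`) or the generic bit `i` (`Sum.inr i`).

PROOFS.
Topology: `isOpen_univ`: `P = ∅, k = 0, F = ∅`.  `isOpen_inter`: for `p ∈ U ∩ V` with data
`(P, k, F)`, `(P', k', F')` take `(P ∪ P', max k k', F ∪ F')`: it is valid, contains `p`, and is
contained in both basic sets: if `q ∈ F` and `k ≤ enc q.1 q.2 m < max k k'` then the new point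
agrees with `p` at `enc q.1 q.2 m`, where `p.x` is `false` since `p ∈ Nb κ P p.c p.x k F`.
`isOpen_sUnion`: clear.
`isOpen_Nb`: for `p ∈ Nb κ P c x k F` the point `p.c` agrees with `c` on `P`, `p.x` with `x` below
`k`, so `Nb κ P p.c p.x k F = Nb κ P c x k F` and `Valid κ P p.c F`.
`nbBase`: given `p ∈ U` open, the data from the definition; enlarge `P` and `k` (enlarging `k` is
allowed since `p ∈ Nb κ P p.c p.x k F`).
Baire: `BaireSpace` asks that the intersection of countably many dense open sets `D n` is dense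
(`baire_property`).  Let `U` be open nonempty.  Choose recursively points `p_n` and valid data
`(P_n, k_n, F_n)` such that the basic set `N_n = Nb κ P_n p_n.c p_n.x k_n F_n` contains `p_n`,
`N_0 ⊆ U ∩ D 0`, `N_{n+1} ⊆ N_n ∩ D (n+1)`.  Each `N_n`, transported to the compact space
`(J → Bool) × (ℕ → Bool)` with the product topology (bijection `p ↦ (p.c, p.x)`), is closed: it is
defined by conditions on single coordinates.  So the decreasing sequence of nonempty closed sets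
has a common point (`IsCompact.nonempty_iInter_of_sequence_nonempty_isCompact_isClosed`), which lies
in `U` and in all `D n`.
-/

namespace PU

open MeasureTheory Set

universe u

variable {J : Type u}

/-- value of a bit -/
def bitv (c : J → Bool) : Bool ⊕ J → Bool := Sum.elim id c

/-- Points of the coding space. -/
@[ext]
structure Pt (κ : (ℕ → Bool) → ℕ → Bool ⊕ J) where
  c : J → Bool
  x : ℕ → Bool

variable (κ : (ℕ → Bool) → ℕ → Bool ⊕ J)

/-- the promise `F` is justified by the values of `c` on `P` -/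
def Valid (P : Finset J) (c : J → Bool) (F : Finset ((ℕ → Bool) × ℕ)) : Prop :=
  ∀ q ∈ F, κ q.1 q.2 = Sum.inl true ∨ ∃ i ∈ P, κ q.1 q.2 = Sum.inr i ∧ c i = true

/-- basic open sets -/
def Nb (P : Finset J) (c : J → Bool) (x : ℕ → Bool) (k : ℕ) (F : Finset ((ℕ → Bool) × ℕ)) :
    Set (Pt κ) :=
  {p | (∀ i ∈ P, p.c i = c i) ∧ (∀ j < k, p.x j = x j) ∧
    ∀ q ∈ F, ∀ m, k ≤ enc q.1 q.2 m → p.x (enc q.1 q.2 m) = false}

private theorem valid_mono {P P' : Finset J} {c : J → Bool} {F : Finset ((ℕ → Bool) × ℕ)}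
    (h : Valid κ P c F) (hP : P ⊆ P') : Valid κ P' c F := by
  intro q hq
  rcases h q hq with h1 | ⟨i, hi, h2⟩
  · exact Or.inl h1
  · exact Or.inr ⟨i, hP hi, h2⟩

private theorem valid_union [DecidableEq J] {P : Finset J} {c : J → Bool}
    {F F' : Finset ((ℕ → Bool) × ℕ)} (h : Valid κ P c F) (h' : Valid κ P c F')
    {G : Finset ((ℕ → Bool) × ℕ)} (hG : ∀ q ∈ G, q ∈ F ∨ q ∈ F') : Valid κ P c G := by
  intro q hq
  rcases hG q hq with h1 | h1
  · exact h q h1
  · exact h' q h1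

private theorem Nb_mono {P P' : Finset J} {k k' : ℕ} {F F' : Finset ((ℕ → Bool) × ℕ)} {p : Pt κ}
    (hp : p ∈ Nb κ P p.c p.x k F) (hP : P ⊆ P') (hk : k ≤ k') (hF : F ⊆ F') :
    Nb κ P' p.c p.x k' F' ⊆ Nb κ P p.c p.x k F := by
  intro r hr
  refine ⟨fun i hi => hr.1 i (hP hi), fun j hj => hr.2.1 j (lt_of_lt_of_le hj hk), ?_⟩
  intro q hq m hm
  rcases lt_or_ge (enc q.1 q.2 m) k' with h | h
  · rw [hr.2.1 _ h]
    exact hp.2.2 q hq m hm
  · exact hr.2.2 q (hF hq) m h

instance : TopologicalSpace (Pt κ) where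
  IsOpen U := ∀ p ∈ U, ∃ P k F, Valid κ P p.c F ∧ p ∈ Nb κ P p.c p.x k F ∧ Nb κ P p.c p.x k F ⊆ U
  isOpen_univ := by
    intro p _
    refine ⟨∅, 0, ∅, ?_, ⟨?_, ?_, ?_⟩, subset_univ _⟩
    · intro q hq
      simp at hq
    · intro i hi
      rfl
    · intro j hj
      rfl
    · intro q hq
      simp at hq
  isOpen_inter := by
    classical
    intro U V hU hV p hp
    obtain ⟨P, k, F, h1, h2, h3⟩ := hU p hp.1
    obtain ⟨P', k', F', h1', h2', h3'⟩ := hV p hp.2
    refine ⟨P ∪ P', max k k', F ∪ F', ?_, ⟨fun _ _ => rfl, fun _ _ => rfl, ?_⟩, ?_⟩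
    · exact valid_union κ (valid_mono κ h1 Finset.subset_union_left)
        (valid_mono κ h1' Finset.subset_union_right) (fun q hq => Finset.mem_union.1 hq)
    · intro q hq m hm
      rcases Finset.mem_union.1 hq with h | h
      · exact h2.2.2 q h m ((le_max_left _ _).trans hm)
      · exact h2'.2.2 q h m ((le_max_right _ _).trans hm)
    · refine subset_inter ((Nb_mono κ h2 Finset.subset_union_left (le_max_left _ _)
        Finset.subset_union_left).trans h3) ((Nb_mono κ h2' Finset.subset_union_right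
        (le_max_right _ _) Finset.subset_union_right).trans h3')
  isOpen_sUnion := by
    intro S hS p hp
    obtain ⟨U, hU, hpU⟩ := hp
    obtain ⟨P, k, F, h1, h2, h3⟩ := hS U hU p hpU
    exact ⟨P, k, F, h1, h2, h3.trans (subset_sUnion_of_mem hU)⟩

variable {κ}

theorem isOpen_pt_iff {U : Set (Pt κ)} : IsOpen U ↔ ∀ p ∈ U, ∃ P k F, Valid κ P p.c F ∧
    p ∈ Nb κ P p.c p.x k F ∧ Nb κ P p.c p.x k F ⊆ U := Iff.rfl

theorem isOpen_Nb {P : Finset J} {c : J → Bool} {F : Finset ((ℕ → Bool) × ℕ)}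
    (h : Valid κ P c F) (x : ℕ → Bool) (k : ℕ) : IsOpen (Nb κ P c x k F) := by
  rw [isOpen_pt_iff]
  intro p hp
  refine ⟨P, k, F, ?_, ⟨fun _ _ => rfl, fun _ _ => rfl, hp.2.2⟩, ?_⟩
  · intro q hq
    rcases h q hq with h1 | ⟨i, hi, h2, h3⟩
    · exact Or.inl h1
    · exact Or.inr ⟨i, hi, h2, by rw [hp.1 i hi]; exact h3⟩
  · intro r hr
    refine ⟨fun i hi => (hr.1 i hi).trans (hp.1 i hi), fun j hj => (hr.2.1 j hj).trans (hp.2.1 j hj),
      hr.2.2⟩

/-- basic neighbourhoods, with `P` and `k` as large as we want -/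
theorem nbBase {U : Set (Pt κ)} (hU : IsOpen U) {p : Pt κ} (hp : p ∈ U) (P₀ : Finset J) (k₀ : ℕ) :
    ∃ P k F, P₀ ⊆ P ∧ k₀ ≤ k ∧ Valid κ P p.c F ∧ p ∈ Nb κ P p.c p.x k F ∧
      Nb κ P p.c p.x k F ⊆ U := by
  classical
  obtain ⟨P, k, F, h1, h2, h3⟩ := isOpen_pt_iff.1 hU p hp
  refine ⟨P ∪ P₀, max k k₀, F, Finset.subset_union_right, le_max_right _ _,
    valid_mono κ h1 Finset.subset_union_left, ⟨fun _ _ => rfl, fun _ _ => rfl, ?_⟩, ?_⟩
  · intro q hq m hm
    exact h2.2.2 q hq m ((le_max_left _ _).trans hm)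
  · exact (Nb_mono κ h2 Finset.subset_union_left (le_max_left _ _) (Finset.Subset.refl _)).trans h3

/-- every basic set is nonempty -/
theorem Nb_nonempty (P : Finset J) (c : J → Bool) (x : ℕ → Bool) (k : ℕ)
    (F : Finset ((ℕ → Bool) × ℕ)) : (Nb κ P c x k F).Nonempty := by
  refine ⟨⟨c, fun j => if j < k then x j else false⟩, fun _ _ => rfl, fun j hj => by simp [hj],
    fun q _ m hm => by simp [not_lt.2 hm]⟩

/-- basic sets in the compact product space -/
private def CC (P : Finset J) (c : J → Bool) (x : ℕ → Bool) (k : ℕ)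
    (F : Finset ((ℕ → Bool) × ℕ)) : Set ((J → Bool) × (ℕ → Bool)) :=
  {y | (∀ i ∈ P, y.1 i = c i) ∧ (∀ j < k, y.2 j = x j) ∧
    ∀ q ∈ F, ∀ m, k ≤ enc q.1 q.2 m → y.2 (enc q.1 q.2 m) = false}

private theorem isClosed_CC (P : Finset J) (c : J → Bool) (x : ℕ → Bool) (k : ℕ)
    (F : Finset ((ℕ → Bool) × ℕ)) : IsClosed (CC P c x k F) := by
  have h : CC P c x k F = (⋂ i ∈ P, {y : (J → Bool) × (ℕ → Bool) | y.1 i = c i}) ∩
      ((⋂ j, ⋂ (_ : j < k), {y : (J → Bool) × (ℕ → Bool) | y.2 j = x j}) ∩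
      ⋂ q ∈ F, ⋂ m, ⋂ (_ : k ≤ enc q.1 q.2 m),
        {y : (J → Bool) × (ℕ → Bool) | y.2 (enc q.1 q.2 m) = false}) := by
    ext y
    simp only [CC, mem_ofPred_eq, mem_inter_iff, mem_iInter]
  rw [h]
  refine IsClosed.inter ?_ (IsClosed.inter ?_ ?_)
  · refine isClosed_iInter fun i => isClosed_iInter fun _ => ?_
    exact isClosed_eq ((continuous_apply i).comp continuous_fst) continuous_const
  · refine isClosed_iInter fun j => isClosed_iInter fun _ => ?_
    exact isClosed_eq ((continuous_apply j).comp continuous_snd) continuous_const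
  · refine isClosed_iInter fun q => isClosed_iInter fun _ => isClosed_iInter fun m =>
      isClosed_iInter fun _ => ?_
    exact isClosed_eq ((continuous_apply _).comp continuous_snd) continuous_const

instance : BaireSpace (Pt κ) := by
  classical
  constructor
  intro D hD hd
  rw [dense_iff_inter_open]
  intro U hU hne
  -- the step
  let St : Type _ := {s : Pt κ × Finset J × ℕ × Finset ((ℕ → Bool) × ℕ) //
    Valid κ s.2.1 s.1.c s.2.2.2 ∧ s.1 ∈ Nb κ s.2.1 s.1.c s.1.x s.2.2.1 s.2.2.2}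
  let N : St → Set (Pt κ) := fun s => Nb κ s.1.2.1 s.1.1.c s.1.1.x s.1.2.2.1 s.1.2.2.2
  have hNo : ∀ s, IsOpen (N s) := fun s => isOpen_Nb s.2.1 _ _
  have hNn : ∀ s, (N s).Nonempty := fun s => ⟨s.1.1, s.2.2⟩
  have hstep : ∀ (V : Set (Pt κ)) (n : ℕ), IsOpen V → V.Nonempty → ∃ s : St, N s ⊆ V ∩ D n := by
    intro V n hV hVn
    obtain ⟨p, hp⟩ := (hd n).inter_open_nonempty V hV hVn
    obtain ⟨P, k, F, h1, h2, h3⟩ := isOpen_pt_iff.1 (hV.inter (hD n)) p hp
    exact ⟨⟨(p, P, k, F), h1, h2⟩, h3⟩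
  choose f hf using hstep
  let s : ℕ → St := fun n => Nat.rec (f U 0 hU hne) (fun n t => f (N t) (n + 1) (hNo t) (hNn t)) n
  have hs0 : N (s 0) ⊆ U ∩ D 0 := hf U 0 hU hne
  have hs1 : ∀ n, N (s (n + 1)) ⊆ N (s n) ∩ D (n + 1) := fun n =>
    hf (N (s n)) (n + 1) (hNo _) (hNn _)
  let C : ℕ → Set ((J → Bool) × (ℕ → Bool)) := fun n =>
    CC (s n).1.2.1 (s n).1.1.c (s n).1.1.x (s n).1.2.2.1 (s n).1.2.2.2
  have hCN : ∀ n y, y ∈ C n ↔ (⟨y.1, y.2⟩ : Pt κ) ∈ N (s n) := fun n y => Iff.rfl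
  have hCne : (⋂ n, C n).Nonempty := by
    refine IsCompact.nonempty_iInter_of_sequence_nonempty_isCompact_isClosed C ?_ ?_ ?_ ?_
    · intro n y hy
      exact (hCN n y).2 (hs1 n ((hCN (n + 1) y).1 hy)).1
    · intro n
      obtain ⟨p, hp⟩ := hNn (s n)
      exact ⟨(p.c, p.x), (hCN n _).2 hp⟩
    · exact (isClosed_CC _ _ _ _ _).isCompact
    · intro n
      exact isClosed_CC _ _ _ _ _
  obtain ⟨y, hy⟩ := hCne
  rw [mem_iInter] at hy
  refine ⟨⟨y.1, y.2⟩, ?_, ?_⟩
  · exact (hs0 ((hCN 0 y).1 (hy 0))).1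
  · rw [mem_iInter]
    intro n
    cases n with
    | zero => exact (hs0 ((hCN 0 y).1 (hy 0))).2
    | succ n => exact (hs1 n ((hCN (n + 1) y).1 (hy (n + 1)))).2

instance : Nonempty (Pt κ) := ⟨⟨fun _ => false, fun _ => false⟩⟩

end PU
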