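import Pool.Agent.PU.TopA

/-!
PU TOPB: Baire property of Borel sets; the decoding function is correct at generic points.

PROOFS.
`exists_open_of_not_meagre`: the map `p ↦ (p.c, p.x)` is measurable from the Borel sigma-algebra of
`Pt κ` to the product sigma-algebra: the coordinate sets `{p | p.c i = b}`, `{p | p.x j = b}` are open
(for `p` in such a set use `P = {i}`, resp. `k = j + 1`, `F = ∅`).  So `{p | (p.c, p.x) ∈ D}` is
Borel, hence `S = {p | p ∈ U ∧ (p.c, p.x) ∈ D}` is Borel and there is an open `W` with `S =ᵇ W`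
(`MeasurableSet.residualEq_isOpen`, equality modulo meager; use `borel (Pt κ)` as measurable
space).  Put `V = W ∩ U`, open.  `V \ S` is meager (contained in `W \ S`), and `V ∩ {(p.c,p.x) ∉ D}
= V \ S`.  `V` is nonempty, otherwise `S ⊆ (S \ W) ∪ (U ∩ W) = S \ W` would be meager.
`infinite_enc`: for a finite `F` with `(r, n) ∉ F` and any `N` there is `m` with `N ≤ enc r n m` and
`enc r n m ≠ enc q.1 q.2 m'` for all `q ∈ F` and `m'`: `Encodable.encode` is injective, so
`enc r n m = enc r' n' m'` implies `n = n'`, `m = m'` (lengths) and `r i = r' i` for `i < m`; so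
for each `q ∈ F` only finitely many `m` are bad; `m ↦ enc r n m` is injective so it is eventually
`≥ N`.
`isMeagre_theta_ne`, by cases on `κ r n`; `theta p.x r n = true` iff `∃ M, ∀ m ≥ M, p.x (enc r n m)
= false`.
(i) `κ r n = inl true`.  The set is `{p | ∀ M, ∃ m ≥ M, p.x (enc r n m) = true}`.  The set
`G = {p | ∃ k, ∀ m, k ≤ enc r n m → p.x (enc r n m) = false}` is open (add `(r, n)` to the promise,
which is valid, with `k` large) and dense (inside a basic set `Nb κ P c x k F` the set
`Nb κ P c x k (insert (r, n) F)` is open and nonempty), and on `G` `theta = true` (injectivity of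
`enc r n`).  So the set is contained in the complement of an open dense set.
(ii) `κ r n = inl false`.  The set is the union over `M` of `{p | ∀ m ≥ M, p.x (enc r n m) = false}`;
each of these is nowhere dense: given a nonempty open set take a basic neighbourhood
`Nb κ P p.c p.x k F`, valid, so `(r, n) ∉ F`; take `m ≥ M` as in `infinite_enc` with `enc r n m ≥ k`
and `≥ ` everything needed; the point `p'` with `p'.c = p.c` and `p'.x` equal to `p.x` below `k`, `1`
at `i = enc r n m`, `0` elsewhere lies in the basic set, and `Nb κ P p.c p'.x (i+1) F` is an open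
neighbourhood of `p'` contained in the basic set and disjoint from the set.  (Use
`IsOpen`/`Dense` of the complement.)
(iii) `κ r n = inr i`.  The set is contained in `{p | p.c i = true ∧ theta p.x r n = false} ∪
{p | p.c i = false ∧ theta p.x r n = true}`.  First part: the set `{p | p.c i = false} ∪ G` is open
dense: if a basic set has a point with `c i = false` fine; otherwise all its points have
`c i = true` and, adding `i` to `P` and `(r, n)` to `F`, we get a nonempty open subset of `G`.
Second part: as in (ii), inside `{p | p.c i = false}`: take a basic neighbourhood of a point with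
`c i = false` and `i ∈ P`; then `(r, n) ∉ F` by validity.
`isMeagre_x_eq`: `{p | p.x = x₀}` is nowhere dense: its complement is open (`{p | p.x j ≠ x₀ j}` is
open) and dense (a basic set `Nb κ P c x k F` contains points with `x`-coordinate `x|k 000...` and,
choosing `r` and `n` with `n` different from all second coordinates of `F`, the point with an
additional `1` at `enc r n m`, `m` large).
`not_mem` facts: a nonempty open set is not meager (`BaireSpace`; e.g. `not_isMeagre_of_isOpen`).
-/

namespace PU

open MeasureTheory Set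

universe u

variable {J : Type u} {κ : (ℕ → Bool) → ℕ → Bool ⊕ J}

theorem topb_open_c (i : J) (b : Bool) : IsOpen {p : Pt κ | p.c i = b} := by
  rw [isOpen_pt_iff]
  intro p hp
  refine ⟨{i}, 0, ∅, ?_, ⟨fun _ _ => rfl, fun _ _ => rfl, ?_⟩, ?_⟩
  · intro q hq
    simp at hq
  · intro q hq
    simp at hq
  · intro q hq
    show q.c i = b
    rw [hq.1 i (Finset.mem_singleton_self i)]
    exact hp

theorem topb_open_x (j : ℕ) (b : Bool) : IsOpen {p : Pt κ | p.x j = b} := by
  rw [isOpen_pt_iff]
  intro p hp
  refine ⟨∅, j + 1, ∅, ?_, ⟨fun _ _ => rfl, fun _ _ => rfl, ?_⟩, ?_⟩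
  · intro q hq
    simp at hq
  · intro q hq
    simp at hq
  · intro q hq
    show q.x j = b
    rw [hq.2.1 j (Nat.lt_succ_self j)]
    exact hp

theorem topb_meagre {A s : Set (Pt κ)} (ho : IsOpen s) (hd : Dense s) (h : s ⊆ Aᶜ) :
    IsMeagre A :=
  Filter.mem_of_superset (residual_of_dense_open ho hd) h

/-- sets that are measurable for the product sigma-algebra have the Baire property -/
theorem exists_open_of_not_meagre {D : Set ((J → Bool) × (ℕ → Bool))} (hD : MeasurableSet D)
    {U : Set (Pt κ)} (hU : IsOpen U) (h : ¬ IsMeagre {p : Pt κ | p ∈ U ∧ (p.c, p.x) ∈ D}) :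
    ∃ V : Set (Pt κ), IsOpen V ∧ V.Nonempty ∧ V ⊆ U ∧
      IsMeagre {p : Pt κ | p ∈ V ∧ (p.c, p.x) ∉ D} := by
  letI : MeasurableSpace (Pt κ) := borel _
  haveI : BorelSpace (Pt κ) := ⟨rfl⟩
  have hc : Measurable (fun p : Pt κ => p.c) :=
    measurable_pi_lambda _ fun i => measurable_to_bool (topb_open_c i true).measurableSet
  have hx : Measurable (fun p : Pt κ => p.x) :=
    measurable_pi_lambda _ fun j => measurable_to_bool (topb_open_x j true).measurableSet
  have hS : MeasurableSet {p : Pt κ | p ∈ U ∧ (p.c, p.x) ∈ D} :=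
    hU.measurableSet.inter ((hc.prodMk hx) hD)
  obtain ⟨W, hW, hSW⟩ := hS.residualEq_isOpen
  have hm : IsMeagre {p : Pt κ | ¬ ((p ∈ U ∧ (p.c, p.x) ∈ D) ↔ p ∈ W)} := by
    have h1 : {p : Pt κ | (p ∈ U ∧ (p.c, p.x) ∈ D) ↔ p ∈ W} ∈ residual (Pt κ) := by
      filter_upwards [hSW] with p hp
      exact iff_of_eq hp
    show {p : Pt κ | ¬ ((p ∈ U ∧ (p.c, p.x) ∈ D) ↔ p ∈ W)}ᶜ ∈ residual (Pt κ)
    refine Filter.mem_of_superset h1 fun p hp => ?_
    exact fun h => h hp
  refine ⟨W ∩ U, hW.inter hU, ?_, inter_subset_right, ?_⟩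
  · by_contra hne
    rw [not_nonempty_iff_eq_empty] at hne
    apply h
    refine hm.mono fun p hp => ?_
    intro hiff
    have h1 : p ∈ W ∩ U := ⟨hiff.1 hp, hp.1⟩
    rw [hne] at h1
    exact h1
  · refine hm.mono fun p hp => ?_
    intro hiff
    exact hp.2 (hiff.2 hp.1.1).2

theorem enc_inj {r r' : ℕ → Bool} {n n' m m' : ℕ} (h : enc r n m = enc r' n' m') :
    n = n' ∧ m = m' ∧ ∀ i < m, r i = r' i := by
  unfold enc at h
  have h1 := Encodable.encode_injective h
  have h2 : n = n' := (Prod.ext_iff.1 h1).1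
  have h3 : (List.range m).map r = (List.range m').map r' := (Prod.ext_iff.1 h1).2
  have h4 : m = m' := by
    have := congrArg List.length h3
    simpa using this
  refine ⟨h2, h4, fun i hi => ?_⟩
  subst h4
  have h5 := List.map_inj_left.1 h3
  exact h5 i (List.mem_range.2 hi)

theorem enc_tendsto (r : ℕ → Bool) (n : ℕ) :
    Filter.Tendsto (fun m => enc r n m) Filter.atTop Filter.atTop :=
  Function.Injective.nat_tendsto_atTop fun _ _ h => (enc_inj h).2.1

theorem infinite_enc (F : Finset ((ℕ → Bool) × ℕ)) (r : ℕ → Bool) (n : ℕ) (h : (r, n) ∉ F)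
    (N : ℕ) : ∃ m, N ≤ m ∧ N ≤ enc r n m ∧ ∀ q ∈ F, ∀ m', enc r n m ≠ enc q.1 q.2 m' := by
  have h1 : ∀ q ∈ F, ∀ᶠ m in Filter.atTop, ∀ m', enc r n m ≠ enc q.1 q.2 m' := by
    intro q hq
    by_cases hn : q.2 = n
    · have hr : q.1 ≠ r := by
        intro hr
        apply h
        rw [← hn, ← hr]
        exact hq
      obtain ⟨i, hi⟩ := Function.ne_iff.1 hr
      filter_upwards [Filter.eventually_gt_atTop i] with m hm m' he
      exact hi ((enc_inj he).2.2 i hm).symm
    · exact Filter.Eventually.of_forall fun m m' he => hn (enc_inj he).1.symm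
  have h2 := (Filter.eventually_all_finset F).2 h1
  obtain ⟨m, hm1, hm2, hm3⟩ := (h2.and ((Filter.eventually_ge_atTop N).and
    ((enc_tendsto r n).eventually_ge_atTop N))).exists
  exact ⟨m, hm2, hm3, hm1⟩

/-- inside an open set there is a point with a one far out in the coding set -/
theorem topb_add {U : Set (Pt κ)} (hU : IsOpen U) {p : Pt κ} (hp : p ∈ U) (r : ℕ → Bool) (n : ℕ)
    (h1 : κ r n ≠ Sum.inl true) (h2 : ∀ i, κ r n = Sum.inr i → p.c i = false) (M : ℕ) :
    ∃ p' ∈ U, ∃ m, M ≤ m ∧ p'.x (enc r n m) = true := by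
  obtain ⟨P, k, F, hV, hN, hsub⟩ := isOpen_pt_iff.1 hU p hp
  have hF : (r, n) ∉ F := by
    intro hF
    rcases hV _ hF with h | ⟨i, hi, h, h'⟩
    · exact h1 h
    · rw [h2 i h] at h'
      exact absurd h' (by simp)
  obtain ⟨m, hm1, hm2, hm3⟩ := infinite_enc F r n hF (max M k)
  have hk : k ≤ enc r n m := (le_max_right _ _).trans hm2
  refine ⟨⟨p.c, fun j => if j < k then p.x j else decide (j = enc r n m)⟩, hsub ⟨fun _ _ => rfl,
    fun j hj => by simp [hj], ?_⟩, m, (le_max_left _ _).trans hm1, ?_⟩
  · intro q hq m' hm'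
    have := (hm3 q hq m').symm
    simp [not_lt.2 hm', this]
  · simp [not_lt.2 hk]

/-- inside an open set there is a point with no far out ones, and the same `c` -/
theorem topb_zero {U : Set (Pt κ)} (hU : IsOpen U) {p : Pt κ} (hp : p ∈ U) :
    ∃ p' ∈ U, p'.c = p.c ∧ ∃ k, ∀ j, k ≤ j → p'.x j = false := by
  obtain ⟨P, k, F, hV, hN, hsub⟩ := isOpen_pt_iff.1 hU p hp
  refine ⟨⟨p.c, fun j => if j < k then p.x j else false⟩, hsub ⟨fun _ _ => rfl,
    fun j hj => by simp [hj], fun q _ m hm => by simp [not_lt.2 hm]⟩, rfl, k, ?_⟩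
  intro j hj
  simp [not_lt.2 hj]

theorem topb_theta_iff {x r : ℕ → Bool} {n : ℕ} :
    theta x r n = true ↔ ∃ M, ∀ m, M ≤ m → x (enc r n m) = false := by
  simp [theta]

theorem topb_theta_true {p : Pt κ} {r : ℕ → Bool} {n k : ℕ}
    (h : ∀ m, k ≤ enc r n m → p.x (enc r n m) = false) : theta p.x r n = true := by
  obtain ⟨M, hM⟩ := Filter.eventually_atTop.1 ((enc_tendsto r n).eventually_ge_atTop k)
  exact topb_theta_iff.2 ⟨M, fun m hm => h m (hM m hm)⟩

theorem topb_open_one (r : ℕ → Bool) (n M : ℕ) :
    IsOpen {p : Pt κ | ∃ m, M ≤ m ∧ p.x (enc r n m) = true} := by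
  have h : {p : Pt κ | ∃ m, M ≤ m ∧ p.x (enc r n m) = true} =
      ⋃ m, ⋃ _ : M ≤ m, {p : Pt κ | p.x (enc r n m) = true} := by
    ext p
    simp
  rw [h]
  exact isOpen_iUnion fun m => isOpen_iUnion fun _ => topb_open_x _ _

theorem isMeagre_theta_ne (r : ℕ → Bool) (n : ℕ) :
    IsMeagre {p : Pt κ | theta p.x r n ≠ bitv p.c (κ r n)} := by
  rcases hκ : κ r n with (_ | _) | i
  · -- the bit is off
    have h1 : ∀ M : ℕ, IsMeagre {p : Pt κ | ∀ m, M ≤ m → p.x (enc r n m) = false} := by
      intro M
      refine topb_meagre (topb_open_one r n M) ?_ ?_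
      · rw [dense_iff_inter_open]
        rintro U hU ⟨p, hp⟩
        obtain ⟨p', hp', h⟩ := topb_add hU hp r n (by rw [hκ]; simp)
          (fun i hi => by rw [hκ] at hi; simp at hi) M
        exact ⟨p', hp', h⟩
      · rintro p ⟨m, hm, h⟩ hall
        have := hall m hm
        rw [h] at this
        simp at this
    refine (isMeagre_iUnion h1).mono ?_
    intro p hp
    have hp : theta p.x r n ≠ false := hp
    have h2 : theta p.x r n = true := by simpa using hp
    exact mem_iUnion.2 (topb_theta_iff.1 h2)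
  · -- the bit is on
    refine topb_meagre (s := {p : Pt κ | ∃ k, ∀ m, k ≤ enc r n m → p.x (enc r n m) = false})
      ?_ ?_ ?_
    · rw [isOpen_pt_iff]
      rintro p ⟨k, hk⟩
      refine ⟨∅, k, {(r, n)}, ?_, ⟨fun _ _ => rfl, fun _ _ => rfl, ?_⟩, ?_⟩
      · intro q hq
        rw [Finset.mem_singleton] at hq
        subst hq
        exact Or.inl hκ
      · intro q hq m hm
        rw [Finset.mem_singleton] at hq
        subst hq
        exact hk m hm
      · intro q hq
        exact ⟨k, fun m hm => hq.2.2 (r, n) (Finset.mem_singleton_self _) m hm⟩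
    · rw [dense_iff_inter_open]
      rintro U hU ⟨p, hp⟩
      obtain ⟨p', hp', -, k, hk⟩ := topb_zero hU hp
      exact ⟨p', hp', k, fun m hm => hk _ hm⟩
    · rintro p ⟨k, hk⟩ hne
      exact hne (topb_theta_true hk)
  · -- generic bit
    have hA : IsMeagre {p : Pt κ | p.c i = true ∧ theta p.x r n = false} := by
      refine topb_meagre (s := {p : Pt κ | p.c i = false} ∪
        {p : Pt κ | p.c i = true ∧ ∃ k, ∀ m, k ≤ enc r n m → p.x (enc r n m) = false}) ?_ ?_ ?_
      · refine (topb_open_c i false).union ?_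
        rw [isOpen_pt_iff]
        rintro p ⟨hpi, k, hk⟩
        refine ⟨{i}, k, {(r, n)}, ?_, ⟨fun _ _ => rfl, fun _ _ => rfl, ?_⟩, ?_⟩
        · intro q hq
          rw [Finset.mem_singleton] at hq
          subst hq
          exact Or.inr ⟨i, Finset.mem_singleton_self i, hκ, hpi⟩
        · intro q hq m hm
          rw [Finset.mem_singleton] at hq
          subst hq
          exact hk m hm
        · intro q hq
          refine ⟨?_, k, fun m hm => hq.2.2 (r, n) (Finset.mem_singleton_self _) m hm⟩
          rw [hq.1 i (Finset.mem_singleton_self i)]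
          exact hpi
      · rw [dense_iff_inter_open]
        rintro U hU ⟨p, hp⟩
        obtain ⟨p', hp', hc, k, hk⟩ := topb_zero hU hp
        refine ⟨p', hp', ?_⟩
        cases hpi : p'.c i
        · exact Or.inl hpi
        · exact Or.inr ⟨hpi, k, fun m hm => hk _ hm⟩
      · rintro p (hp | ⟨hp, k, hk⟩) hne
        · have h3 : p.c i = false := hp
          have h4 : p.c i = true := hne.1
          rw [h3] at h4
          simp at h4
        · have h3 := hne.2
          rw [topb_theta_true hk] at h3
          simp at h3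
    have hB : ∀ M : ℕ, IsMeagre {p : Pt κ | p.c i = false ∧
        ∀ m, M ≤ m → p.x (enc r n m) = false} := by
      intro M
      refine topb_meagre ((topb_open_c i true).union (topb_open_one r n M)) ?_ ?_
      · rw [dense_iff_inter_open]
        rintro U hU ⟨p, hp⟩
        cases hpi : p.c i
        · obtain ⟨p', hp', h⟩ := topb_add hU hp r n (by rw [hκ]; simp)
            (fun i' hi => by
              rw [hκ] at hi
              rw [← Sum.inr.inj hi]
              exact hpi) M
          exact ⟨p', hp', Or.inr h⟩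
        · exact ⟨p, hp, Or.inl hpi⟩
      · rintro p (hp | ⟨m, hm, h⟩) hne
        · have h3 : p.c i = true := hp
          have h4 : p.c i = false := hne.1
          rw [h3] at h4
          simp at h4
        · have := hne.2 m hm
          rw [h] at this
          simp at this
    refine (hA.union (isMeagre_iUnion hB)).mono ?_
    intro p hp
    have hp : theta p.x r n ≠ p.c i := hp
    cases hpi : p.c i
    · right
      rw [hpi] at hp
      have h2 : theta p.x r n = true := by simpa using hp
      obtain ⟨M, hM⟩ := topb_theta_iff.1 h2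
      exact mem_iUnion.2 ⟨M, hpi, hM⟩
    · left
      rw [hpi] at hp
      exact ⟨hpi, by simpa using hp⟩

theorem isMeagre_x_eq (x : ℕ → Bool) : IsMeagre {p : Pt κ | p.x = x} := by
  refine topb_meagre (s := {p : Pt κ | ∃ j, p.x j = !(x j)}) ?_ ?_ ?_
  · have h : {p : Pt κ | ∃ j, p.x j = !(x j)} = ⋃ j, {p : Pt κ | p.x j = !(x j)} := by
      ext p
      simp
    rw [h]
    exact isOpen_iUnion fun j => topb_open_x _ _
  · rw [dense_iff_inter_open]
    rintro U hU ⟨p, hp⟩
    obtain ⟨P, k, F, hV, hN, hsub⟩ := isOpen_pt_iff.1 hU p hp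
    set n : ℕ := F.sup (fun q => q.2) + 1 with hn
    have hF : ((fun _ => false : ℕ → Bool), n) ∉ F := by
      intro hF
      have := Finset.le_sup (f := fun q : (ℕ → Bool) × ℕ => q.2) hF
      simp only at this
      omega
    obtain ⟨m, hm1, hm2, hm3⟩ := infinite_enc F (fun _ => false) n hF k
    set e := enc (fun _ => false) n m with he
    cases hxe : x e
    · refine ⟨⟨p.c, fun j => if j < k then p.x j else decide (j = e)⟩, hsub ⟨fun _ _ => rfl,
        fun j hj => by simp [hj], ?_⟩, e, ?_⟩
      · intro q hq m' hm'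
        have := (hm3 q hq m').symm
        simp [not_lt.2 hm', this]
      · simp [not_lt.2 hm2, hxe]
    · refine ⟨⟨p.c, fun j => if j < k then p.x j else false⟩, hsub ⟨fun _ _ => rfl,
        fun j hj => by simp [hj], fun q _ m hm => by simp [not_lt.2 hm]⟩, e, ?_⟩
      simp [not_lt.2 hm2, hxe]
  · rintro p ⟨j, hj⟩ he
    have he : p.x = x := he
    rw [he] at hj
    cases h : x j <;> rw [h] at hj <;> simp at hj

end PU
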