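import Pool.Agent.PU.TopB

/-!
PU TOPC: the coding ideal and its countable chain condition.

PROOFS.
`pt_ccc`: for every `U ∈ 𝒰` choose `p ∈ U` and a valid basic set `Nb κ P p.c p.x k F ⊆ U` containing
`p`.  Choose `K` such that the reals `g i`, `i ∈ P`, have pairwise different restrictions to `K`
(`P` finite, `g` injective), and attach to `U` the element of a countable type
`(k, (List.range k).map p.x, K, {((List.range K).map (g i), p.c i) | i ∈ P})` (a finset of
`List Bool × Bool`).  If `U ≠ U'` in `𝒰` had the same data, then the basic sets would meet: take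
`c'` equal to `p.c` on `P` and to `p'.c` on `P'`; this is consistent, for if `i ∈ P ∩ P'` then
`(g i | K, p'.c i)` is in the common finset, so it equals `(g i' | K, p.c i')` for some `i' ∈ P`,
whence `i' = i` and `p.c i = p'.c i`; take `x'` equal to `p.x` below `k` and `0` from `k` on.  So
`U ∩ U'` would be nonempty, a contradiction.  Hence `𝒰` injects into a countable type.
`not_mem_adIdeal_univ`: `{p | p.x ∈ univ} = univ` is open nonempty in a Baire space, so not meager.
`adIdeal_ccc`: let `𝓕` be a family of Borel positive sets with pairwise intersections in the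
ideal.  For `B ∈ 𝓕`, `D_B = univ ×ˢ B` is measurable and `{p | p.x ∈ B}` is not meager, so
`exists_open_of_not_meagre` (with `U = univ`) gives `V_B` open nonempty with
`{p ∈ V_B | p.x ∉ B}` meager.  For `B ≠ B'` in `𝓕`: `V_B ∩ V_B'` is contained in
`{p ∈ V_B | p.x ∉ B} ∪ {p ∈ V_B' | p.x ∉ B'} ∪ {p | p.x ∈ B ∩ B'}`, so it is meager and open, so
empty.  The map `B ↦ V_B` is injective on `𝓕` (as `V_B` is nonempty) with disjoint open nonempty
values, so `𝓕` is countable by `pt_ccc`.
-/

namespace PU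

open MeasureTheory Set

universe u

variable {J : Type u} (κ : (ℕ → Bool) → ℕ → Bool ⊕ J)

theorem pt_ccc (g : J → ℕ → Bool) (hg : Function.Injective g) (𝒰 : Set (Set (Pt κ)))
    (h : ∀ U ∈ 𝒰, IsOpen U ∧ U.Nonempty) (hd : 𝒰.PairwiseDisjoint id) : 𝒰.Countable := by
  classical
  have hK : ∀ P : Finset J, ∃ K : ℕ, ∀ i ∈ P, ∀ i' ∈ P, (∀ j < K, g i j = g i' j) → i = i' := by
    intro P
    have h1 : ∀ q : J × J, ∃ n : ℕ, (∀ j < n, g q.1 j = g q.2 j) → q.1 = q.2 := by
      intro q
      by_cases hq : q.1 = q.2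
      · exact ⟨0, fun _ => hq⟩
      · have h2 : ∃ j, g q.1 j ≠ g q.2 j := by
          by_contra hcon
          push Not at hcon
          exact hq (hg (funext hcon))
        obtain ⟨j, hj⟩ := h2
        exact ⟨j + 1, fun h3 => absurd (h3 j (Nat.lt_succ_self j)) hj⟩
    choose n hn using h1
    refine ⟨(P ×ˢ P).sup n, ?_⟩
    intro i hi i' hi' hj
    refine hn (i, i') fun j hjn => hj j (lt_of_lt_of_le hjn ?_)
    exact Finset.le_sup (f := n) (Finset.mk_mem_product hi hi')
  have hch : ∀ U : 𝒰, ∃ (p : Pt κ) (P : Finset J) (k K : ℕ) (F : Finset ((ℕ → Bool) × ℕ)),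
      Nb κ P p.c p.x k F ⊆ (U : Set (Pt κ)) ∧
      ∀ i ∈ P, ∀ i' ∈ P, (∀ j < K, g i j = g i' j) → i = i' := by
    rintro ⟨U, hU⟩
    obtain ⟨ho, p, hp⟩ := h U hU
    obtain ⟨P, k, F, -, -, hsub⟩ := isOpen_pt_iff.1 ho p hp
    obtain ⟨K, hKP⟩ := hK P
    exact ⟨p, P, k, K, F, hsub, hKP⟩
  choose p P k K F h1 h2 using hch
  let D : 𝒰 → ℕ × List Bool × ℕ × Finset (List Bool × Bool) := fun U =>
    (k U, (List.range (k U)).map (p U).x, K U,
      (P U).image (fun i => ((List.range (K U)).map (g i), (p U).c i)))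
  have hlist : ∀ (n : ℕ) (f f' : ℕ → Bool), (List.range n).map f = (List.range n).map f' →
      ∀ j < n, f j = f' j := by
    intro n f f' hf j hj
    exact List.map_inj_left.1 hf j (List.mem_range.2 hj)
  have hD : Function.Injective D := by
    intro U U' hUU
    by_contra hne
    have hne' : (U : Set (Pt κ)) ≠ U' := fun e => hne (Subtype.ext e)
    have hdis := hd U.2 U'.2 hne'
    simp only [D, Prod.mk.injEq] at hUU
    obtain ⟨e1, e2, e3, e4⟩ := hUU
    rw [← e1] at e2
    rw [← e3] at e4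
    have hx := hlist _ _ _ e2
    have hc : ∀ i ∈ P U, i ∈ P U' → (p U).c i = (p U').c i := by
      intro i hi hi'
      have h3 : ((List.range (K U)).map (g i), (p U').c i) ∈
          (P U').image (fun i => ((List.range (K U)).map (g i), (p U').c i)) :=
        Finset.mem_image.2 ⟨i, hi', rfl⟩
      rw [← e4, Finset.mem_image] at h3
      obtain ⟨i', hi'', h4⟩ := h3
      rw [Prod.mk.injEq] at h4
      have h5 := h2 U i' hi'' i hi (hlist _ _ _ h4.1)
      rw [← h5]
      rw [h5] at h4 ⊢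
      exact h4.2
    let q : Pt κ := ⟨fun i => if i ∈ P U then (p U).c i else (p U').c i,
      fun j => if j < k U then (p U).x j else false⟩
    have hq1 : q ∈ (U : Set (Pt κ)) := by
      apply h1 U
      refine ⟨fun i hi => by simp [q, hi], fun j hj => by simp [q, hj], ?_⟩
      intro r _ m hm
      simp [q, not_lt.2 hm]
    have hq2 : q ∈ (U' : Set (Pt κ)) := by
      apply h1 U'
      refine ⟨fun i hi => ?_, fun j hj => ?_, ?_⟩
      · by_cases hiP : i ∈ P U
        · simp only [q, hiP, if_true]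
          exact hc i hiP hi
        · simp [q, hiP]
      · rw [← e1] at hj
        simp only [q, hj, if_true]
        exact hx j hj
      · intro r _ m hm
        rw [← e1] at hm
        simp [q, not_lt.2 hm]
    exact (Set.disjoint_left.1 hdis) hq1 hq2
  exact Set.countable_coe_iff.1 hD.countable

/-- The coding ideal. -/
def adIdeal : SigmaIdeal (ℕ → Bool) where
  mem B := MeasurableSet B ∧ IsMeagre {p : Pt κ | p.x ∈ B}
  meas A h := h.1
  singleton x := ⟨measurableSet_singleton x, isMeagre_x_eq x⟩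
  mono A B hA hB hBA := ⟨hB, hA.2.mono fun p hp => hBA hp⟩
  iUnion A hA := ⟨MeasurableSet.iUnion fun n => (hA n).1, by
    have h := isMeagre_iUnion fun n => (hA n).2
    refine h.mono fun p hp => ?_
    simpa using hp⟩

theorem not_mem_adIdeal_univ : ¬ (adIdeal κ).mem Set.univ := by
  rintro ⟨-, h⟩
  have h1 : {p : Pt κ | p.x ∈ (Set.univ : Set (ℕ → Bool))} = Set.univ := by
    ext p
    simp
  rw [h1] at h
  exact not_isMeagre_of_isOpen isOpen_univ Set.univ_nonempty h

theorem adIdeal_ccc (g : J → ℕ → Bool) (hg : Function.Injective g) : CCC (adIdeal κ) := by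
  intro 𝓕 hF hpair
  have hV : ∀ B : 𝓕, ∃ V : Set (Pt κ), IsOpen V ∧ V.Nonempty ∧
      IsMeagre {p : Pt κ | p ∈ V ∧ p.x ∉ (B : Set (ℕ → Bool))} := by
    rintro ⟨B, hB⟩
    obtain ⟨hm, hn⟩ := hF B hB
    have hnm : ¬ IsMeagre {p : Pt κ | p.x ∈ B} := fun h => hn ⟨hm, h⟩
    have hD : MeasurableSet ((Set.univ : Set (J → Bool)) ×ˢ B) := MeasurableSet.univ.prod hm
    have hnm' : ¬ IsMeagre {p : Pt κ | p ∈ (Set.univ : Set (Pt κ)) ∧
        (p.c, p.x) ∈ (Set.univ : Set (J → Bool)) ×ˢ B} := by
      intro h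
      apply hnm
      refine h.mono ?_
      intro p hp
      exact ⟨Set.mem_univ p, Set.mem_univ _, hp⟩
    obtain ⟨V, hVo, hVn, -, hVm⟩ := exists_open_of_not_meagre hD isOpen_univ hnm'
    refine ⟨V, hVo, hVn, hVm.mono ?_⟩
    rintro p ⟨hp1, hp2⟩
    exact ⟨hp1, fun h => hp2 h.2⟩
  choose V hVo hVn hVm using hV
  have hempty : ∀ B B' : 𝓕, B ≠ B' → V B ∩ V B' = ∅ := by
    intro B B' hne
    have hmem := hpair B.2 B'.2 (fun e => hne (Subtype.ext e))
    have hm2 : IsMeagre {p : Pt κ | p.x ∈ (B : Set (ℕ → Bool)) ∩ B'} := hmem.2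
    have hmeag : IsMeagre (V B ∩ V B') := by
      have hu : IsMeagre ({p : Pt κ | p ∈ V B ∧ p.x ∉ (B : Set (ℕ → Bool))} ∪
          {p : Pt κ | p ∈ V B' ∧ p.x ∉ (B' : Set (ℕ → Bool))} ∪
          {p : Pt κ | p.x ∈ (B : Set (ℕ → Bool)) ∩ B'}) := by
        unfold IsMeagre at *
        rw [Set.compl_union, Set.compl_union]
        exact Filter.inter_mem (Filter.inter_mem (hVm B) (hVm B')) hm2
      refine hu.mono ?_
      rintro p ⟨hp1, hp2⟩
      by_cases h1 : p.x ∈ (B : Set (ℕ → Bool))
      · by_cases h2 : p.x ∈ (B' : Set (ℕ → Bool))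
        · exact Or.inr ⟨h1, h2⟩
        · exact Or.inl (Or.inr ⟨hp2, h2⟩)
      · exact Or.inl (Or.inl ⟨hp1, h1⟩)
    by_contra hne'
    exact not_isMeagre_of_isOpen ((hVo B).inter (hVo B')) (Set.nonempty_iff_ne_empty.2 hne') hmeag
  have hinj : Function.Injective V := by
    intro B B' hBB
    by_contra hne
    have h1 := hempty B B' hne
    rw [← hBB, Set.inter_self] at h1
    exact (hVn B).ne_empty h1
  have hc : (Set.range V).Countable := by
    refine pt_ccc κ g hg _ ?_ ?_
    · rintro _ ⟨B, rfl⟩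
      exact ⟨hVo B, hVn B⟩
    · rintro _ ⟨B, rfl⟩ _ ⟨B', rfl⟩ hne
      have hne' : B ≠ B' := fun e => hne (by rw [e])
      exact Set.disjoint_iff_inter_eq_empty.2 (hempty B B' hne')
  have : Countable (Set.range V) := hc.to_subtype
  have h2 : Function.Injective (fun B : 𝓕 => (⟨V B, Set.mem_range_self B⟩ : Set.range V)) := by
    intro B B' hBB
    exact hinj (congrArg Subtype.val hBB)
  exact Set.countable_coe_iff.1 h2.countable

end PU
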