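import Pool.Agent.PU.Dec

/-!
PU TRUA: the canonical codes are codes of the right ordinal.

PROOF of `isWO_of_mem_keys`.  Let `u = Seq.mk' w a` (so `u.len = a`, `u.val ν = w ν` for `ν < a`) and
`CodeOf u f v`, `Adm W u f`.
Case `¬ Unb u`.  If `a = 0` (no `b < a`), `Gr u f n η` is false for all `n`, `η` (it needs
`η < u.len`), so `cd v` is empty and `v` codes `0` (`codes_of_enum` with `D = False`).  Otherwise
there is `b < a` such that no `ν ∈ E` has `b < ν < a`.  Let `σ` be the least upper bound in `Om` of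
`{ν | ν ∈ E, ν < a}`, i.e. the least element of the nonempty set of `σ` with
`∀ ν < a, ν ∈ E → ν ≤ σ` (`b` is one); then `Base u σ`, `σ ≤ b < a`, and `Base u σ'` implies `σ' = σ`.
No `ε ∈ E` has `σ < ε < a`, so `a ≤ l σ` by `hw.next`.  `u.val σ = w σ`, and `qqc (w σ)` codes
`l σ ≥ a` by `hw.code`, say via `e`.  So `Gr u f n η ↔ η < a ∧ cd .. n n ∧ e n = η`; apply
`codes_of_enum` with `D n ↔ cd (qqc (w σ)) n n ∧ e n < a`.
Case `Unb u`.  Then `W a f` (from `Adm`).  `f.len < a`; let `e₀` be the coding map of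
`qqc (w f.len)`, which codes `l f.len > f.len`; for `ξ < f.len` let `e_ξ` be the coding map of
`qqc (w (f.val ξ))`, which codes `l (f.val ξ) > f.val ξ` (note `f.val ξ < a`).  `Gr u f n η` says
`∃ ξ < f.len, e₀ n₁ = ξ, e_ξ n₂ = η ≤ f.val ξ` (with domains), where `n = pair n₁ n₂`.  So for every
`n` there is at most one `η` (`RK.unique`); the set of all `η` obtained is
`{η | ∃ ξ < f.len, η ≤ f.val ξ} = {η | η < a}` by `hW.val`, `hW.cof`.  Choose `e n` = the `η` with
`Gr u f n η` if it exists, `D n ↔ ∃ η, Gr u f n η`, and apply `codes_of_enum`.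
(Both cases can be done at once: show that `Gr u f` is functional, with range exactly `{η | η < a}`.)
-/

namespace PU

open MeasureTheory Set

/-- the coded sequence `w`, with its club `E` and the lengths `l` -/
structure TrueData (E : Set Om) (l : Om → Om) (w : Om → ℕ → Bool) : Prop where
  bit : ∀ ν, bitc (w ν) = true ↔ ν ∈ E
  code : ∀ ν, IsWO (qqc (w ν)) (l ν).1
  lt : ∀ ν, ν < l ν
  next : ∀ ν a, (∀ ε ∈ E, ν < ε → a ≤ ε) → a ≤ l ν

/-- `W` is a system of singularity witnesses -/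
structure WitData (W : Om → Seq Om → Prop) (E : Set Om) : Prop where
  len : ∀ a f, W a f → f.len < a
  val : ∀ a f, W a f → ∀ ξ, ξ < f.len → f.val ξ < a
  cof : ∀ a f, W a f → ∀ η, η < a → ∃ ξ, ξ < f.len ∧ η ≤ f.val ξ
  ctb : ∀ a, {f | W a f}.Countable
  ne : ∀ a, (∃ b, b < a) → (∀ b, b < a → ∃ ν ∈ E, b < ν ∧ ν < a) → ∃ f, W a f

/-- the set of canonical codes of `a` relative to the sequence `w` -/
def Keys (W : Om → Seq Om → Prop) (w : Om → ℕ → Bool) (a : Om) : Set (ℕ → Bool) :=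
  {v | ∃ f, Adm W (Seq.mk' w a) f ∧ CodeOf (Seq.mk' w a) f v}

theorem Seq.mk'_val {Y : Type*} [Inhabited Y] (f : Om → Y) {μ ν : Om} (h : ν < μ) :
    (Seq.mk' f μ).val ν = f ν := if_pos h

theorem base_unique {u : Seq (ℕ → Bool)} {σ σ' : Om} (h : Base u σ) (h' : Base u σ') : σ = σ' := by
  by_contra hne
  rcases lt_or_gt_of_ne hne with hlt | hlt
  · obtain ⟨ν, h1, h2, h3⟩ := h'.2 σ hlt
    exact absurd (h.1 ν h1 h2) (not_le.2 h3)
  · obtain ⟨ν, h1, h2, h3⟩ := h.2 σ' hlt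
    exact absurd (h'.1 ν h1 h2) (not_le.2 h3)

theorem gr_unique {u : Seq (ℕ → Bool)} {f : Seq Om} {n : ℕ} {η η' : Om} (h : Gr u f n η)
    (h' : Gr u f n η') : η = η' := by
  rcases h with ⟨h1, -, σ, h3, h4⟩ | ⟨h1, ξ, -, h3, -, h5⟩
  · rcases h' with ⟨-, -, σ', h3', h4'⟩ | ⟨h1', -⟩
    · rw [base_unique h3 h3'] at h4
      exact h4.unique h4'
    · exact absurd h1' h1
  · rcases h' with ⟨h1', -⟩ | ⟨-, ξ', -, h3', -, h5'⟩
    · exact absurd h1 h1'
    · rw [h3.unique h3'] at h5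
      exact h5.unique h5'

theorem isWO_of_gr {u : Seq (ℕ → Bool)} {f : Seq Om} {v : ℕ → Bool} {a : Om}
    (hr : ∀ η, (∃ n, Gr u f n η) ↔ η < a) (hv : CodeOf u f v) : IsWO v a.1 := by
  classical
  let e : ℕ → Ordinal.{0} := fun n => if h : ∃ η, Gr u f n η then (h.choose).1 else 0
  have he : ∀ n η, Gr u f n η → e n = η.1 := by
    intro n η h
    have hex : ∃ η, Gr u f n η := ⟨η, h⟩
    simp only [e, dif_pos hex]
    rw [gr_unique hex.choose_spec h]
  refine ⟨e, codes_of_enum (fun n => ∃ η, Gr u f n η) e a.1 v ?_ ?_ ?_⟩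
  · rintro n ⟨η, hη⟩
    rw [he n η hη]
    exact (hr η).1 ⟨n, hη⟩
  · intro α hα
    obtain ⟨n, hn⟩ := (hr ⟨α, hα.trans a.2⟩).2 hα
    exact ⟨n, ⟨_, hn⟩, he n _ hn⟩
  · intro m n
    rw [hv m n]
    constructor
    · rintro ⟨η, η', h1, h2, h3⟩
      refine ⟨⟨η, h1⟩, ⟨η', h2⟩, ?_⟩
      rw [he m η h1, he n η' h2]
      exact h3
    · rintro ⟨⟨η, h1⟩, ⟨η', h2⟩, h3⟩
      rw [he m η h1, he n η' h2] at h3
      exact ⟨η, η', h1, h2, h3⟩

theorem isWO_of_mem_keys {W : Om → Seq Om → Prop} {E : Set Om} {l : Om → Om} {w : Om → ℕ → Bool}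
    (hw : TrueData E l w) (hW : WitData W E) {a : Om} {v : ℕ → Bool}
    (hv : v ∈ Keys W w a) : IsWO v a.1 := by
  obtain ⟨f, hadm, hcode⟩ := hv
  refine isWO_of_gr ?_ hcode
  set u : Seq (ℕ → Bool) := Seq.mk' w a with hu
  have hlen : u.len = a := rfl
  have hval : ∀ ν, ν < a → u.val ν = w ν := fun ν h => Seq.mk'_val w h
  have hbit : ∀ ν, ν < a → (bitc (u.val ν) = true ↔ ν ∈ E) := fun ν h => by
    rw [hval ν h]; exact hw.bit ν
  intro η
  by_cases hunb : Unb u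
  · -- unbounded case
    have hWf : W a f := hadm.resolve_left (not_not.2 hunb)
    have hfl : f.len < a := hW.len a f hWf
    constructor
    · rintro ⟨n, hn⟩
      rcases hn with ⟨h1, -⟩ | ⟨-, ξ, h2, -, h4, -⟩
      · exact absurd hunb h1
      · exact lt_of_le_of_lt h4 (hW.val a f hWf ξ h2)
    · intro hη
      obtain ⟨ξ, hξ, hle⟩ := hW.cof a f hWf η hη
      have hfξ : f.val ξ < a := hW.val a f hWf ξ hξ
      obtain ⟨n₁, hn₁⟩ := exists_rk (hw.code f.len) (hξ.trans (hw.lt f.len))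
      obtain ⟨n₂, hn₂⟩ := exists_rk (hw.code (f.val ξ)) (lt_of_le_of_lt hle (hw.lt (f.val ξ)))
      refine ⟨Nat.pair n₁ n₂, Or.inr ⟨hunb, ξ, hξ, ?_, hle, ?_⟩⟩
      · rw [Nat.unpair_pair, hval _ hfl]
        exact hn₁
      · rw [Nat.unpair_pair, hval _ hfξ]
        exact hn₂
  · -- bounded case
    constructor
    · rintro ⟨n, hn⟩
      rcases hn with ⟨-, h2, -⟩ | ⟨h1, -⟩
      · exact h2
      · exact absurd h1 hunb
    · intro hη
      -- a bound
      have hb : ∃ b, b < a ∧ ∀ ν, ν < a → ν ∈ E → ν ≤ b := by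
        by_contra hcon
        push Not at hcon
        apply hunb
        refine ⟨⟨η, hη⟩, fun α hα => ?_⟩
        obtain ⟨ν, h1, h2, h3⟩ := hcon α hα
        exact ⟨ν, h3, h1, (hbit ν h1).2 h2⟩
      obtain ⟨b, hba, hb⟩ := hb
      let T : Set Om := {σ | ∀ ν, ν < a → ν ∈ E → ν ≤ σ}
      have hT : T.Nonempty := ⟨b, hb⟩
      let σ : Om := WellFounded.min wellFounded_lt T hT
      have hσT : σ ∈ T := WellFounded.min_mem wellFounded_lt T hT
      have hσmin : ∀ τ ∈ T, σ ≤ τ := fun τ hτ =>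
        not_lt.1 (WellFounded.not_lt_min wellFounded_lt T hτ)
      have hσa : σ < a := lt_of_le_of_lt (hσmin b hb) hba
      have hbase : Base u σ := by
        refine ⟨fun ν h1 h2 => hσT ν h1 ((hbit ν h1).1 h2), fun σ' hσ' => ?_⟩
        by_contra hcon
        push Not at hcon
        have : σ' ∈ T := fun ν h1 h2 => hcon ν h1 ((hbit ν h1).2 h2)
        exact absurd (hσmin σ' this) (not_le.2 hσ')
      have hal : a ≤ l σ := by
        refine hw.next σ a fun ε hε hσε => ?_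
        by_contra hcon
        exact absurd (hσT ε (not_le.1 hcon) hε) (not_le.2 hσε)
      obtain ⟨n, hn⟩ := exists_rk (hw.code σ) (lt_of_lt_of_le hη hal)
      refine ⟨n, Or.inl ⟨hunb, hη, σ, hbase, ?_⟩⟩
      rw [hval σ hσa]
      exact hn

end PU
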